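import Pool.Agent.SpM.Targets

/-!
# SpM, job J1: `T_CARD`, `T_MODS`, `T_PACK`
-/

namespace SpM

open Finset

namespace J1_

/-! ### counting -/

theorem one (m : ℤ) :
    (∑ a : Fin 6, if (6 : ℤ) ∣ m + ((a : ℕ) : ℤ) then (1 : ℕ) else 0) = 1 := by
  rw [Fin.sum_univ_six]
  simp only [Fin.val_zero, Fin.val_one, Nat.cast_zero, Nat.cast_one]
  have h2 : (((2 : Fin 6) : ℕ) : ℤ) = 2 := rfl
  have h3 : (((3 : Fin 6) : ℕ) : ℤ) = 3 := rfl
  have h4 : (((4 : Fin 6) : ℕ) : ℤ) = 4 := rfl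
  have h5 : (((5 : Fin 6) : ℕ) : ℤ) = 5 := rfl
  rw [h2, h3, h4, h5]
  split_ifs <;> omega

/-- split off coordinate `0` -/
def e0 : (Fin 4 → Fin 6) ≃ (Fin 6 × Fin 6 × Fin 6) × Fin 6 where
  toFun x := ((x 1, x 2, x 3), x 0)
  invFun p := ![p.2, p.1.1, p.1.2.1, p.1.2.2]
  left_inv x := by
    funext i
    fin_cases i <;> rfl
  right_inv p := rfl

/-- split off coordinate `1` -/
def e1 : (Fin 4 → Fin 6) ≃ (Fin 6 × Fin 6 × Fin 6) × Fin 6 where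
  toFun x := ((x 0, x 2, x 3), x 1)
  invFun p := ![p.1.1, p.2, p.1.2.1, p.1.2.2]
  left_inv x := by
    funext i
    fin_cases i <;> rfl
  right_inv p := rfl

theorem phi_cases : ∀ j : Fin 15, phi j 0 = 1 ∨ phi j 1 = 1 := by
  decide

theorem count (j : Fin 15) :
    (∑ x : Fin 4 → Fin 6,
      if (6 : ℤ) ∣ ∑ i, phi j i * (((x i : Fin 6) : ℕ) : ℤ) then (1 : ℕ) else 0) = 216 := by
  rcases phi_cases j with h | h
  · rw [Fintype.sum_equiv e0 _ (fun p : (Fin 6 × Fin 6 × Fin 6) × Fin 6 =>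
      if (6 : ℤ) ∣ (phi j 1 * ((p.1.1 : ℕ) : ℤ) + phi j 2 * ((p.1.2.1 : ℕ) : ℤ)
        + phi j 3 * ((p.1.2.2 : ℕ) : ℤ)) + ((p.2 : ℕ) : ℤ) then (1 : ℕ) else 0)]
    · rw [Fintype.sum_prod_type]
      simp only [one]
      simp
    · intro x
      have : (∑ i, phi j i * (((x i : Fin 6) : ℕ) : ℤ)) =
          (phi j 1 * (((x 1 : Fin 6) : ℕ) : ℤ) + phi j 2 * (((x 2 : Fin 6) : ℕ) : ℤ)
            + phi j 3 * (((x 3 : Fin 6) : ℕ) : ℤ)) + (((x 0 : Fin 6) : ℕ) : ℤ) := by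
        rw [Fin.sum_univ_four, h]
        ring
      rw [this]
      rfl
  · rw [Fintype.sum_equiv e1 _ (fun p : (Fin 6 × Fin 6 × Fin 6) × Fin 6 =>
      if (6 : ℤ) ∣ (phi j 0 * ((p.1.1 : ℕ) : ℤ) + phi j 2 * ((p.1.2.1 : ℕ) : ℤ)
        + phi j 3 * ((p.1.2.2 : ℕ) : ℤ)) + ((p.2 : ℕ) : ℤ) then (1 : ℕ) else 0)]
    · rw [Fintype.sum_prod_type]
      simp only [one]
      simp
    · intro x
      have : (∑ i, phi j i * (((x i : Fin 6) : ℕ) : ℤ)) =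
          (phi j 0 * (((x 0 : Fin 6) : ℕ) : ℤ) + phi j 2 * (((x 2 : Fin 6) : ℕ) : ℤ)
            + phi j 3 * (((x 3 : Fin 6) : ℕ) : ℤ)) + (((x 1 : Fin 6) : ℕ) : ℤ) := by
        rw [Fin.sum_univ_four, h]
        ring
      rw [this]
      rfl

/-! ### injectivity modulo the periods -/

theorem S_four : ∀ s ∈ S, s 4 = 0 := by
  decide

theorem S_sep : ∀ j : Fin 15, ∀ s ∈ S, ∀ t ∈ S,
    (6 : ℤ) ∣ phi j 0 * (s 0 - t 0) + phi j 1 * (s 1 - t 1) + phi j 2 * (s 2 - t 2)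
      + phi j 3 * (s 3 - t 3) → s = t := by
  decide +kernel

theorem pt0 (N : ℕ) (p : Idx) : pt N p 0 = ((p.1 0 : ℕ) : ℤ) + 6 * N * lift0 p := rfl
theorem pt1 (N : ℕ) (p : Idx) : pt N p 1 = ((p.1 1 : ℕ) : ℤ) + 6 * N * lift1 p := rfl
theorem pt2 (N : ℕ) (p : Idx) : pt N p 2 = ((p.1 2 : ℕ) : ℤ) := rfl
theorem pt3 (N : ℕ) (p : Idx) : pt N p 3 = ((p.1 3 : ℕ) : ℤ) := rfl
theorem pt4 (N : ℕ) (p : Idx) : pt N p 4 = ((p.2 : ℕ) : ℤ) := rfl

attribute [local irreducible] IA S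

theorem mem_IA {p : Idx} (hp : p ∈ IA) :
    (6 : ℤ) ∣ phi p.2 0 * ((p.1 0 : ℕ) : ℤ) + phi p.2 1 * ((p.1 1 : ℕ) : ℤ)
      + phi p.2 2 * ((p.1 2 : ℕ) : ℤ) + phi p.2 3 * ((p.1 3 : ℕ) : ℤ) := by
  unfold IA at hp
  rw [Finset.mem_filter] at hp
  have h := hp.2
  rw [Fin.sum_univ_four] at h
  exact h

theorem fin6_eq {a b : Fin 6} (h : (6 : ℤ) ∣ ((a : ℕ) : ℤ) - ((b : ℕ) : ℤ)) : a = b := by
  have ha := a.2
  have hb := b.2
  apply Fin.ext
  omega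

/-! ### packing -/

/-- six points whose differences are in `K` -/
def cl : Fin 6 → Fin 4 → ℤ :=
  ![![0,0,0,0], ![0,1,1,2], ![1,0,2,1], ![1,2,0,2], ![2,1,2,0], ![2,2,1,1]]

theorem cl_sep : ∀ c d : Fin 6, c ≠ d → ∃ j : Fin 15,
    ((3 : ℤ) ∣ (cl d 0 - cl c 0) - phi j 0 ∧ (3 : ℤ) ∣ (cl d 1 - cl c 1) - phi j 1 ∧
      (3 : ℤ) ∣ (cl d 2 - cl c 2) - phi j 2 ∧ (3 : ℤ) ∣ (cl d 3 - cl c 3) - phi j 3) ∨
    ((3 : ℤ) ∣ (cl d 0 - cl c 0) + phi j 0 ∧ (3 : ℤ) ∣ (cl d 1 - cl c 1) + phi j 1 ∧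
      (3 : ℤ) ∣ (cl d 2 - cl c 2) + phi j 2 ∧ (3 : ℤ) ∣ (cl d 3 - cl c 3) + phi j 3) := by
  decide +kernel

theorem cl_sep' (c d : Fin 6) (h : c ≠ d) : ∃ j : Fin 15,
    (∀ i, (3 : ℤ) ∣ (cl d i - cl c i) - phi j i) ∨
    (∀ i, (3 : ℤ) ∣ (cl d i - cl c i) + phi j i) := by
  obtain ⟨j, hj⟩ := cl_sep c d h
  refine ⟨j, ?_⟩
  rcases hj with ⟨h0, h1, h2, h3⟩ | ⟨h0, h1, h2, h3⟩
  · left
    intro i
    fin_cases i
    · exact h0
    · exact h1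
    · exact h2
    · exact h3
  · right
    intro i
    fin_cases i
    · exact h0
    · exact h1
    · exact h2
    · exact h3

end J1_

open J1_

theorem p_CARD : T_CARD := by
  unfold T_CARD IA
  rw [Finset.card_filter, Fintype.sum_prod_type_right]
  simp only [count]
  simp

attribute [local irreducible] IA S

theorem p_MODS : T_MODS := by
  unfold T_MODS
  intro N p hp q hq s hs t ht h
  have h4 := h 4
  have hM : ∀ i : Fin 5, ((M i : ℕ) : ℤ) = (![6, 6, 6, 6, 15] : Fin 5 → ℤ) i := by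
    decide
  have hM4 : ((M 4 : ℕ) : ℤ) = 15 := hM 4
  have hM0 : ((M 0 : ℕ) : ℤ) = 6 := hM 0
  have hM1 : ((M 1 : ℕ) : ℤ) = 6 := hM 1
  have hM2 : ((M 2 : ℕ) : ℤ) = 6 := hM 2
  have hM3 : ((M 3 : ℕ) : ℤ) = 6 := hM 3
  rw [hM4, pt4, pt4, S_four s hs, S_four t ht] at h4
  have hj : p.2 = q.2 := by
    have h1 := p.2.2
    have h2 := q.2.2
    apply Fin.ext
    omega
  have h0 := h 0
  have h1 := h 1
  have h2 := h 2
  have h3 := h 3
  rw [hM0, pt0, pt0] at h0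
  rw [hM1, pt1, pt1] at h1
  rw [hM2, pt2, pt2] at h2
  rw [hM3, pt3, pt3] at h3
  have g0 : (6 : ℤ) ∣ ((p.1 0 : ℕ) : ℤ) - ((q.1 0 : ℕ) : ℤ) + (s 0 - t 0) := by
    have e : ((p.1 0 : ℕ) : ℤ) - ((q.1 0 : ℕ) : ℤ) + (s 0 - t 0) =
        (((p.1 0 : ℕ) : ℤ) + 6 * N * lift0 p + s 0 - (((q.1 0 : ℕ) : ℤ) + 6 * N * lift0 q + t 0))
          - 6 * (N * lift0 p - N * lift0 q) := by ring
    rw [e]
    exact dvd_sub h0 (Dvd.intro _ rfl)
  have g1 : (6 : ℤ) ∣ ((p.1 1 : ℕ) : ℤ) - ((q.1 1 : ℕ) : ℤ) + (s 1 - t 1) := by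
    have e : ((p.1 1 : ℕ) : ℤ) - ((q.1 1 : ℕ) : ℤ) + (s 1 - t 1) =
        (((p.1 1 : ℕ) : ℤ) + 6 * N * lift1 p + s 1 - (((q.1 1 : ℕ) : ℤ) + 6 * N * lift1 q + t 1))
          - 6 * (N * lift1 p - N * lift1 q) := by ring
    rw [e]
    exact dvd_sub h1 (Dvd.intro _ rfl)
  have g2 : (6 : ℤ) ∣ ((p.1 2 : ℕ) : ℤ) - ((q.1 2 : ℕ) : ℤ) + (s 2 - t 2) := by
    have e : ((p.1 2 : ℕ) : ℤ) - ((q.1 2 : ℕ) : ℤ) + (s 2 - t 2) =
        (((p.1 2 : ℕ) : ℤ) + s 2 - (((q.1 2 : ℕ) : ℤ) + t 2)) := by ring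
    rw [e]
    exact h2
  have g3 : (6 : ℤ) ∣ ((p.1 3 : ℕ) : ℤ) - ((q.1 3 : ℕ) : ℤ) + (s 3 - t 3) := by
    have e : ((p.1 3 : ℕ) : ℤ) - ((q.1 3 : ℕ) : ℤ) + (s 3 - t 3) =
        (((p.1 3 : ℕ) : ℤ) + s 3 - (((q.1 3 : ℕ) : ℤ) + t 3)) := by ring
    rw [e]
    exact h3
  have hst : s = t := by
    apply S_sep p.2 s hs t ht
    have hp' := mem_IA hp
    have hq' := mem_IA hq
    rw [← hj] at hq'
    have e : phi p.2 0 * (s 0 - t 0) + phi p.2 1 * (s 1 - t 1) + phi p.2 2 * (s 2 - t 2)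
        + phi p.2 3 * (s 3 - t 3) =
        (phi p.2 0 * (((p.1 0 : ℕ) : ℤ) - ((q.1 0 : ℕ) : ℤ) + (s 0 - t 0)) +
          phi p.2 1 * (((p.1 1 : ℕ) : ℤ) - ((q.1 1 : ℕ) : ℤ) + (s 1 - t 1)) +
          phi p.2 2 * (((p.1 2 : ℕ) : ℤ) - ((q.1 2 : ℕ) : ℤ) + (s 2 - t 2)) +
          phi p.2 3 * (((p.1 3 : ℕ) : ℤ) - ((q.1 3 : ℕ) : ℤ) + (s 3 - t 3))) -
        (phi p.2 0 * ((p.1 0 : ℕ) : ℤ) + phi p.2 1 * ((p.1 1 : ℕ) : ℤ)
          + phi p.2 2 * ((p.1 2 : ℕ) : ℤ) + phi p.2 3 * ((p.1 3 : ℕ) : ℤ)) +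
        (phi p.2 0 * ((q.1 0 : ℕ) : ℤ) + phi p.2 1 * ((q.1 1 : ℕ) : ℤ)
          + phi p.2 2 * ((q.1 2 : ℕ) : ℤ) + phi p.2 3 * ((q.1 3 : ℕ) : ℤ)) := by ring
    rw [e]
    exact dvd_add (dvd_sub (dvd_add (dvd_add (dvd_add (Dvd.dvd.mul_left g0 _)
      (Dvd.dvd.mul_left g1 _)) (Dvd.dvd.mul_left g2 _)) (Dvd.dvd.mul_left g3 _)) hp') hq'
  refine ⟨?_, hst⟩
  subst hst
  rw [sub_self, add_zero] at g0 g1 g2 g3
  refine Prod.ext ?_ hj
  funext i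
  fin_cases i
  · exact fin6_eq g0
  · exact fin6_eq g1
  · exact fin6_eq g2
  · exact fin6_eq g3

theorem p_PACK : T_PACK := by
  intro α P f h
  classical
  let g : α × Fin 6 → (Fin 4 → ZMod 3) := fun p i => ((f p.1 i + cl p.2 i : ℤ) : ZMod 3)
  have hinj : Set.InjOn g (↑(P ×ˢ (Finset.univ : Finset (Fin 6)))) := by
    rintro ⟨x, c⟩ hx ⟨y, d⟩ hy hg
    have hx' : x ∈ P := (Finset.mem_product.1 (Finset.mem_coe.1 hx)).1
    have hy' : y ∈ P := (Finset.mem_product.1 (Finset.mem_coe.1 hy)).1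
    have hd : ∀ i, (3 : ℤ) ∣ (f x i + cl c i) - (f y i + cl d i) := by
      intro i
      have h1 : ((f x i + cl c i : ℤ) : ZMod 3) = ((f y i + cl d i : ℤ) : ZMod 3) :=
        congrFun hg i
      have h2 := (ZMod.intCast_eq_intCast_iff_dvd_sub _ _ 3).1 h1.symm
      exact_mod_cast h2
    by_cases hcd : c = d
    · subst hcd
      have hz : zero3 (f x - f y) := by
        intro i
        have := hd i
        rw [Pi.sub_apply]
        have e : f x i - f y i = (f x i + cl c i) - (f y i + cl c i) := by ring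
        rw [e]
        exact this
      by_cases hxy : x = y
      · rw [hxy]
      · exact absurd hz (h x hx' y hy' hxy).1
    · exfalso
      obtain ⟨j, hj⟩ := cl_sep' c d hcd
      have hk : inK (f x - f y) := by
        refine ⟨j, ?_⟩
        rcases hj with hj | hj
        · left
          intro i
          rw [Pi.sub_apply]
          have e : f x i - f y i - phi j i =
            ((f x i + cl c i) - (f y i + cl d i)) + ((cl d i - cl c i) - phi j i) := by ring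
          rw [e]
          exact dvd_add (hd i) (hj i)
        · right
          intro i
          rw [Pi.sub_apply]
          have e : f x i - f y i + phi j i =
            ((f x i + cl c i) - (f y i + cl d i)) + ((cl d i - cl c i) + phi j i) := by ring
          rw [e]
          exact dvd_add (hd i) (hj i)
      by_cases hxy : x = y
      · subst hxy
        -- `0` is not in `K`
        obtain ⟨j', hj'⟩ := hk
        have h0 : (3 : ℤ) ∣ phi j' 0 ∧ (3 : ℤ) ∣ phi j' 1 := by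
          rcases hj' with hj' | hj'
          · have a0 := hj' 0
            have a1 := hj' 1
            rw [Pi.sub_apply, sub_self, zero_sub, dvd_neg] at a0 a1
            exact ⟨a0, a1⟩
          · have a0 := hj' 0
            have a1 := hj' 1
            rw [Pi.sub_apply, sub_self, zero_add] at a0 a1
            exact ⟨a0, a1⟩
        rcases phi_cases j' with h1 | h1
        · rw [h1] at h0
          omega
        · rw [h1] at h0
          omega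
      · exact (h x hx' y hy' hxy).2 hk
  have hcard := Finset.card_le_card_of_injOn g
    (s := P ×ˢ (Finset.univ : Finset (Fin 6))) (t := Finset.univ)
    (fun _ _ => Finset.mem_univ _) hinj
  have hc : (Finset.univ : Finset (Fin 4 → ZMod 3)).card = 81 := by
    rw [Finset.card_univ, Fintype.card_fun, ZMod.card]
    simp
  rw [Finset.card_product, hc, Finset.card_univ, Fintype.card_fin] at hcard
  omega

end SpM
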