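import Pool.Agent.SpM.Targets

/-!
# SpM, job J2: the digit sets
-/

namespace SpM

open MeasureTheory Finset

attribute [local irreducible] IA

namespace Dig

/-! ### general facts -/

theorem zero_mem_S : (0 : Z5) ∈ S := by
  have : (0 : Z5) = ![0,0,0,0,0] := by
    ext i; fin_cases i <;> rfl
  rw [this]
  simp [S]

theorem card_S : S.card = 6 := by decide

theorem S_bound : ∀ s ∈ S, ∀ i, |s i| ≤ 2 := by decide

theorem S_bound0 : ∀ s ∈ S, s 0 ≤ 1 ∧ s 1 ≤ 1 ∧ -1 ≤ s 0 ∧ -1 ≤ s 1 ∧ s 4 = 0 := by decide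

theorem M_pos (i : Fin 5) : 0 < M i := by fin_cases i <;> simp [M]

theorem prod_M : ∏ i, M i = 19440 := by
  simp [Fin.prod_univ_five, M]

theorem kk_pos {K1 K2 : ℕ} (h1 : 1 ≤ K1) (h2 : 1 ≤ K2) (i : Fin 5) : 0 < kk K1 K2 i := by
  fin_cases i <;> simp [kk] <;> omega

theorem mem_Box {K1 K2 : ℕ} {b : Z5} :
    b ∈ Box K1 K2 ↔ ∀ i, ∃ c : ℕ, c < kk K1 K2 i ∧ (M i : ℤ) * c = b i := by
  unfold Box
  rw [Fintype.mem_piFinset]
  simp only [Finset.mem_image, Finset.mem_range]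

theorem mem_Cs {N K1 K2 : ℕ} {c : Z5} :
    c ∈ Cs N K1 K2 ↔ ∃ p ∈ IA, ∃ b ∈ Box K1 K2, pt N p + b = c := by
  unfold Cs A
  rw [Finset.mem_image]
  constructor
  · rintro ⟨⟨a, b⟩, h, rfl⟩
    rw [Finset.mem_product] at h
    obtain ⟨p, hp, hp'⟩ := Finset.mem_image.1 h.1
    exact ⟨p, hp, b, h.2, by rw [hp']⟩
  · rintro ⟨p, hp, b, hb, rfl⟩
    exact ⟨(pt N p, b), Finset.mem_product.2 ⟨Finset.mem_image_of_mem _ hp, hb⟩, rfl⟩

/-- the layers -/
theorem layer (h2 : T_MODS) {N K1 K2 : ℕ} {p q : Idx} (hp : p ∈ IA)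
    (hq : q ∈ IA) {b b' : Z5} (hb : b ∈ Box K1 K2) (hb' : b' ∈ Box K1 K2) {s s' : Z5}
    (hs : s ∈ S) (hs' : s' ∈ S)
    (h : ∀ i, (nn K1 K2 i : ℤ) ∣ (pt N p i + b i + s i) - (pt N q i + b' i + s' i)) :
    p = q ∧ b = b' ∧ s = s' := by
  rw [mem_Box] at hb hb'
  have hM : ∀ i, (M i : ℤ) ∣ (pt N p i + s i) - (pt N q i + s' i) := by
    intro i
    obtain ⟨c, _, hc⟩ := hb i
    obtain ⟨c', _, hc'⟩ := hb' i
    have e1 : (M i : ℤ) ∣ (nn K1 K2 i : ℤ) := by
      unfold nn; push_cast; exact Dvd.intro _ rfl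
    have e2 := e1.trans (h i)
    have e3 : (pt N p i + s i) - (pt N q i + s' i) =
        ((pt N p i + b i + s i) - (pt N q i + b' i + s' i)) - (M i : ℤ) * ((c : ℤ) - c') := by
      rw [← hc, ← hc']; ring
    rw [e3]
    exact dvd_sub e2 (Dvd.intro _ rfl)
  obtain ⟨rfl, rfl⟩ := h2 N p hp q hq s hs s' hs' hM
  refine ⟨rfl, ?_, rfl⟩
  funext i
  obtain ⟨c, hcl, hc⟩ := hb i
  obtain ⟨c', hcl', hc'⟩ := hb' i
  have e4 : (M i : ℤ) * (kk K1 K2 i : ℤ) ∣ (M i : ℤ) * ((c : ℤ) - c') := by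
    have := h i
    have e5 : (nn K1 K2 i : ℤ) = (M i : ℤ) * (kk K1 K2 i : ℤ) := by unfold nn; push_cast; rfl
    rw [e5] at this
    have e6 : (pt N p i + b i + s i) - (pt N p i + b' i + s i) = (M i : ℤ) * ((c : ℤ) - c') := by
      rw [← hc, ← hc']; ring
    rwa [e6] at this
  have hMi : (M i : ℤ) ≠ 0 := by
    have := M_pos i
    exact_mod_cast this.ne'
  rw [mul_dvd_mul_iff_left hMi] at e4
  have e7 : (c : ℤ) - c' = 0 := by
    apply Int.eq_zero_of_abs_lt_dvd e4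
    rw [abs_lt]
    constructor <;> omega
  rw [← hc, ← hc', sub_eq_zero.1 e7]

theorem pt_inj (h2 : T_MODS) (N : ℕ) : Set.InjOn (pt N) (IA : Set Idx) := by
  intro p hp q hq h
  exact (h2 N p hp q hq 0 zero_mem_S 0 zero_mem_S (fun i => by rw [h]; simp)).1

theorem card_A (h1 : T_CARD) (h2 : T_MODS) (N : ℕ) : (A N).card = 3240 := by
  unfold A
  rw [Finset.card_image_of_injOn (pt_inj h2 N)]
  exact h1

theorem card_Box (K1 K2 : ℕ) : (Box K1 K2).card = ∏ i, kk K1 K2 i := by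
  unfold Box
  rw [Fintype.card_piFinset]
  refine Finset.prod_congr rfl fun i _ => ?_
  rw [Finset.card_image_of_injective, Finset.card_range]
  intro c c' h
  have hMi : (M i : ℤ) ≠ 0 := by
    have := M_pos i
    exact_mod_cast this.ne'
  exact_mod_cast mul_left_cancel₀ hMi h

theorem add_inj (h2 : T_MODS) (N K1 K2 : ℕ) :
    Set.InjOn (fun p : Z5 × Z5 => p.1 + p.2) (((A N) ×ˢ (Box K1 K2) : Finset (Z5 × Z5)) :
      Set (Z5 × Z5)) := by
  rintro ⟨a, b⟩ h ⟨a', b'⟩ h' he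
  rw [Finset.mem_coe, Finset.mem_product] at h h'
  obtain ⟨p, hp, hp'⟩ := Finset.mem_image.1 h.1
  obtain ⟨q, hq, hq'⟩ := Finset.mem_image.1 h'.1
  simp only at hp' hq' he
  have := layer h2 (N := N) hp hq h.2 h'.2 zero_mem_S zero_mem_S (fun i => by
    have e1 := congrFun he i
    simp only [Pi.add_apply] at e1
    rw [hp', hq', e1]
    simp)
  obtain ⟨e1, e2, _⟩ := this
  simp only at e2
  rw [← hp', ← hq', e1, e2]

theorem card_Cs (h1 : T_CARD) (h2 : T_MODS) (N K1 K2 : ℕ) :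
    (Cs N K1 K2).card = 3240 * ∏ i, kk K1 K2 i := by
  unfold Cs
  rw [Finset.card_image_of_injOn (add_inj h2 N K1 K2), Finset.card_product, card_A h1 h2,
    card_Box]

theorem lift0_bound (p : Idx) : 0 ≤ lift0 p ∧ lift0 p ≤ 1 := by
  unfold lift0
  split_ifs <;> simp

theorem lift1_bound (p : Idx) : 0 ≤ lift1 p ∧ lift1 p ≤ 27 := by
  unfold lift1
  split_ifs <;> simp

end Dig

open Dig

theorem p_GOOD (h1 : T_CARD) (h2 : T_MODS) : T_GOOD := by
  intro N K1 K2 hK1 hK2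
  have hK1' : 1 ≤ K1 := by omega
  refine ⟨?_, ?_, ?_, ?_⟩
  · intro i
    exact Nat.mul_pos (M_pos i) (kk_pos hK1' hK2 i)
  · intro c hc c' hc' s hs s' hs' h
    obtain ⟨p, hp, b, hb, rfl⟩ := mem_Cs.1 hc
    obtain ⟨q, hq, b', hb', rfl⟩ := mem_Cs.1 hc'
    obtain ⟨e1, e2, e3⟩ := layer h2 hp hq hb hb' hs hs' h
    exact ⟨by rw [e1, e2], e3⟩
  · rw [card_Cs h1 h2]
    unfold nn
    rw [Finset.prod_mul_distrib, prod_M]
    ring
  · intro c hc s hs i
    obtain ⟨p, hp, b, hb, rfl⟩ := mem_Cs.1 hc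
    rw [mem_Box] at hb
    obtain ⟨e, he, he'⟩ := hb i
    have hsb := S_bound s hs i
    obtain ⟨s1, s2, s3, s4, s5⟩ := S_bound0 s hs
    obtain ⟨l1, l2⟩ := lift0_bound p
    obtain ⟨l3, l4⟩ := lift1_bound p
    have hN : (0 : ℤ) ≤ N := Int.natCast_nonneg N
    have l5 : (N : ℤ) * lift0 p ≤ N := by nlinarith
    have l6 : 0 ≤ (N : ℤ) * lift0 p := mul_nonneg hN l1
    have l7 : (N : ℤ) * lift1 p ≤ 27 * N := by nlinarith
    have l8 : 0 ≤ (N : ℤ) * lift1 p := mul_nonneg hN l3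
    have x0 := (p.1 0).isLt
    have x1 := (p.1 1).isLt
    have x2 := (p.1 2).isLt
    have x3 := (p.1 3).isLt
    have x4 := p.2.isLt
    rw [Pi.add_apply, ← he']
    fin_cases i
    · simp [nn, M, kk, pt] at he hsb ⊢
      rw [abs_le] at hsb ⊢
      constructor
      · nlinarith
      · nlinarith
    · simp [nn, M, kk, pt] at he hsb ⊢
      rw [abs_le] at hsb ⊢
      constructor
      · nlinarith
      · nlinarith
    · simp [nn, M, kk, pt] at he hsb ⊢
      rw [abs_le] at hsb ⊢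
      constructor <;> omega
    · simp [nn, M, kk, pt] at he hsb ⊢
      rw [abs_le] at hsb ⊢
      constructor <;> omega
    · simp [nn, M, kk, pt] at he hsb ⊢
      rw [abs_le] at hsb ⊢
      constructor <;> omega

theorem p_FTC (h1 : T_CARD) (h2 : T_MODS) : T_FTC := by
  intro N K1 K2 hK1 hK2
  refine ⟨card_Cs h1 h2 N K1 K2, fun x => ?_⟩
  unfold Cs
  conv_lhs => unfold ft
  rw [Finset.sum_image (add_inj h2 N K1 K2), Finset.sum_product]
  have e1 : ∀ a ∈ A N, ∑ b ∈ Box K1 K2, ee (dot ((a, b).1 + (a, b).2) x) =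
      ee (dot a x) * ∑ b ∈ Box K1 K2, ee (dot b x) := by
    intro a _
    rw [Finset.mul_sum]
    refine Finset.sum_congr rfl fun b _ => ?_
    rw [add_dot, ee_add]
  rw [Finset.sum_congr rfl e1, ← Finset.sum_mul]
  show ft (A N) x * _ = _
  congr 1
  have e2 : ∀ t : Fin 5 → ℝ, ee (∑ i, t i) = ∏ i, ee (t i) := by
    intro t
    rw [Fin.sum_univ_five, Fin.prod_univ_five]
    simp only [ee_add]
  unfold Box dot
  simp only [e2]
  rw [← Finset.prod_univ_sum (fun i => (Finset.range (kk K1 K2 i)).image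
    (fun c : ℕ => (M i : ℤ) * c)) (fun i (b : ℤ) => ee ((b : ℝ) * x i))]
  refine Finset.prod_congr rfl fun i _ => ?_
  rw [Finset.sum_image]
  · refine Finset.sum_congr rfl fun c _ => ?_
    congr 1
    push_cast
    ring
  · intro c _ c' _ h
    have hMi : (M i : ℤ) ≠ 0 := by
      have := M_pos i
      exact_mod_cast this.ne'
    exact_mod_cast mul_left_cancel₀ hMi h

theorem p_FTB : T_FTB := by
  intro n C hG
  have hinj : Set.InjOn (fun p : Z5 × Z5 => p.1 + scz (rr n) p.2) ((C ×ˢ S : Finset (Z5 × Z5)) :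
      Set (Z5 × Z5)) := by
    rintro ⟨c, s⟩ h ⟨c', s'⟩ h' he
    rw [Finset.mem_coe, Finset.mem_product] at h h'
    simp only at he
    have hi : ∀ i, c i + (64 * n i : ℕ) * s i = c' i + (64 * n i : ℕ) * s' i := fun i =>
      congrFun he i
    have hc : c = c' := (hG.inj c h.1 c' h'.1 0 zero_mem_S 0 zero_mem_S (fun i => by
      refine ⟨64 * (s' i - s i), ?_⟩
      have := hi i
      push_cast at this
      simp only [Pi.zero_apply]
      linear_combination this)).1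
    subst hc
    have hs : s = s' := by
      funext i
      have h1 := hi i
      have h2 := hG.pos i
      have h3 : ((64 * n i : ℕ) : ℤ) ≠ 0 := by
        have : 0 < 64 * n i := by omega
        exact_mod_cast this.ne'
      exact mul_left_cancel₀ h3 (add_left_cancel h1)
    rw [hs]
  constructor
  · unfold BB
    rw [Finset.card_image_of_injOn hinj, Finset.card_product, card_S]
  · intro x
    unfold BB
    conv_lhs => unfold ft
    rw [Finset.sum_image hinj, Finset.sum_product]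
    unfold ft
    rw [Finset.sum_mul_sum]
    refine Finset.sum_congr rfl fun c _ => Finset.sum_congr rfl fun s _ => ?_
    rw [add_dot, ee_add]
    congr 2
    unfold dot scz scr
    refine Finset.sum_congr rfl fun i _ => ?_
    push_cast
    ring

theorem p_FTD : T_FTD := by
  intro n C hG
  have hinj : Set.InjOn (fun p : Z5 × Z5 => p.1 + p.2) ((C ×ˢ S : Finset (Z5 × Z5)) :
      Set (Z5 × Z5)) := by
    rintro ⟨c, s⟩ h ⟨c', s'⟩ h' he
    rw [Finset.mem_coe, Finset.mem_product] at h h'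
    simp only at he
    have := hG.inj c h.1 c' h'.1 s h.2 s' h'.2 (fun i => by
      have : c i + s i = c' i + s' i := congrFun he i
      rw [this, sub_self]
      exact dvd_zero _)
    rw [this.1, this.2]
  refine ⟨?_, ?_, ?_, ?_⟩
  · unfold DD
    rw [Finset.card_image_of_injOn hinj, Finset.card_product, card_S]
  · intro x
    unfold DD
    conv_lhs => unfold ft
    rw [Finset.sum_image hinj, Finset.sum_product]
    unfold ft
    rw [Finset.sum_mul_sum]
    refine Finset.sum_congr rfl fun c _ => Finset.sum_congr rfl fun s _ => ?_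
    rw [add_dot, ee_add]
  · intro d hd d' hd' h
    unfold DD at hd hd'
    obtain ⟨⟨c, s⟩, h1, rfl⟩ := Finset.mem_image.1 hd
    obtain ⟨⟨c', s'⟩, h2, rfl⟩ := Finset.mem_image.1 hd'
    rw [Finset.mem_product] at h1 h2
    have := hG.inj c h1.1 c' h2.1 s h1.2 s' h2.2 h
    rw [this.1, this.2]
  · intro d hd i
    unfold DD at hd
    obtain ⟨⟨c, s⟩, h1, rfl⟩ := Finset.mem_image.1 hd
    rw [Finset.mem_product] at h1
    exact hG.bound c h1.1 s h1.2 i

end SpM
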