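import Pool.Agent.SpM.Targets

/-! J7: the Fourier transform determines the measure; the criterion for spectral measures. -/

namespace SpM

open MeasureTheory Finset

theorem p_EXT : T_EXT := by
  intro d μ ν hμ hν h
  apply Measure.ext_of_charFunDual
  funext L
  rw [charFunDual_apply, charFunDual_apply]
  have hL : ∀ x : Fin d → ℝ, L x = ∑ i, L (Pi.single i 1) * x i := by
    intro x
    conv_lhs => rw [pi_eq_sum_univ' x]
    rw [map_sum]
    refine Finset.sum_congr rfl fun i _ => ?_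
    rw [map_smul, smul_eq_mul, mul_comm]
  have key : ∀ x : Fin d → ℝ, Complex.exp ((L x : ℂ) * Complex.I) =
      ee (∑ i, (L (Pi.single i 1) / (2 * Real.pi)) * x i) := by
    intro x
    unfold ee
    congr 2
    rw [hL x, Finset.mul_sum]
    congr 1
    refine Finset.sum_congr rfl fun i _ => ?_
    field_simp
  have h1 := h (fun i => L (Pi.single i 1) / (2 * Real.pi))
  unfold mhat at h1
  simp only [key]
  exact h1

namespace HB

variable {d : ℕ}

/-- the exponential function -/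
noncomputable def ex (ξ : Fin d → ℝ) (x : Fin d → ℝ) : ℂ := ee (∑ i, ξ i * x i)

theorem continuous_ex (ξ : Fin d → ℝ) : Continuous (ex ξ) := by
  unfold ex
  exact continuous_ee.comp (by fun_prop)

theorem norm_ex (ξ x : Fin d → ℝ) : ‖ex ξ x‖ = 1 := norm_ee _

theorem conj_ex (ξ x : Fin d → ℝ) : (starRingEnd ℂ) (ex ξ x) = ex (-ξ) x := by
  unfold ex
  rw [← ee_neg]
  congr 1
  simp

theorem ex_mul (ξ η x : Fin d → ℝ) : ex ξ x * ex η x = ex (ξ + η) x := by
  unfold ex
  rw [← ee_add]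
  congr 1
  simp [add_mul, Finset.sum_add_distrib]

theorem memLp_ex (μ : Measure (Fin d → ℝ)) [IsProbabilityMeasure μ] (ξ : Fin d → ℝ) :
    MemLp (ex ξ) 2 μ :=
  MemLp.of_bound (continuous_ex ξ).aestronglyMeasurable 1
    (Filter.Eventually.of_forall fun x => (norm_ex ξ x).le)

/-- the exponential as an element of `L²` -/
noncomputable def E (μ : Measure (Fin d → ℝ)) [IsProbabilityMeasure μ] (ξ : Fin d → ℝ) :
    Lp ℂ 2 μ := (memLp_ex μ ξ).toLp (ex ξ)

theorem inner_E (μ : Measure (Fin d → ℝ)) [IsProbabilityMeasure μ] (ξ η : Fin d → ℝ) :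
    inner ℂ (E μ ξ) (E μ η) = mhat μ (η - ξ) := by
  rw [L2.inner_def]
  unfold mhat
  apply integral_congr_ae
  filter_upwards [(memLp_ex μ ξ).coeFn_toLp, (memLp_ex μ η).coeFn_toLp] with x h1 h2
  unfold E
  rw [h1, h2]
  have : inner ℂ (ex ξ x) (ex η x) = ex η x * (starRingEnd ℂ) (ex ξ x) := by
    rw [RCLike.inner_apply]
  rw [this, conj_ex, ex_mul]
  rfl

theorem mhat_zero (μ : Measure (Fin d → ℝ)) [IsProbabilityMeasure μ] : mhat μ 0 = 1 := by
  unfold mhat
  simp [ee_zero]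

theorem inner_E_self (μ : Measure (Fin d → ℝ)) [IsProbabilityMeasure μ] (ξ : Fin d → ℝ) :
    inner ℂ (E μ ξ) (E μ ξ) = 1 := by
  rw [inner_E, sub_self, mhat_zero]

theorem norm_E (μ : Measure (Fin d → ℝ)) [IsProbabilityMeasure μ] (ξ : Fin d → ℝ) :
    ‖E μ ξ‖ = 1 := by
  have h := inner_self_eq_norm_sq_to_K (𝕜 := ℂ) (E μ ξ)
  rw [inner_E_self] at h
  have h2 : ((‖E μ ξ‖ ^ 2 : ℝ) : ℂ) = ((1 : ℝ) : ℂ) := by
    push_cast
    exact h.symm
  have h3 : ‖E μ ξ‖ ^ 2 = 1 := Complex.ofReal_injective h2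
  have h4 := norm_nonneg (E μ ξ)
  nlinarith [sq_nonneg (‖E μ ξ‖ - 1)]

/-- a real integrable function with vanishing transform vanishes -/
theorem real_zero (h : T_EXT) (μ : Measure (Fin d → ℝ)) [IsProbabilityMeasure μ]
    (f : (Fin d → ℝ) → ℝ) (hf : Integrable f μ)
    (h0 : ∀ ξ, ∫ x, (f x : ℂ) * ex ξ x ∂μ = 0) : f =ᵐ[μ] 0 := by
  have hp : AEMeasurable (fun x => ENNReal.ofReal (f x)) μ := hf.aemeasurable.ennreal_ofReal
  have hn : AEMeasurable (fun x => ENNReal.ofReal (-f x)) μ := hf.neg.aemeasurable.ennreal_ofReal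
  have hpf : ∫⁻ x, ENNReal.ofReal (f x) ∂μ ≠ ⊤ := by
    have := hf.lintegral_lt_top
    exact this.ne
  have hnf : ∫⁻ x, ENNReal.ofReal (-f x) ∂μ ≠ ⊤ := by
    have := hf.neg.lintegral_lt_top
    exact this.ne
  haveI : IsFiniteMeasure (μ.withDensity fun x => ENNReal.ofReal (f x)) :=
    isFiniteMeasure_withDensity hpf
  haveI : IsFiniteMeasure (μ.withDensity fun x => ENNReal.ofReal (-f x)) :=
    isFiniteMeasure_withDensity hnf
  have heq : (μ.withDensity fun x => ENNReal.ofReal (f x)) =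
      μ.withDensity fun x => ENNReal.ofReal (-f x) := by
    apply h d _ _ inferInstance inferInstance
    intro ξ
    unfold mhat
    rw [integral_withDensity_eq_integral_toReal_smul₀ hp
        (Filter.Eventually.of_forall fun x => ENNReal.ofReal_lt_top),
      integral_withDensity_eq_integral_toReal_smul₀ hn
        (Filter.Eventually.of_forall fun x => ENNReal.ofReal_lt_top)]
    have hi : ∀ g : (Fin d → ℝ) → ℝ, Integrable g μ →
        Integrable (fun x => (g x : ℂ) * ex ξ x) μ := by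
      intro g hg
      refine (hg.ofReal (𝕜 := ℂ)).mul_bdd (continuous_ex ξ).aestronglyMeasurable
        (Filter.Eventually.of_forall fun x => (norm_ex ξ x).le)
    have hip := hi _ (hf.real_toNNReal)
    have hin := hi _ (hf.neg.real_toNNReal)
    have h1 : ∫ x, (ENNReal.ofReal (f x)).toReal • ee (∑ i, ξ i * x i) ∂μ -
        ∫ x, (ENNReal.ofReal (-f x)).toReal • ee (∑ i, ξ i * x i) ∂μ = 0 := by
      rw [← h0 ξ, ← integral_sub]
      · apply integral_congr_ae
        filter_upwards with x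
        have h2 : (ENNReal.ofReal (f x)).toReal - (ENNReal.ofReal (-f x)).toReal = f x := by
          rcases le_total 0 (f x) with hx | hx
          · rw [ENNReal.toReal_ofReal hx, ENNReal.ofReal_of_nonpos (by linarith)]
            simp
          · rw [ENNReal.toReal_ofReal (by linarith : 0 ≤ -f x), ENNReal.ofReal_of_nonpos hx]
            simp
        rw [← sub_smul, h2, Complex.real_smul]
        rfl
      · have h3 : (fun x => (ENNReal.ofReal (f x)).toReal • ee (∑ i, ξ i * x i)) =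
            fun x => (((f x).toNNReal : ℝ) : ℂ) * ex ξ x := by
          funext x
          rw [Complex.real_smul]
          rfl
        rw [h3]
        exact hip
      · have h3 : (fun x => (ENNReal.ofReal (-f x)).toReal • ee (∑ i, ξ i * x i)) =
            fun x => (((-f x).toNNReal : ℝ) : ℂ) * ex ξ x := by
          funext x
          rw [Complex.real_smul]
          rfl
        rw [h3]
        exact hin
    exact sub_eq_zero.1 h1
  have hae := (withDensity_eq_iff hp hn hpf).1 heq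
  filter_upwards [hae] with x hx
  rcases le_total 0 (f x) with h1 | h1
  · rw [ENNReal.ofReal_of_nonpos (by linarith : -f x ≤ 0), ENNReal.ofReal_eq_zero] at hx
    exact le_antisymm hx h1
  · rw [ENNReal.ofReal_of_nonpos h1] at hx
    have h2 := ENNReal.ofReal_eq_zero.1 hx.symm
    have h3 : (0 : ℝ) ≤ f x := by linarith
    exact le_antisymm h1 h3

/-- the exponentials are total in `L²` -/
theorem total (h : T_EXT) (μ : Measure (Fin d → ℝ)) [IsProbabilityMeasure μ] (g : Lp ℂ 2 μ)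
    (hg : ∀ ξ, inner ℂ (E μ ξ) g = 0) : g = 0 := by
  have hgi : Integrable g μ := (Lp.memLp g).integrable (by norm_num)
  have hint : ∀ ξ, ∫ x, (g : (Fin d → ℝ) → ℂ) x * ex ξ x ∂μ = 0 := by
    intro ξ
    have h1 := hg (-ξ)
    rw [L2.inner_def] at h1
    rw [← h1]
    apply integral_congr_ae
    filter_upwards [(memLp_ex μ (-ξ)).coeFn_toLp] with x h2
    unfold E
    rw [h2, RCLike.inner_apply, conj_ex, neg_neg]
  have hintc : ∀ ξ, ∫ x, (starRingEnd ℂ) ((g : (Fin d → ℝ) → ℂ) x) * ex ξ x ∂μ = 0 := by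
    intro ξ
    have h1 := hint (-ξ)
    have h2 : ∫ x, (starRingEnd ℂ) ((g : (Fin d → ℝ) → ℂ) x * ex (-ξ) x) ∂μ = 0 := by
      rw [integral_conj, h1, map_zero]
    rw [← h2]
    congr 1
    funext x
    rw [map_mul, conj_ex, neg_neg]
  have hi : ∀ (ξ : Fin d → ℝ) (k : (Fin d → ℝ) → ℂ), Integrable k μ →
      Integrable (fun x => k x * ex ξ x) μ := by
    intro ξ k hk
    exact hk.mul_bdd (continuous_ex ξ).aestronglyMeasurable
      (Filter.Eventually.of_forall fun x => (norm_ex ξ x).le)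
  have hconj : Integrable (fun x => (starRingEnd ℂ) ((g : (Fin d → ℝ) → ℂ) x)) μ := by
    refine ⟨(Complex.continuous_conj.comp_aestronglyMeasurable hgi.1), ?_⟩
    have := hgi.2
    unfold HasFiniteIntegral at this ⊢
    simpa using this
  have hre : (fun x => ((g : (Fin d → ℝ) → ℂ) x).re) =ᵐ[μ] 0 := by
    refine real_zero h μ (fun x => ((g : (Fin d → ℝ) → ℂ) x).re) hgi.re ?_
    intro ξ
    have h1 : ∀ x, ((((g : (Fin d → ℝ) → ℂ) x).re : ℝ) : ℂ) * ex ξ x =
        (1 / 2 : ℂ) * ((g : (Fin d → ℝ) → ℂ) x * ex ξ x +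
          (starRingEnd ℂ) ((g : (Fin d → ℝ) → ℂ) x) * ex ξ x) := by
      intro x
      have := Complex.add_conj ((g : (Fin d → ℝ) → ℂ) x)
      rw [← add_mul, this]
      push_cast
      ring
    rw [integral_congr_ae (Filter.Eventually.of_forall h1), integral_const_mul, integral_add (hi ξ _ hgi) (hi ξ _ hconj), hint ξ, hintc ξ]
    simp
  have him : (fun x => ((g : (Fin d → ℝ) → ℂ) x).im) =ᵐ[μ] 0 := by
    refine real_zero h μ (fun x => ((g : (Fin d → ℝ) → ℂ) x).im) hgi.im ?_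
    intro ξ
    have h1 : ∀ x, ((((g : (Fin d → ℝ) → ℂ) x).im : ℝ) : ℂ) * ex ξ x =
        (1 / (2 * Complex.I) : ℂ) * ((g : (Fin d → ℝ) → ℂ) x * ex ξ x -
          (starRingEnd ℂ) ((g : (Fin d → ℝ) → ℂ) x) * ex ξ x) := by
      intro x
      have := Complex.sub_conj ((g : (Fin d → ℝ) → ℂ) x)
      rw [← sub_mul, this]
      push_cast
      field_simp
    rw [integral_congr_ae (Filter.Eventually.of_forall h1), integral_const_mul, integral_sub (hi ξ _ hgi) (hi ξ _ hconj), hint ξ, hintc ξ]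
    simp
  apply Lp.ext
  filter_upwards [hre, him, Lp.coeFn_zero ℂ 2 μ] with x h1 h2 h3
  rw [h3]
  exact Complex.ext h1 h2

end HB

theorem p_HB (h : T_EXT) : T_HB := by
  intro d μ hμ Λ hΛ
  have hnn : ∀ ξ (l : Λ), 0 ≤ ‖mhat μ (ξ + l)‖ ^ 2 := fun ξ l => by positivity
  have horth : ∀ l l' : Λ, l ≠ l' → mhat μ ((l' : Fin d → ℝ) - l) = 0 := by
    intro l l' hll
    have h1 := hΛ (-(l : Fin d → ℝ))
    have h2 := sum_le_hasSum ({l, l'} : Finset Λ) (fun i _ => hnn _ i) h1
    rw [Finset.sum_pair hll] at h2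
    have h3 : mhat μ (-(l : Fin d → ℝ) + l) = 1 := by
      rw [neg_add_cancel]
      exact HB.mhat_zero μ
    rw [h3] at h2
    have h4 : ‖mhat μ (-(l : Fin d → ℝ) + l')‖ ^ 2 ≤ 0 := by
      simp only [norm_one, one_pow] at h2
      linarith
    have h5 : ‖mhat μ (-(l : Fin d → ℝ) + l')‖ = 0 := by
      have := norm_nonneg (mhat μ (-(l : Fin d → ℝ) + l'))
      nlinarith
    have h6 := norm_eq_zero.1 h5
    rw [← h6]
    congr 1
    abel
  have hon : Orthonormal ℂ (fun l : Λ => HB.E μ (l : Fin d → ℝ)) := by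
    refine ⟨fun l => HB.norm_E μ _, fun l l' hll => ?_⟩
    show inner ℂ (HB.E μ _) (HB.E μ _) = 0
    rw [HB.inner_E]
    exact horth l l' hll
  have hspan : (Submodule.span ℂ (Set.range fun l : Λ => HB.E μ (l : Fin d → ℝ)))ᗮ = ⊥ := by
    rw [Submodule.eq_bot_iff]
    intro g hg
    have hgl : ∀ l : Λ, inner ℂ (HB.E μ (l : Fin d → ℝ)) g = 0 := fun l =>
      (Submodule.mem_orthogonal _ g).1 hg _ (Submodule.subset_span ⟨l, rfl⟩)
    apply HB.total h μ g
    intro ξ
    -- the partial sums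
    set c : Λ → ℂ := fun l => inner ℂ (HB.E μ (l : Fin d → ℝ)) (HB.E μ ξ) with hc
    have hcn : ∀ l, ‖c l‖ ^ 2 = ‖mhat μ (-ξ + l)‖ ^ 2 := by
      intro l
      rw [hc]
      simp only
      rw [← norm_inner_symm, HB.inner_E]
      congr 3
      abel
    have hsum : HasSum (fun l => ‖c l‖ ^ 2) 1 := by
      have := hΛ (-ξ)
      simp only [hcn]
      exact this
    have hF : ∀ F : Finset Λ, ‖inner ℂ (HB.E μ ξ) g‖ ^ 2 ≤ (1 - ∑ l ∈ F, ‖c l‖ ^ 2) * ‖g‖ ^ 2 := by
      intro F
      set v := HB.E μ ξ - ∑ l ∈ F, c l • HB.E μ (l : Fin d → ℝ) with hv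
      have h1 : inner ℂ v g = inner ℂ (HB.E μ ξ) g := by
        rw [hv, inner_sub_left, sum_inner]
        simp only [inner_smul_left, hgl, mul_zero, Finset.sum_const_zero, sub_zero]
      have h2 : ‖v‖ ^ 2 = 1 - ∑ l ∈ F, ‖c l‖ ^ 2 := by
        have h3 : (inner ℂ v v : ℂ) = ((1 - ∑ l ∈ F, ‖c l‖ ^ 2 : ℝ) : ℂ) := by
          have e1 : inner ℂ (∑ l ∈ F, c l • HB.E μ (l : Fin d → ℝ))
              (∑ l ∈ F, c l • HB.E μ (l : Fin d → ℝ)) = ∑ l ∈ F, (starRingEnd ℂ) (c l) * c l :=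
            hon.inner_sum c c F
          have e2 : inner ℂ (∑ l ∈ F, c l • HB.E μ (l : Fin d → ℝ)) (HB.E μ ξ) =
              ∑ l ∈ F, (starRingEnd ℂ) (c l) * c l := by
            rw [sum_inner]
            simp only [inner_smul_left]
            rfl
          have e3 : inner ℂ (HB.E μ ξ) (∑ l ∈ F, c l • HB.E μ (l : Fin d → ℝ)) =
              ∑ l ∈ F, (starRingEnd ℂ) (c l) * c l := by
            rw [inner_sum]
            refine Finset.sum_congr rfl fun l _ => ?_
            rw [inner_smul_right, mul_comm]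
            congr 1
            rw [hc]
            simp only
            rw [inner_conj_symm]
          rw [hv, inner_sub_left, inner_sub_right, inner_sub_right, e1, e2, e3,
            HB.inner_E_self]
          push_cast
          have e4 : ∀ l, (starRingEnd ℂ) (c l) * c l = ((‖c l‖ : ℝ) : ℂ) ^ 2 := by
            intro l
            rw [mul_comm, Complex.mul_conj, Complex.normSq_eq_norm_sq]
            push_cast
            rfl
          simp only [e4]
          ring
        have h4 := inner_self_eq_norm_sq_to_K (𝕜 := ℂ) v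
        rw [h3] at h4
        have h5 : ((‖v‖ ^ 2 : ℝ) : ℂ) = ((1 - ∑ l ∈ F, ‖c l‖ ^ 2 : ℝ) : ℂ) := by
          rw [h4]
          push_cast
          rfl
        exact Complex.ofReal_injective h5
      rw [← h1, ← h2]
      have h6 := norm_inner_le_norm (𝕜 := ℂ) v g
      have h7 := norm_nonneg (inner ℂ v g)
      calc ‖inner ℂ v g‖ ^ 2 ≤ (‖v‖ * ‖g‖) ^ 2 := pow_le_pow_left₀ h7 h6 2
        _ = ‖v‖ ^ 2 * ‖g‖ ^ 2 := by ring
    have hlim : Filter.Tendsto (fun F : Finset Λ => (1 - ∑ l ∈ F, ‖c l‖ ^ 2) * ‖g‖ ^ 2)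
        Filter.atTop (nhds ((1 - 1) * ‖g‖ ^ 2)) :=
      (tendsto_const_nhds.sub hsum).mul_const _
    have h8 : ‖inner ℂ (HB.E μ ξ) g‖ ^ 2 ≤ (1 - 1) * ‖g‖ ^ 2 :=
      ge_of_tendsto' hlim hF
    have h9 : ‖inner ℂ (HB.E μ ξ) g‖ = 0 := by
      have := norm_nonneg (inner ℂ (HB.E μ ξ) g)
      nlinarith
    exact norm_eq_zero.1 h9
  refine ⟨HilbertBasis.mkOfOrthogonalEqBot hon hspan, fun l => ?_⟩
  rw [HilbertBasis.coe_mkOfOrthogonalEqBot]
  exact (HB.memLp_ex μ l).coeFn_toLp

end SpM
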