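import Pool.Agent.SpM.Targets

/-!
# SpM J3: the local lemma `T_LOC`

Zeros of `ft (A N)` near the points `(m/3, 0)` with `m` not divisible by `3`.
-/

namespace SpM

namespace Loc72

open Finset

noncomputable section

/-! ### The coefficients -/

/-- The residue part of a point. -/
def xp (p : Idx) (i : Fin 4) : ℤ := (((p.1 i : Fin 6) : ℕ) : ℤ)

theorem xp_nonneg (p : Idx) (i : Fin 4) : 0 ≤ xp p i := by
  unfold xp; positivity

theorem xp_le (p : Idx) (i : Fin 4) : xp p i ≤ 5 := by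
  unfold xp
  have := (p.1 i).isLt
  omega

theorem lift0_bd (p : Idx) : 0 ≤ lift0 p ∧ lift0 p ≤ 1 := by
  unfold lift0; split_ifs <;> norm_num

theorem lift1_bd (p : Idx) : 0 ≤ lift1 p ∧ lift1 p ≤ 27 := by
  unfold lift1; split_ifs <;> norm_num

theorem pt_0 (N : ℕ) (p : Idx) : pt N p 0 = xp p 0 + 6 * N * lift0 p := rfl
theorem pt_1 (N : ℕ) (p : Idx) : pt N p 1 = xp p 1 + 6 * N * lift1 p := rfl
theorem pt_2 (N : ℕ) (p : Idx) : pt N p 2 = xp p 2 := rfl
theorem pt_3 (N : ℕ) (p : Idx) : pt N p 3 = xp p 3 := rfl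
theorem pt_4 (N : ℕ) (p : Idx) : pt N p 4 = ((p.2 : ℕ) : ℤ) := rfl

theorem pt_inj (N : ℕ) : Function.Injective (pt N) := by
  intro p q h
  have h0 : pt N p 0 = pt N q 0 := by rw [h]
  have h1 : pt N p 1 = pt N q 1 := by rw [h]
  have h2 : pt N p 2 = pt N q 2 := by rw [h]
  have h3 : pt N p 3 = pt N q 3 := by rw [h]
  have h4 : pt N p 4 = pt N q 4 := by rw [h]
  rw [pt_0, pt_0] at h0
  rw [pt_1, pt_1] at h1
  rw [pt_2, pt_2] at h2
  rw [pt_3, pt_3] at h3
  rw [pt_4, pt_4] at h4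
  have e0 : xp p 0 = xp q 0 := by
    have : xp p 0 - xp q 0 = 6 * (N * (lift0 q - lift0 p)) := by linarith
    have a := xp_nonneg p 0
    have b := xp_nonneg q 0
    have c := xp_le p 0
    have d := xp_le q 0
    omega
  have e1 : xp p 1 = xp q 1 := by
    have : xp p 1 - xp q 1 = 6 * (N * (lift1 q - lift1 p)) := by linarith
    have a := xp_nonneg p 1
    have b := xp_nonneg q 1
    have c := xp_le p 1
    have d := xp_le q 1
    omega
  have key : ∀ i, xp p i = xp q i := by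
    intro i
    fin_cases i
    · exact e0
    · exact e1
    · exact h2
    · exact h3
  refine Prod.ext ?_ ?_
  · funext i
    have := key i
    unfold xp at this
    exact Fin.ext (by exact_mod_cast this)
  · exact Fin.ext (by exact_mod_cast h4)

/-- The integer `m · x`. -/
def mx (m : Fin 4 → ℤ) (p : Idx) : ℤ := ∑ i, m i * xp p i

/-- The coefficient `w^{m·x}`. -/
def cf (m : Fin 4 → ℤ) (p : Idx) : ℂ := ee ((mx m p : ℝ) / 3)

theorem norm_cf (m : Fin 4 → ℤ) (p : Idx) : ‖cf m p‖ = 1 := norm_ee _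

theorem ee_pt_third (N : ℕ) (m : Fin 4 → ℤ) (p : Idx) :
    ee (dot (pt N p) (third m)) = cf m p := by
  have h : dot (pt N p) (third m)
      = (mx m p : ℝ) / 3 + ((2 * N * (lift0 p * m 0 + lift1 p * m 1) : ℤ) : ℝ) := by
    unfold dot mx
    rw [Fin.sum_univ_five, Fin.sum_univ_four, pt_0, pt_1, pt_2, pt_3, pt_4]
    simp only [third, Matrix.cons_val_zero, Matrix.cons_val_one, Matrix.cons_val]
    push_cast
    ring
  rw [h, ee_add_int]
  rfl

theorem ft_A (N : ℕ) (x : V5) : ft (A N) x = ∑ p ∈ IA, ee (dot (pt N p) x) := by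
  unfold ft A
  rw [Finset.sum_image]
  intro p _ q _ h
  exact pt_inj N h

theorem ft_A_third (N : ℕ) (m : Fin 4 → ℤ) (v : V5) :
    ft (A N) (third m + v) = ∑ p ∈ IA, cf m p * ee (dot (pt N p) v) := by
  rw [ft_A]
  refine Finset.sum_congr rfl fun p _ => ?_
  rw [dot_add, ee_add, ee_pt_third]

/-! ### Taylor expansion -/

theorem ee_taylor (t : ℝ) (ht : |2 * Real.pi * t| ≤ 1) :
    ‖ee t - 1 - ((2 * Real.pi * t : ℝ) : ℂ) * Complex.I‖ ≤ (2 * Real.pi * t) ^ 2 := by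
  have h := Complex.norm_exp_sub_one_sub_id_le (x := ((2 * Real.pi * t : ℝ) : ℂ) * Complex.I)
    (by rw [norm_mul, Complex.norm_I, mul_one, Complex.norm_real]; exact ht)
  refine h.trans ?_
  rw [norm_mul, Complex.norm_I, mul_one, Complex.norm_real, Real.norm_eq_abs, sq_abs]

theorem pt_abs (N : ℕ) (p : Idx) (i : Fin 5) : |(pt N p i : ℝ)| ≤ 162 * N + 20 := by
  have key : |pt N p i| ≤ 162 * N + 20 := by
    have hN : (0 : ℤ) ≤ N := by positivity
    have l0 := lift0_bd p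
    have l1 := lift1_bd p
    have a0 : (0 : ℤ) ≤ N * lift0 p := mul_nonneg hN l0.1
    have a1 : (0 : ℤ) ≤ N * lift1 p := mul_nonneg hN l1.1
    have b0 : (N : ℤ) * lift0 p ≤ N * 1 := mul_le_mul_of_nonneg_left l0.2 hN
    have b1 : (N : ℤ) * lift1 p ≤ N * 27 := mul_le_mul_of_nonneg_left l1.2 hN
    have c0 := xp_nonneg p 0
    have c1 := xp_nonneg p 1
    have c2 := xp_nonneg p 2
    have c3 := xp_nonneg p 3
    have d0 := xp_le p 0
    have d1 := xp_le p 1
    have d2 := xp_le p 2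
    have d3 := xp_le p 3
    have e := p.2.isLt
    fin_cases i
    · show |pt N p 0| ≤ _
      rw [pt_0, abs_le, mul_assoc]
      constructor <;> omega
    · show |pt N p 1| ≤ _
      rw [pt_1, abs_le, mul_assoc]
      constructor <;> omega
    · show |pt N p 2| ≤ _
      rw [pt_2, abs_le]
      constructor <;> omega
    · show |pt N p 3| ≤ _
      rw [pt_3, abs_le]
      constructor <;> omega
    · show |pt N p 4| ≤ _
      rw [pt_4, abs_le]
      constructor <;> omega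
  exact_mod_cast key

theorem dot_abs (N : ℕ) (p : Idx) (v : V5) :
    |dot (pt N p) v| ≤ (162 * N + 20) * ∑ i, |v i| := by
  unfold dot
  refine (Finset.abs_sum_le_sum_abs _ _).trans ?_
  rw [Finset.mul_sum]
  refine Finset.sum_le_sum fun i _ => ?_
  rw [abs_mul]
  exact mul_le_mul_of_nonneg_right (pt_abs N p i) (abs_nonneg _)

/-- The gradient (up to `2πi`). -/
def gr (N : ℕ) (m : Fin 4 → ℤ) (i : Fin 5) : ℂ := ∑ p ∈ IA, cf m p * (pt N p i : ℂ)

theorem sum_gr (N : ℕ) (m : Fin 4 → ℤ) (v : V5) :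
    ∑ i, gr N m i * (v i : ℂ) = ∑ p ∈ IA, cf m p * ((dot (pt N p) v : ℝ) : ℂ) := by
  unfold gr dot
  simp_rw [Finset.sum_mul]
  rw [Finset.sum_comm]
  refine Finset.sum_congr rfl fun p _ => ?_
  push_cast
  rw [Finset.mul_sum]
  refine Finset.sum_congr rfl fun i _ => ?_
  ring

theorem taylor (N : ℕ) (m : Fin 4 → ℤ) (v : V5)
    (hv : 2 * Real.pi * ((162 * N + 20) * ∑ i, |v i|) ≤ 1) :
    ‖ft (A N) (third m + v) - ft (A N) (third m)
        - (2 * Real.pi * Complex.I) * ∑ i, gr N m i * (v i : ℂ)‖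
      ≤ (IA.card : ℝ) * (2 * Real.pi * ((162 * N + 20) * ∑ i, |v i|)) ^ 2 := by
  have h0 : ft (A N) (third m) = ∑ p ∈ IA, cf m p := by
    rw [ft_A]
    refine Finset.sum_congr rfl fun p _ => ?_
    rw [ee_pt_third]
  rw [ft_A_third, h0, sum_gr, Finset.mul_sum, ← Finset.sum_sub_distrib, ← Finset.sum_sub_distrib]
  refine (norm_sum_le _ _).trans ?_
  rw [← nsmul_eq_mul]
  refine Finset.sum_le_card_nsmul _ _ _ fun p _ => ?_
  have e : cf m p * ee (dot (pt N p) v) - cf m p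
      - 2 * Real.pi * Complex.I * (cf m p * ((dot (pt N p) v : ℝ) : ℂ))
      = cf m p * (ee (dot (pt N p) v) - 1
        - ((2 * Real.pi * (dot (pt N p) v) : ℝ) : ℂ) * Complex.I) := by
    push_cast
    ring
  rw [e, norm_mul, norm_cf, one_mul]
  have hd := dot_abs N p v
  have hpi := Real.pi_pos
  have hle : |2 * Real.pi * dot (pt N p) v| ≤ 2 * Real.pi * ((162 * N + 20) * ∑ i, |v i|) := by
    rw [abs_mul, abs_of_pos (by positivity : (0 : ℝ) < 2 * Real.pi)]
    exact mul_le_mul_of_nonneg_left hd (by positivity)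
  refine (ee_taylor _ (hle.trans hv)).trans ?_
  rw [← sq_abs]
  exact pow_le_pow_left₀ (abs_nonneg _) hle 2

/-! ### The abstract local lemma -/

theorem local_lemma (L : Fin 5 → ℂ) (H : ℝ) (hH : 0 ≤ H)
    (hκ : ((starRingEnd ℂ) (L 0) * L 1).im ≠ 0) :
    ∃ C δ : ℝ, 0 < C ∧ 0 < δ ∧ ∀ v : V5, (∀ i, |v i| ≤ δ) →
      ‖∑ i, L i * (v i : ℂ)‖ ≤ H * (∑ i, |v i|) ^ 2 →
      |v 0| ≤ C * (|v 2| + |v 3| + |v 4|) ∧ |v 1| ≤ C * (|v 2| + |v 3| + |v 4|) := by
  set κ : ℝ := |((starRingEnd ℂ) (L 0) * L 1).im| with hκd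
  have hκp : 0 < κ := abs_pos.mpr hκ
  set G : ℝ := ‖L 2‖ + ‖L 3‖ + ‖L 4‖ with hG
  set G' : ℝ := ‖L 0‖ + ‖L 1‖ with hG'
  have hG0 : 0 ≤ G := by positivity
  have hG'0 : 0 ≤ G' := by positivity
  set δ : ℝ := κ / (10 * (G' * H + 1)) with hδ
  have hδp : 0 < δ := by positivity
  have hδ2 : 5 * δ * (G' * H) ≤ κ / 2 := by
    have : 5 * δ * (G' * H + 1) = κ / 2 := by
      rw [hδ]; field_simp; norm_num
    have h2 : 0 ≤ 5 * δ := by positivity
    nlinarith
  refine ⟨2 * (G' * G) / κ + 1, δ, by positivity, hδp, ?_⟩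
  intro v hv hF
  set s : ℝ := |v 0| + |v 1| with hs
  set q : ℝ := |v 2| + |v 3| + |v 4| with hq
  have hs0 : 0 ≤ s := by positivity
  have hq0 : 0 ≤ q := by positivity
  have hsum : ∑ i, |v i| = s + q := by
    rw [Fin.sum_univ_five, hs, hq]; ring
  set y : ℂ := L 0 * (v 0 : ℂ) + L 1 * (v 1 : ℂ) with hy
  have hy1 : ‖y‖ ≤ G * q + H * (s + q) ^ 2 := by
    have e : y = (∑ i, L i * (v i : ℂ)) - (L 2 * (v 2 : ℂ) + L 3 * (v 3 : ℂ) + L 4 * (v 4 : ℂ)) := by
      rw [Fin.sum_univ_five, hy]; ring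
    rw [e]
    refine (norm_sub_le _ _).trans ?_
    rw [hsum] at hF
    have h3 : ‖L 2 * (v 2 : ℂ) + L 3 * (v 3 : ℂ) + L 4 * (v 4 : ℂ)‖ ≤ G * q := by
      refine (norm_add_le _ _).trans ?_
      refine (add_le_add_left (norm_add_le _ _) _).trans ?_
      rw [norm_mul, norm_mul, norm_mul, Complex.norm_real, Complex.norm_real, Complex.norm_real,
        Real.norm_eq_abs, Real.norm_eq_abs, Real.norm_eq_abs, hG, hq]
      have := norm_nonneg (L 2)
      have := norm_nonneg (L 3)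
      have := norm_nonneg (L 4)
      have := abs_nonneg (v 2)
      have := abs_nonneg (v 3)
      have := abs_nonneg (v 4)
      have e : (‖L 2‖ + ‖L 3‖ + ‖L 4‖) * (|v 2| + |v 3| + |v 4|)
        = ‖L 2‖ * |v 2| + ‖L 3‖ * |v 3| + ‖L 4‖ * |v 4| + (‖L 2‖ * |v 3| + ‖L 2‖ * |v 4|
          + ‖L 3‖ * |v 2| + ‖L 3‖ * |v 4| + ‖L 4‖ * |v 2| + ‖L 4‖ * |v 3|) := by ring
      rw [e]
      have : 0 ≤ ‖L 2‖ * |v 3| + ‖L 2‖ * |v 4|
          + ‖L 3‖ * |v 2| + ‖L 3‖ * |v 4| + ‖L 4‖ * |v 2| + ‖L 4‖ * |v 3| := by positivity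
      linarith
    linarith
  -- the two coordinates
  have i1 : ((starRingEnd ℂ) (L 0) * y).im = v 1 * ((starRingEnd ℂ) (L 0) * L 1).im := by
    rw [hy]
    simp only [Complex.mul_im, Complex.add_im, Complex.add_re, Complex.mul_re, Complex.conj_re,
      Complex.conj_im, Complex.ofReal_re, Complex.ofReal_im]
    ring
  have i0 : ((starRingEnd ℂ) (L 1) * y).im = - (v 0 * ((starRingEnd ℂ) (L 0) * L 1).im) := by
    rw [hy]
    simp only [Complex.mul_im, Complex.add_im, Complex.add_re, Complex.mul_re, Complex.conj_re,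
      Complex.conj_im, Complex.ofReal_re, Complex.ofReal_im]
    ring
  have j1 : |v 1| * κ ≤ ‖L 0‖ * ‖y‖ := by
    have := Complex.abs_im_le_norm ((starRingEnd ℂ) (L 0) * y)
    rw [i1, abs_mul, norm_mul, Complex.norm_conj] at this
    exact this
  have j0 : |v 0| * κ ≤ ‖L 1‖ * ‖y‖ := by
    have := Complex.abs_im_le_norm ((starRingEnd ℂ) (L 1) * y)
    rw [i0, abs_neg, abs_mul, norm_mul, Complex.norm_conj] at this
    exact this
  have k1 : s * κ ≤ G' * ‖y‖ := by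
    rw [hs, hG']
    linarith
  have k2 : s * κ ≤ G' * (G * q + H * (s + q) ^ 2) :=
    k1.trans (mul_le_mul_of_nonneg_left hy1 hG'0)
  have k3 : s + q ≤ 5 * δ := by
    rw [hs, hq]
    linarith [hv 0, hv 1, hv 2, hv 3, hv 4]
  have k4 : G' * (H * (s + q) ^ 2) ≤ κ / 2 * (s + q) := by
    have hsq : 0 ≤ s + q := by positivity
    have h1 : (s + q) ^ 2 ≤ 5 * δ * (s + q) := by nlinarith
    have h2 : 0 ≤ G' * H := by positivity
    calc G' * (H * (s + q) ^ 2) = (G' * H) * (s + q) ^ 2 := by ring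
      _ ≤ (G' * H) * (5 * δ * (s + q)) := mul_le_mul_of_nonneg_left h1 h2
      _ = (5 * δ * (G' * H)) * (s + q) := by ring
      _ ≤ κ / 2 * (s + q) := mul_le_mul_of_nonneg_right hδ2 hsq
  have k5 : κ / 2 * s ≤ (G' * G + κ / 2) * q := by
    have h := k2
    rw [mul_add] at h
    linarith
  have k6 : s ≤ (2 * (G' * G) / κ + 1) * q := by
    have e : (2 * (G' * G) / κ + 1) * q = (G' * G + κ / 2) * q / (κ / 2) := by
      field_simp
    rw [e, le_div_iff₀ (by positivity)]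
    linarith
  constructor
  · have : |v 0| ≤ s := by rw [hs]; linarith [abs_nonneg (v 1)]
    linarith
  · have : |v 1| ≤ s := by rw [hs]; linarith [abs_nonneg (v 0)]
    linarith

/-! ### The gradient -/

/-- The point with a lifted first coordinate. -/
def a0 : Idx := (![0,0,0,0], 0)
/-- First point with a lifted second coordinate. -/
def a1 : Idx := (![2,0,0,0], 0)
/-- Second point with a lifted second coordinate. -/
def a2 : Idx := (![0,2,0,2], 0)
/-- Third point with a lifted second coordinate. -/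
def a3 : Idx := (![0,0,2,2], 0)
/-- Fourth point with a lifted second coordinate. -/
def a4 : Idx := (![0,2,2,0], 1)

theorem a0_mem : a0 ∈ IA := by
  simp only [IA, Finset.mem_filter, Finset.mem_univ, true_and]; decide
theorem a1_mem : a1 ∈ IA := by
  simp only [IA, Finset.mem_filter, Finset.mem_univ, true_and]; decide
theorem a2_mem : a2 ∈ IA := by
  simp only [IA, Finset.mem_filter, Finset.mem_univ, true_and]; decide
theorem a3_mem : a3 ∈ IA := by
  simp only [IA, Finset.mem_filter, Finset.mem_univ, true_and]; decide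
theorem a4_mem : a4 ∈ IA := by
  simp only [IA, Finset.mem_filter, Finset.mem_univ, true_and]; decide

theorem lift0_eq (p : Idx) : lift0 p = if p = a0 then 1 else 0 := rfl

theorem lift1_eq (p : Idx) : lift1 p = (if p = a1 then 1 else 0) + (if p = a2 then 3 else 0)
    + (if p = a3 then 9 else 0) + (if p = a4 then 27 else 0) := by
  have h12 : a1 ≠ a2 := by decide
  have h13 : a1 ≠ a3 := by decide
  have h14 : a1 ≠ a4 := by decide
  have h23 : a2 ≠ a3 := by decide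
  have h24 : a2 ≠ a4 := by decide
  have h34 : a3 ≠ a4 := by decide
  have e : lift1 p = if p = a1 then 1 else if p = a2 then 3 else
    if p = a3 then 9 else if p = a4 then 27 else 0 := rfl
  rw [e]
  by_cases p1 : p = a1
  · subst p1; simp [h12, h13, h14]
  by_cases p2 : p = a2
  · subst p2; simp [h12.symm, h23, h24]
  by_cases p3 : p = a3
  · subst p3; simp [h13.symm, h23.symm, h34]
  simp [p1, p2, p3]

attribute [local irreducible] IA

theorem sum_lift0 (m : Fin 4 → ℤ) : ∑ p ∈ IA, cf m p * (lift0 p : ℂ) = cf m a0 := by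
  simp only [lift0_eq]
  rw [Finset.sum_eq_single a0]
  · simp
  · intro b _ hb; simp [hb]
  · intro h; exact absurd a0_mem h

theorem sum_one (m : Fin 4 → ℤ) (a : Idx) (ha : a ∈ IA) (c : ℤ) :
    ∑ p ∈ IA, cf m p * (((if p = a then c else 0 : ℤ)) : ℂ) = c * cf m a := by
  rw [Finset.sum_eq_single a]
  · simp [mul_comm]
  · intro b _ hb; simp [hb]
  · intro h; exact absurd ha h

theorem sum_lift1 (m : Fin 4 → ℤ) : ∑ p ∈ IA, cf m p * (lift1 p : ℂ)
    = cf m a1 + 3 * cf m a2 + 9 * cf m a3 + 27 * cf m a4 := by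
  simp only [lift1_eq]
  have h1 := sum_one m a1 a1_mem 1
  have h2 := sum_one m a2 a2_mem 3
  have h3 := sum_one m a3 a3_mem 9
  have h4 := sum_one m a4 a4_mem 27
  have e : ∀ p : Idx, cf m p * (((if p = a1 then 1 else 0) + (if p = a2 then 3 else 0)
    + (if p = a3 then 9 else 0) + (if p = a4 then 27 else 0) : ℤ) : ℂ)
    = cf m p * (((if p = a1 then 1 else 0 : ℤ)) : ℂ) + cf m p * (((if p = a2 then 3 else 0 : ℤ)) : ℂ)
      + cf m p * (((if p = a3 then 9 else 0 : ℤ)) : ℂ)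
      + cf m p * (((if p = a4 then 27 else 0 : ℤ)) : ℂ) := by
    intro p
    rw [Int.cast_add, Int.cast_add, Int.cast_add]
    ring
  simp_rw [e]
  rw [Finset.sum_add_distrib, Finset.sum_add_distrib, Finset.sum_add_distrib, h1, h2, h3, h4]
  push_cast
  ring

theorem card_IA_le : IA.card ≤ 19440 := by
  have h : IA.card ≤ (Finset.univ : Finset Idx).card := Finset.card_le_card (Finset.subset_univ _)
  refine h.trans ?_
  rw [Finset.card_univ]
  simp

theorem norm_E_le (m : Fin 4 → ℤ) (i : Fin 4) :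
    ‖∑ p ∈ IA, cf m p * (xp p i : ℂ)‖ ≤ 97200 := by
  refine (norm_sum_le _ _).trans ?_
  have h : ∀ p ∈ IA, ‖cf m p * (xp p i : ℂ)‖ ≤ 5 := by
    intro p _
    rw [norm_mul, norm_cf, one_mul, Complex.norm_intCast, abs_of_nonneg]
    · exact_mod_cast xp_le p i
    · exact_mod_cast xp_nonneg p i
  refine (Finset.sum_le_card_nsmul _ _ _ h).trans ?_
  rw [nsmul_eq_mul]
  have := card_IA_le
  have h2 : (IA.card : ℝ) ≤ 19440 := by exact_mod_cast this
  linarith

theorem gr_0 (N : ℕ) (m : Fin 4 → ℤ) :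
    gr N m 0 = 6 * N + ∑ p ∈ IA, cf m p * (xp p 0 : ℂ) := by
  have hc : cf m a0 = 1 := by
    have : mx m a0 = 0 := by
      unfold mx
      rw [Fin.sum_univ_four]
      simp [xp, a0]
    unfold cf
    rw [this]
    simp [ee_zero]
  have h := sum_lift0 m
  rw [hc] at h
  unfold gr
  simp only [pt_0]
  have e : ∀ p : Idx, cf m p * ((xp p 0 + 6 * N * lift0 p : ℤ) : ℂ)
    = 6 * N * (cf m p * (lift0 p : ℂ)) + cf m p * (xp p 0 : ℂ) := by
    intro p; push_cast; ring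
  simp_rw [e]
  rw [Finset.sum_add_distrib, ← Finset.mul_sum, h, mul_one]

theorem gr_1 (N : ℕ) (m : Fin 4 → ℤ) :
    gr N m 1 = 6 * N * (cf m a1 + 3 * cf m a2 + 9 * cf m a3 + 27 * cf m a4)
      + ∑ p ∈ IA, cf m p * (xp p 1 : ℂ) := by
  have h := sum_lift1 m
  unfold gr
  simp only [pt_1]
  have e : ∀ p : Idx, cf m p * ((xp p 1 + 6 * N * lift1 p : ℤ) : ℂ)
    = 6 * N * (cf m p * (lift1 p : ℂ)) + cf m p * (xp p 1 : ℂ) := by
    intro p; push_cast; ring
  simp_rw [e]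
  rw [Finset.sum_add_distrib, ← Finset.mul_sum, h]

theorem mx_a1 (m : Fin 4 → ℤ) : mx m a1 = 2 * m 0 := by
  unfold mx; rw [Fin.sum_univ_four]; simp [xp, a1]; ring
theorem mx_a2 (m : Fin 4 → ℤ) : mx m a2 = 2 * m 1 + 2 * m 3 := by
  unfold mx; rw [Fin.sum_univ_four]; simp [xp, a2]; ring
theorem mx_a3 (m : Fin 4 → ℤ) : mx m a3 = 2 * m 2 + 2 * m 3 := by
  unfold mx; rw [Fin.sum_univ_four]; simp [xp, a3]; ring
theorem mx_a4 (m : Fin 4 → ℤ) : mx m a4 = 2 * m 1 + 2 * m 2 := by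
  unfold mx; rw [Fin.sum_univ_four]; simp [xp, a4]; ring

theorem ee_third_im (t : ℤ) : ∃ b : ℤ, (b = 0 ∨ b = 1 ∨ b = -1) ∧ (b = 0 → 3 ∣ t) ∧
    (ee ((t : ℝ) / 3)).im = Real.sqrt 3 / 2 * b := by
  have h3 : Real.sin (2 * Real.pi * (1 / 3)) = Real.sqrt 3 / 2 := by
    have : 2 * Real.pi * (1 / 3) = Real.pi - Real.pi / 3 := by ring
    rw [this, Real.sin_pi_sub, Real.sin_pi_div_three]
  have hcase : t % 3 = 0 ∨ t % 3 = 1 ∨ t % 3 = 2 := by omega
  rcases hcase with h | h | h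
  · refine ⟨0, Or.inl rfl, fun _ => by omega, ?_⟩
    obtain ⟨k, hk⟩ : (3 : ℤ) ∣ t := by omega
    have : (t : ℝ) / 3 = (k : ℝ) := by rw [hk]; push_cast; ring
    rw [this, ee_int]
    simp
  · refine ⟨1, Or.inr (Or.inl rfl), fun h => absurd h (by norm_num), ?_⟩
    obtain ⟨k, hk⟩ : ∃ k, t = 3 * k + 1 := ⟨t / 3, by omega⟩
    have : (t : ℝ) / 3 = 1 / 3 + (k : ℝ) := by rw [hk]; push_cast; ring
    rw [this, ee_add_int, ee_im, h3]
    simp
  · refine ⟨-1, Or.inr (Or.inr rfl), fun h => absurd h (by norm_num), ?_⟩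
    obtain ⟨k, hk⟩ : ∃ k, t = 3 * k - 1 := ⟨t / 3 + 1, by omega⟩
    have : (t : ℝ) / 3 = -(1 / 3) + (k : ℝ) := by rw [hk]; push_cast; ring
    rw [this, ee_add_int, ee_im, mul_neg, Real.sin_neg, h3]
    simp

theorem Z_im (m : Fin 4 → ℤ) (hm : ¬ zero3 m) :
    Real.sqrt 3 / 2 ≤ |(cf m a1 + 3 * cf m a2 + 9 * cf m a3 + 27 * cf m a4).im| := by
  obtain ⟨b1, h1, z1, e1⟩ := ee_third_im (mx m a1)
  obtain ⟨b2, h2, z2, e2⟩ := ee_third_im (mx m a2)
  obtain ⟨b3, h3, z3, e3⟩ := ee_third_im (mx m a3)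
  obtain ⟨b4, h4, z4, e4⟩ := ee_third_im (mx m a4)
  have e : (cf m a1 + 3 * cf m a2 + 9 * cf m a3 + 27 * cf m a4).im
      = Real.sqrt 3 / 2 * ((b1 + 3 * b2 + 9 * b3 + 27 * b4 : ℤ) : ℝ) := by
    unfold cf
    simp only [Complex.add_im, Complex.mul_im, Complex.re_ofNat, Complex.im_ofNat, zero_mul,
      add_zero]
    rw [e1, e2, e3, e4]
    push_cast
    ring
  have hne : b1 + 3 * b2 + 9 * b3 + 27 * b4 ≠ 0 := by
    intro h
    have hb : b1 = 0 ∧ b2 = 0 ∧ b3 = 0 ∧ b4 = 0 := by omega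
    obtain ⟨q1, q2, q3, q4⟩ := hb
    have d1 := z1 q1
    have d2 := z2 q2
    have d3 := z3 q3
    have d4 := z4 q4
    rw [mx_a1] at d1
    rw [mx_a2] at d2
    rw [mx_a3] at d3
    rw [mx_a4] at d4
    apply hm
    intro i
    fin_cases i
    · show (3 : ℤ) ∣ m 0
      omega
    · show (3 : ℤ) ∣ m 1
      omega
    · show (3 : ℤ) ∣ m 2
      omega
    · show (3 : ℤ) ∣ m 3
      omega
  have h1 : (1 : ℝ) ≤ |((b1 + 3 * b2 + 9 * b3 + 27 * b4 : ℤ) : ℝ)| := by
    have := Int.one_le_abs hne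
    exact_mod_cast this
  have hs : (0 : ℝ) ≤ Real.sqrt 3 / 2 := by positivity
  rw [e, abs_mul, abs_of_nonneg hs]
  nlinarith

theorem kappa (N : ℕ) (hN : 10 ^ 6 ≤ N) (m : Fin 4 → ℤ) (hm : ¬ zero3 m) :
    ((starRingEnd ℂ) (gr N m 0) * gr N m 1).im ≠ 0 := by
  set Z : ℂ := cf m a1 + 3 * cf m a2 + 9 * cf m a3 + 27 * cf m a4 with hZ
  set E0 : ℂ := ∑ p ∈ IA, cf m p * (xp p 0 : ℂ) with hE0
  set E1 : ℂ := ∑ p ∈ IA, cf m p * (xp p 1 : ℂ) with hE1
  have b0 : ‖E0‖ ≤ 97200 := norm_E_le m 0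
  have b1 : ‖E1‖ ≤ 97200 := norm_E_le m 1
  have hZ1 : ‖Z‖ ≤ 40 := by
    rw [hZ]
    refine (norm_add_le _ _).trans ?_
    refine (add_le_add_left (norm_add_le _ _) _).trans ?_
    refine (add_le_add_left (add_le_add_left (norm_add_le _ _) _) _).trans ?_
    rw [norm_mul, norm_mul, norm_mul, norm_cf, norm_cf, norm_cf, norm_cf]
    simp only [Complex.norm_ofNat]
    norm_num
  have hZ2 : Real.sqrt 3 / 2 ≤ |Z.im| := Z_im m hm
  have hN' : (10 : ℝ) ^ 6 ≤ N := by exact_mod_cast hN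
  have e : (starRingEnd ℂ) (gr N m 0) * gr N m 1
      = ((36 * (N : ℝ) ^ 2 : ℝ) : ℂ) * Z + (6 * N * E1 + 6 * N * ((starRingEnd ℂ) E0 * Z)
        + (starRingEnd ℂ) E0 * E1) := by
    rw [gr_0, gr_1, ← hZ, ← hE0, ← hE1, map_add, map_mul, Complex.conj_natCast]
    have : (starRingEnd ℂ) (6 : ℂ) = 6 := Complex.conj_ofNat 6
    rw [this]
    push_cast
    ring
  have herr : ‖6 * N * E1 + 6 * N * ((starRingEnd ℂ) E0 * Z) + (starRingEnd ℂ) E0 * E1‖
      ≤ 6 * N * 97200 + 6 * N * (97200 * 40) + 97200 * 97200 := by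
    refine (norm_add_le _ _).trans ?_
    refine (add_le_add_left (norm_add_le _ _) _).trans ?_
    simp only [norm_mul, Complex.norm_conj, Complex.norm_ofNat, Complex.norm_natCast]
    have n0 := norm_nonneg E0
    have n1 := norm_nonneg E1
    have nz := norm_nonneg Z
    gcongr
  intro h0
  rw [e, Complex.add_im, Complex.im_ofReal_mul] at h0
  have h1 : |36 * (N : ℝ) ^ 2 * Z.im|
      ≤ 6 * (N : ℝ) * 97200 + 6 * (N : ℝ) * (97200 * 40) + 97200 * 97200 := by
    have : 36 * (N : ℝ) ^ 2 * Z.im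
      = -(6 * N * E1 + 6 * N * ((starRingEnd ℂ) E0 * Z) + (starRingEnd ℂ) E0 * E1).im := by
      linarith
    rw [this, abs_neg]
    exact (Complex.abs_im_le_norm _).trans herr
  rw [abs_mul, abs_of_nonneg (by positivity : (0 : ℝ) ≤ 36 * (N : ℝ) ^ 2)] at h1
  have hs3 : (1.73 : ℝ) ≤ Real.sqrt 3 := by
    apply Real.le_sqrt_of_sq_le
    norm_num
  have h2 : 36 * (N : ℝ) ^ 2 * (1.73 / 2) ≤ 36 * (N : ℝ) ^ 2 * |Z.im| :=
    mul_le_mul_of_nonneg_left (by linarith) (by positivity)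
  nlinarith

/-! ### One class modulo `3` -/

theorem one_class (N : ℕ) (hN : 10 ^ 6 ≤ N) (m : Fin 4 → ℤ) (hm : ¬ zero3 m) :
    ∃ C δ : ℝ, 0 < C ∧ 0 < δ ∧ ∀ v : V5, (∀ i, |v i| ≤ δ) → ft (A N) (third m + v) = 0 →
      |v 0| ≤ C * (|v 2| + |v 3| + |v 4|) ∧ |v 1| ≤ C * (|v 2| + |v 3| + |v 4|) := by
  set T : ℝ := 2 * Real.pi * (162 * N + 20) with hT
  have hTp : 0 < T := by positivity
  set Hc : ℝ := (IA.card : ℝ) * T ^ 2 with hHc
  have hHc0 : 0 ≤ Hc := by positivity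
  by_cases hF : ft (A N) (third m) = 0
  · obtain ⟨C, δ, hC, hδ, hmain⟩ := local_lemma (gr N m) Hc hHc0 (kappa N hN m hm)
    refine ⟨C, min δ (1 / (5 * T)), hC, lt_min hδ (by positivity), ?_⟩
    intro v hv hv0
    have hsum : ∑ i, |v i| ≤ 1 / T := by
      have : ∑ i, |v i| ≤ ∑ _i : Fin 5, 1 / (5 * T) :=
        Finset.sum_le_sum fun i _ => (hv i).trans (min_le_right _ _)
      refine this.trans (le_of_eq ?_)
      simp only [Finset.sum_const, Finset.card_univ, Fintype.card_fin, nsmul_eq_mul]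
      field_simp
      norm_num
    have hle : 2 * Real.pi * ((162 * N + 20) * ∑ i, |v i|) ≤ 1 := by
      have e : 2 * Real.pi * ((162 * N + 20) * ∑ i, |v i|) = T * ∑ i, |v i| := by rw [hT]; ring
      rw [e]
      calc T * ∑ i, |v i| ≤ T * (1 / T) := mul_le_mul_of_nonneg_left hsum hTp.le
        _ = 1 := by field_simp
    have ht := taylor N m v hle
    rw [hv0, hF, sub_zero, zero_sub, norm_neg, norm_mul] at ht
    have h2pi : (1 : ℝ) ≤ ‖(2 * Real.pi * Complex.I : ℂ)‖ := by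
      simp only [norm_mul, Complex.norm_ofNat, Complex.norm_real, Complex.norm_I, mul_one,
        Real.norm_eq_abs, abs_of_pos Real.pi_pos]
      linarith [Real.pi_gt_three]
    refine hmain v (fun i => (hv i).trans (min_le_left _ _)) ?_
    have e2 : (IA.card : ℝ) * (2 * Real.pi * ((162 * N + 20) * ∑ i, |v i|)) ^ 2
      = Hc * (∑ i, |v i|) ^ 2 := by rw [hHc, hT]; ring
    rw [e2] at ht
    have := norm_nonneg (∑ i, gr N m i * (v i : ℂ))
    nlinarith
  · set ε : ℝ := ‖ft (A N) (third m)‖ with hε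
    have hεp : 0 < ε := norm_pos_iff.mpr hF
    -- crude Lipschitz bound
    have hlip : ∀ v : V5, ‖ft (A N) (third m + v) - ft (A N) (third m)‖
        ≤ (IA.card : ℝ) * (T * ∑ i, |v i|) := by
      intro v
      have h0 : ft (A N) (third m) = ∑ p ∈ IA, cf m p := by
        rw [ft_A]
        refine Finset.sum_congr rfl fun p _ => ?_
        rw [ee_pt_third]
      rw [ft_A_third, h0, ← Finset.sum_sub_distrib]
      refine (norm_sum_le _ _).trans ?_
      rw [← nsmul_eq_mul]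
      refine Finset.sum_le_card_nsmul _ _ _ fun p _ => ?_
      have e : cf m p * ee (dot (pt N p) v) - cf m p = cf m p * (ee (dot (pt N p) v) - 1) := by ring
      rw [e, norm_mul, norm_cf, one_mul]
      refine (norm_ee_sub_one_le _).trans ?_
      have e2 : T * ∑ i, |v i| = 2 * Real.pi * ((162 * N + 20) * ∑ i, |v i|) := by rw [hT]; ring
      rw [e2]
      exact mul_le_mul_of_nonneg_left (dot_abs N p v) (by positivity)
    set K : ℝ := 10 * (19440 * T) with hK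
    have hKp : 0 < K := by positivity
    refine ⟨1, ε / K, one_pos, by positivity, ?_⟩
    intro v hv hv0
    exfalso
    have h1 := hlip v
    rw [hv0, zero_sub, norm_neg, ← hε] at h1
    have hsum : ∑ i, |v i| ≤ 5 * (ε / K) := by
      have : ∑ i, |v i| ≤ ∑ _i : Fin 5, ε / K := Finset.sum_le_sum fun i _ => hv i
      refine this.trans (le_of_eq ?_)
      simp
    have hc : (IA.card : ℝ) ≤ 19440 := by exact_mod_cast card_IA_le
    have h2 : (IA.card : ℝ) * (T * ∑ i, |v i|) ≤ 19440 * (T * (5 * (ε / K))) := by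
      have : 0 ≤ ∑ i, |v i| := Finset.sum_nonneg fun i _ => abs_nonneg _
      gcongr
    have h3 : 19440 * (T * (5 * (ε / K))) = ε / 2 := by
      rw [hK]; field_simp; norm_num
    linarith

/-- Residues modulo `3`. -/
def res (m : Fin 4 → ℤ) : Fin 4 → Fin 3 := fun i => ⟨(m i % 3).toNat, by omega⟩

/-- Back from residues. -/
def unres (m : Fin 4 → Fin 3) : Fin 4 → ℤ := fun i => ((m i : ℕ) : ℤ)

theorem unres_res (m : Fin 4 → ℤ) (i : Fin 4) : unres (res m) i = m i % 3 := by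
  unfold unres res
  simp only
  omega

theorem zero3_unres (m : Fin 4 → ℤ) : zero3 (unres (res m)) ↔ zero3 m := by
  unfold zero3
  refine forall_congr' fun i => ?_
  rw [unres_res]
  omega

theorem ft_unres (N : ℕ) (m : Fin 4 → ℤ) (v : V5) :
    ft (A N) (third m + v) = ft (A N) (third (unres (res m)) + v) := by
  have h : ∀ i, m i = unres (res m) i + 3 * (m i / 3) := by
    intro i; rw [unres_res]; omega
  set c : Z5 := ![m 0 / 3, m 1 / 3, m 2 / 3, m 3 / 3, 0] with hc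
  have e : third m + v = (third (unres (res m)) + v) + toR c := by
    have h0 : (m 0 : ℝ) = (unres (res m) 0 : ℝ) + 3 * ((m 0 / 3 : ℤ) : ℝ) := by
      exact_mod_cast h 0
    have h1 : (m 1 : ℝ) = (unres (res m) 1 : ℝ) + 3 * ((m 1 / 3 : ℤ) : ℝ) := by
      exact_mod_cast h 1
    have h2 : (m 2 : ℝ) = (unres (res m) 2 : ℝ) + 3 * ((m 2 / 3 : ℤ) : ℝ) := by
      exact_mod_cast h 2
    have h3 : (m 3 : ℝ) = (unres (res m) 3 : ℝ) + 3 * ((m 3 / 3 : ℤ) : ℝ) := by
      exact_mod_cast h 3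
    funext i
    fin_cases i
    · show (m 0 : ℝ) / 3 + v 0 = ((unres (res m) 0 : ℝ) / 3 + v 0) + ((m 0 / 3 : ℤ) : ℝ)
      linarith
    · show (m 1 : ℝ) / 3 + v 1 = ((unres (res m) 1 : ℝ) / 3 + v 1) + ((m 1 / 3 : ℤ) : ℝ)
      linarith
    · show (m 2 : ℝ) / 3 + v 2 = ((unres (res m) 2 : ℝ) / 3 + v 2) + ((m 2 / 3 : ℤ) : ℝ)
      linarith
    · show (m 3 : ℝ) / 3 + v 3 = ((unres (res m) 3 : ℝ) / 3 + v 3) + ((m 3 / 3 : ℤ) : ℝ)
      linarith
    · show (0 : ℝ) + v 4 = (0 + v 4) + ((0 : ℤ) : ℝ)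
      simp
  rw [e, ft_add_int]

end

end Loc72

open Loc72 in
/-- The local lemma. -/
theorem p_LOC : T_LOC := by
  intro N hN
  have h1 : ∀ r : Fin 4 → Fin 3, ∃ C δ : ℝ, 0 < C ∧ 0 < δ ∧
      (¬ zero3 (unres r) → ∀ v : V5, (∀ i, |v i| ≤ δ) → ft (A N) (third (unres r) + v) = 0 →
      |v 0| ≤ C * (|v 2| + |v 3| + |v 4|) ∧ |v 1| ≤ C * (|v 2| + |v 3| + |v 4|)) := by
    intro r
    by_cases h : zero3 (unres r)
    · exact ⟨1, 1, one_pos, one_pos, fun h' => absurd h h'⟩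
    · obtain ⟨C, δ, hC, hδ, hmain⟩ := one_class N hN (unres r) h
      exact ⟨C, δ, hC, hδ, fun _ => hmain⟩
  choose C δ hC hδ hmain using h1
  obtain ⟨r0, _, hr0⟩ := Finset.exists_max_image (Finset.univ : Finset (Fin 4 → Fin 3)) C
    ⟨fun _ => 0, Finset.mem_univ _⟩
  obtain ⟨r1, _, hr1⟩ := Finset.exists_min_image (Finset.univ : Finset (Fin 4 → Fin 3)) δ
    ⟨fun _ => 0, Finset.mem_univ _⟩
  refine ⟨C r0, δ r1, hC r0, hδ r1, ?_⟩
  intro m hm v hv hF
  have hm' : ¬ zero3 (unres (res m)) := fun h => hm ((zero3_unres m).mp h)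
  rw [ft_unres] at hF
  have h := hmain (res m) hm' v
    (fun i => (hv i).trans (hr1 _ (Finset.mem_univ _))) hF
  have hq : 0 ≤ |v 2| + |v 3| + |v 4| := by positivity
  have hle : C (res m) * (|v 2| + |v 3| + |v 4|) ≤ C r0 * (|v 2| + |v 3| + |v 4|) :=
    mul_le_mul_of_nonneg_right (hr0 _ (Finset.mem_univ _)) hq
  exact ⟨h.1.trans hle, h.2.trans hle⟩

end SpM
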