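import Pool.Agent.SpM.Targets

/-! J8: existence of the self-affine measure. -/

namespace SpM

namespace Meas_

open MeasureTheory Finset Filter Topology

noncomputable section

variable (r : Fin 5 → ℕ) (D : Finset Z5)

/-- the digit sum -/
def XX (w : ℕ → D) : V5 := fun i => ∑' k, ((w k).1 i : ℝ) / (r i : ℝ) ^ (k + 1)

theorem hasSum_geo {c : ℝ} {R : ℕ} (hR : 2 ≤ R) :
    HasSum (fun k : ℕ => c * ((R : ℝ) - 1) / (R : ℝ) ^ (k + 1)) c := by
  have hR' : (2 : ℝ) ≤ R := by exact_mod_cast hR
  have h := hasSum_geometric_of_lt_one (r := (R : ℝ)⁻¹) (by positivity)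
    (inv_lt_one_of_one_lt₀ (by linarith))
  have h2 := h.mul_left (c * ((R : ℝ) - 1) / R)
  have e1 : c * ((R : ℝ) - 1) / R * (1 - (R : ℝ)⁻¹)⁻¹ = c := by
    have h1 : (R : ℝ) ≠ 0 := by linarith
    have h2 : (R : ℝ) - 1 ≠ 0 := by linarith
    have h3 : 1 - (R : ℝ)⁻¹ = ((R : ℝ) - 1) / R := by field_simp
    rw [h3, inv_div]
    field_simp
  rw [e1] at h2
  refine h2.congr_fun ?_
  intro k
  rw [inv_pow, pow_succ]
  have h1 : (R : ℝ) ≠ 0 := by linarith
  field_simp

variable {r D}

theorem term_le {c : ℝ} (hD : ∀ d ∈ D, ∀ i, |(d i : ℝ)| ≤ c * ((r i : ℝ) - 1))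
    (w : ℕ → D) (i : Fin 5) (k : ℕ) :
    ‖((w k).1 i : ℝ) / (r i : ℝ) ^ (k + 1)‖ ≤ c * ((r i : ℝ) - 1) / (r i : ℝ) ^ (k + 1) := by
  rw [norm_div, Real.norm_eq_abs, norm_pow, Real.norm_natCast]
  exact div_le_div_of_nonneg_right (hD _ (w k).2 i) (by positivity)

theorem summable_term {c : ℝ} (hr : ∀ i, 2 ≤ r i)
    (hD : ∀ d ∈ D, ∀ i, |(d i : ℝ)| ≤ c * ((r i : ℝ) - 1)) (w : ℕ → D) (i : Fin 5) :
    Summable fun k => ((w k).1 i : ℝ) / (r i : ℝ) ^ (k + 1) :=
  Summable.of_norm_bounded (hasSum_geo (hr i)).summable (term_le hD w i)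

theorem XX_le {c : ℝ} (hr : ∀ i, 2 ≤ r i)
    (hD : ∀ d ∈ D, ∀ i, |(d i : ℝ)| ≤ c * ((r i : ℝ) - 1)) (w : ℕ → D) (i : Fin 5) :
    |XX r D w i| ≤ c :=
  tsum_of_norm_bounded (hasSum_geo (hr i)) (term_le hD w i)

theorem measurable_XX {c : ℝ} (hr : ∀ i, 2 ≤ r i)
    (hD : ∀ d ∈ D, ∀ i, |(d i : ℝ)| ≤ c * ((r i : ℝ) - 1)) : Measurable (XX r D) := by
  rw [measurable_pi_iff]
  intro i
  refine measurable_of_tendsto_metrizable (f := fun (n : ℕ) (w : ℕ → D) =>
    ∑ k ∈ range n, ((w k).1 i : ℝ) / (r i : ℝ) ^ (k + 1)) ?_ ?_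
  · intro n
    refine Finset.measurable_sum _ fun k _ => ?_
    have h1 : Measurable fun d : D => ((d.1 i : ℝ) / (r i : ℝ) ^ (k + 1)) :=
      measurable_of_countable _
    exact h1.comp (measurable_pi_apply k)
  · rw [tendsto_pi_nhds]
    intro w
    exact (summable_term hr hD w i).hasSum.tendsto_sum_nat

/-- the factor of the digit number `k` -/
def gg (ξ : V5) (k : ℕ) (d : D) : ℂ := ee (dot d.1 fun i => ξ i / (r i : ℝ) ^ (k + 1))

end

end Meas_

open Meas_ MeasureTheory Finset Filter Topology in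
theorem p_MEAS : T_MEAS := by
  intro r D c hr hne hc hD
  have : Nonempty D := hne.to_subtype
  set ν : Measure D := (PMF.uniformOfFintype D).toMeasure with hν
  have : IsProbabilityMeasure ν := PMF.toMeasure.isProbabilityMeasure _
  set P : Measure (ℕ → D) := Measure.infinitePi (fun _ : ℕ => ν) with hP
  have hX := measurable_XX hr hD
  have hcard : (D.card : ℂ) ≠ 0 := by
    exact_mod_cast (Finset.card_pos.2 hne).ne'
  -- one factor
  have hone : ∀ (ξ : V5) (k : ℕ), ∫ d, gg (r := r) ξ k d ∂ν =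
      ft D (fun i => ξ i / (r i : ℝ) ^ (k + 1)) / (D.card : ℂ) := by
    intro ξ k
    rw [hν, PMF.integral_eq_sum]
    simp only [PMF.uniformOfFintype_apply, gg, Fintype.card_coe]
    unfold ft
    rw [← Finset.sum_coe_sort D, Finset.sum_div]
    refine Finset.sum_congr rfl fun d _ => ?_
    rw [ENNReal.toReal_inv, ENNReal.toReal_natCast, Complex.real_smul]
    push_cast
    rw [div_eq_inv_mul]
  have hmeas : ∀ (ξ : V5) (n : ℕ), Measurable fun w : ℕ → D =>
      ∏ k ∈ range n, gg (r := r) ξ k (w k) := by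
    intro ξ n
    refine Finset.measurable_prod _ fun k _ => ?_
    have h1 : Measurable fun d : D => gg (r := r) ξ k d := measurable_of_countable _
    exact h1.comp (measurable_pi_apply k)
  have hfin : ∀ (ξ : V5) (n : ℕ), ∫ w, ∏ k ∈ range n, gg (r := r) ξ k (w k) ∂P =
      ∏ k ∈ range n, (ft D (fun i => ξ i / (r i : ℝ) ^ (k + 1)) / (D.card : ℂ)) := by
    intro ξ n
    have h := integral_restrict_infinitePi (μ := fun _ : ℕ => ν) (s := range n)
      (f := fun y : (range n) → D => ∏ k : (range n), gg (r := r) ξ k (y k))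
      (by
        refine Measurable.aestronglyMeasurable ?_
        refine Finset.measurable_prod _ fun k _ => ?_
        have h1 : Measurable fun d : D => gg (r := r) ξ k d := measurable_of_countable _
        exact h1.comp (measurable_pi_apply k))
    rw [integral_fintype_prod_eq_prod (𝕜 := ℂ)
      (fun (k : (range n)) (d : D) => gg (r := r) ξ k d)] at h
    have e1 : ∀ w : ℕ → D, ∏ k : (range n), gg (r := r) ξ k ((range n).restrict w k) =
        ∏ k ∈ range n, gg (r := r) ξ k (w k) := by
      intro w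
      exact Finset.prod_coe_sort (range n) fun k => gg (r := r) ξ k (w k)
    simp only [e1, hone] at h
    rw [hP, h]
    exact Finset.prod_coe_sort (range n) fun k =>
      ft D (fun i => ξ i / (r i : ℝ) ^ (k + 1)) / (D.card : ℂ)
  have hlim : ∀ ξ : V5, Tendsto (fun n : ℕ =>
      ∏ k ∈ range n, (ft D (fun i => ξ i / (r i : ℝ) ^ (k + 1)) / (D.card : ℂ))) atTop
      (𝓝 (mhat (P.map (XX r D)) ξ)) := by
    intro ξ
    have e1 : mhat (P.map (XX r D)) ξ = ∫ w, ee (∑ i, ξ i * XX r D w i) ∂P := by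
      unfold mhat
      rw [integral_map hX.aemeasurable]
      refine Continuous.aestronglyMeasurable ?_
      exact continuous_ee.comp (by fun_prop)
    rw [e1]
    simp only [← hfin]
    refine tendsto_integral_of_dominated_convergence (fun _ => (1 : ℝ))
      (fun n => (hmeas ξ n).aestronglyMeasurable) (integrable_const _) ?_ ?_
    · intro n
      refine ae_of_all _ fun w => ?_
      rw [norm_prod]
      refine le_of_eq (Finset.prod_eq_one fun k _ => ?_)
      exact norm_ee _
    · refine ae_of_all _ fun w => ?_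
      have e2 : ∀ n, ∏ k ∈ range n, gg (r := r) ξ k (w k) =
          ee (∑ k ∈ range n, ∑ i, ξ i * (((w k).1 i : ℝ) / (r i : ℝ) ^ (k + 1))) := by
        intro n
        induction n with
        | zero => simp [ee_zero]
        | succ n ih =>
          rw [prod_range_succ, ih, sum_range_succ, ee_add]
          congr 1
          unfold gg dot
          congr 1
          refine Finset.sum_congr rfl fun i _ => ?_
          ring
      simp only [e2]
      refine (continuous_ee.tendsto _).comp ?_
      refine HasSum.tendsto_sum_nat ?_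
      refine hasSum_sum fun i _ => ?_
      exact (summable_term hr hD w i).hasSum.mul_left (ξ i)
  refine ⟨P.map (XX r D), Measure.isProbabilityMeasure_map hX.aemeasurable, ?_, ?_⟩
  · have hs : MeasurableSet {x : V5 | ∀ i, |x i| ≤ c} := by
      have : {x : V5 | ∀ i, |x i| ≤ c} = ⋂ i, {x : V5 | |x i| ≤ c} := by ext; simp
      rw [this]
      refine MeasurableSet.iInter fun i => ?_
      exact measurableSet_le (by fun_prop) measurable_const
    rw [ae_map_iff hX.aemeasurable hs]
    exact ae_of_all _ fun w i => XX_le hr hD w i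
  · intro ξ
    have h1 := hlim ξ
    have h2 := (hlim (dvr r ξ)).const_mul (ft D (dvr r ξ) / (D.card : ℂ))
    refine tendsto_nhds_unique ((tendsto_add_atTop_iff_nat 1).2 h1) (h2.congr fun n => ?_)
    rw [prod_range_succ', mul_comm]
    congr 1
    · refine Finset.prod_congr rfl fun k _ => ?_
      congr 2
      funext i
      unfold dvr
      rw [div_div, ← pow_succ']
    · congr 2
      funext i
      simp [dvr]

end SpM
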