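import Pool.Agent.SpM.Targets

namespace SpM

open MeasureTheory Finset

noncomputable section

/-- pairwise unrelated -/
def Unrel {α : Type} (rel : α → α → Prop) (Q : Finset α) : Prop :=
  ∀ x ∈ Q, ∀ y ∈ Q, x ≠ y → ¬ rel x y

theorem p_CNT : T_CNT := by
  intro α P rel hs ht h13 h6
  classical
  obtain ⟨Q, hQ, hmax⟩ := Finset.exists_max_image
    (P.powerset.filter (fun Q => Unrel rel Q)) Finset.card
    ⟨∅, by simp [Unrel]⟩
  rw [Finset.mem_filter, Finset.mem_powerset] at hQ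
  obtain ⟨hQP, hQu⟩ := hQ
  have hcov : ∀ x ∈ P, ∃ q ∈ Q, x = q ∨ rel x q := by
    intro x hx
    by_contra hcon
    push Not at hcon
    have hxQ : x ∉ Q := fun h => (hcon x h).1 rfl
    have h1 := hmax (insert x Q) (by
      rw [Finset.mem_filter, Finset.mem_powerset]
      refine ⟨Finset.insert_subset hx hQP, ?_⟩
      intro a ha b hb hab
      rw [Finset.mem_insert] at ha hb
      rcases ha with rfl | ha
      · rcases hb with rfl | hb
        · exact absurd rfl hab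
        · exact (hcon b hb).2
      · rcases hb with rfl | hb
        · intro hr
          exact (hcon a ha).2 (hs a (hQP ha) b hx hr)
        · exact hQu a ha b hb hab)
    rw [Finset.card_insert_of_notMem hxQ] at h1
    omega
  have hsub : P ⊆ Q.biUnion (fun q => P.filter (fun x => x = q ∨ rel x q)) := by
    intro x hx
    obtain ⟨q, hq, h⟩ := hcov x hx
    rw [Finset.mem_biUnion]
    exact ⟨q, hq, Finset.mem_filter.mpr ⟨hx, h⟩⟩
  have h2 := Finset.card_biUnion_le_card_mul Q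
    (fun q => P.filter (fun x => x = q ∨ rel x q)) 13 (by
      intro q hq
      apply h13 _ (Finset.filter_subset _ _)
      intro x hx y hy hxy
      rw [Finset.mem_filter] at hx hy
      obtain ⟨hx, hx2⟩ := hx
      obtain ⟨hy, hy2⟩ := hy
      rcases hx2 with rfl | hx2
      · rcases hy2 with rfl | hy2
        · exact absurd rfl hxy
        · exact hs y hy x hx hy2
      · rcases hy2 with rfl | hy2
        · exact hx2
        · exact ht x hx q (hQP hq) y hy hx2 (hs y hy q (hQP hq) hy2) hxy)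
  have h3 := h6 Q hQP hQu
  have h4 := Finset.card_le_card hsub
  calc P.card ≤ _ := h4
    _ ≤ Q.card * 13 := h2
    _ ≤ 78 := by omega

namespace NS

theorem geom_ne_zero (k : ℕ) (hk : 1 ≤ k) (θ : ℝ) (h : |(k : ℝ) * θ| < 1) :
    ∑ c ∈ Finset.range k, ee ((c : ℝ) * θ) ≠ 0 := by
  by_cases h0 : θ = 0
  · subst h0
    simp only [mul_zero, ee_zero, Finset.sum_const, Finset.card_range, nsmul_eq_mul, mul_one]
    exact_mod_cast (by omega : k ≠ 0)
  · have hk1 : (1 : ℝ) ≤ k := by exact_mod_cast hk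
    have hθ : |θ| < 1 := by
      rw [abs_mul, Nat.abs_cast] at h
      nlinarith [abs_nonneg θ]
    have key : ∀ t : ℝ, |t| < 1 → t ≠ 0 → ee t ≠ 1 := by
      intro t ht ht0 he
      rw [ee_eq_one_iff] at he
      obtain ⟨n, rfl⟩ := he
      have h1 : |n| < 1 := by exact_mod_cast ht
      have h2 : n = 0 := Int.abs_lt_one_iff.mp h1
      exact ht0 (by rw [h2]; simp)
    have h1 : ee θ ≠ 1 := key θ hθ h0
    have h2 : ee ((k : ℝ) * θ) ≠ 1 := key _ h (mul_ne_zero (by positivity) h0)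
    have h3 : ∑ c ∈ Finset.range k, ee ((c : ℝ) * θ) = ∑ c ∈ Finset.range k, ee θ ^ c :=
      Finset.sum_congr rfl fun c _ => ee_nsmul c θ
    rw [h3, geom_sum_eq h1, ← ee_nsmul]
    exact div_ne_zero (sub_ne_zero.mpr h2) (sub_ne_zero.mpr h1)

theorem dot_neg {d : ℕ} (b : Fin d → ℤ) (x : Fin d → ℝ) : dot b (-x) = - dot b x := by
  simp [dot]

theorem ft_neg {d : ℕ} (B : Finset (Fin d → ℤ)) (x : Fin d → ℝ) :
    ft B (-x) = (starRingEnd ℂ) (ft B x) := by
  unfold ft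
  rw [map_sum]
  refine Finset.sum_congr rfl fun b _ => ?_
  rw [dot_neg, ee_neg]

/-- integer part of `M_i x_i` -/
def mm (x : V5) (i : Fin 5) : ℤ := ⌊(M i : ℝ) * x i⌋

/-- fractional part of `M_i x_i` -/
def ff (x : V5) (i : Fin 5) : ℝ := Int.fract ((M i : ℝ) * x i)

theorem mm_add_ff (x : V5) (i : Fin 5) : (mm x i : ℝ) + ff x i = (M i : ℝ) * x i :=
  Int.floor_add_fract _

/-- moduli of the cells -/
def mo : Fin 5 → ℤ := ![2, 2, 2, 2, 15]

/-- the cell of a point -/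
def cell (K1 K2 : ℕ) (x : V5) : Z5 × Z5 :=
  (fun i => ⌊(kk K1 K2 i : ℝ) * ff x i⌋, fun i => mm x i % mo i)

theorem M_pos (i : Fin 5) : 0 < M i := by fin_cases i <;> simp [M]

theorem mo_pos (i : Fin 5) : 0 < mo i := by fin_cases i <;> simp [mo]

/-- the set of cells -/
def cells (K1 K2 : ℕ) : Finset (Z5 × Z5) :=
  Fintype.piFinset (fun i => Finset.Ico (0 : ℤ) (kk K1 K2 i)) ×ˢ
    Fintype.piFinset (fun i => Finset.Ico (0 : ℤ) (mo i))

theorem card_cells (K1 K2 : ℕ) : (cells K1 K2).card = (∏ i, kk K1 K2 i) * 240 := by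
  unfold cells
  rw [Finset.card_product, Fintype.card_piFinset, Fintype.card_piFinset]
  congr 1
  refine Finset.prod_congr rfl fun i _ => ?_
  simp

theorem cell_mem (K1 K2 : ℕ) (hk : ∀ i, 1 ≤ kk K1 K2 i) (x : V5) :
    cell K1 K2 x ∈ cells K1 K2 := by
  unfold cells cell
  rw [Finset.mem_product, Fintype.mem_piFinset, Fintype.mem_piFinset]
  constructor
  · intro i
    rw [Finset.mem_Ico]
    have hk1 : (1 : ℝ) ≤ kk K1 K2 i := by exact_mod_cast hk i
    have h0 : 0 ≤ ff x i := Int.fract_nonneg _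
    have h1 : ff x i < 1 := Int.fract_lt_one _
    constructor
    · exact Int.floor_nonneg.mpr (by positivity)
    · rw [Int.floor_lt]
      push_cast
      nlinarith
  · intro i
    rw [Finset.mem_Ico]
    exact ⟨Int.emod_nonneg _ (mo_pos i).ne', Int.emod_lt_of_pos _ (mo_pos i)⟩

/-- `(m_i - m_i')/2` -/
def nd (x y : V5) (i : Fin 4) : ℤ := (mm x i.castSucc - mm y i.castSucc) / 2

/-- the small part of the difference -/
def vv (x y : V5) : V5 := fun i => (ff x i - ff y i) / (M i : ℝ)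

theorem nd_spec (K1 K2 : ℕ) (x y : V5) (h : cell K1 K2 x = cell K1 K2 y) (i : Fin 4) :
    mm x i.castSucc - mm y i.castSucc = 2 * nd x y i := by
  have h2 : mm x i.castSucc % mo i.castSucc = mm y i.castSucc % mo i.castSucc :=
    congrFun (congrArg Prod.snd h) i.castSucc
  have h3 : mo i.castSucc = 2 := by fin_cases i <;> rfl
  rw [h3] at h2
  unfold nd
  omega

theorem td_spec (K1 K2 : ℕ) (x y : V5) (h : cell K1 K2 x = cell K1 K2 y) :
    mm x 4 - mm y 4 = 15 * ((mm x 4 - mm y 4) / 15) := by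
  have h2 : mm x 4 % mo 4 = mm y 4 % mo 4 :=
    congrFun (congrArg Prod.snd h) 4
  have h3 : mo 4 = 15 := rfl
  rw [h3] at h2
  omega

theorem diff_eq (K1 K2 : ℕ) (x y : V5) (h : cell K1 K2 x = cell K1 K2 y) :
    x - y = third (nd x y) + vv x y + toR ![0, 0, 0, 0, (mm x 4 - mm y 4) / 15] := by
  have hM : ∀ i, (M i : ℝ) ≠ 0 := fun i => by exact_mod_cast (M_pos i).ne'
  have hx : ∀ i, x i = ((mm x i : ℝ) + ff x i) / (M i : ℝ) := fun i => by
    rw [mm_add_ff, mul_div_cancel_left₀ _ (hM i)]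
  have hy : ∀ i, y i = ((mm y i : ℝ) + ff y i) / (M i : ℝ) := fun i => by
    rw [mm_add_ff, mul_div_cancel_left₀ _ (hM i)]
  have hn : ∀ i : Fin 4, ((mm x i.castSucc : ℤ) : ℝ) - mm y i.castSucc = 2 * nd x y i := by
    intro i
    exact_mod_cast nd_spec K1 K2 x y h i
  have ht : ((mm x 4 : ℤ) : ℝ) - mm y 4 = 15 * (((mm x 4 - mm y 4) / 15 : ℤ) : ℝ) := by
    exact_mod_cast td_spec K1 K2 x y h
  have h0 := hn 0
  have h1 := hn 1
  have h2 := hn 2
  have h3 := hn 3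
  change ((mm x 0 : ℤ) : ℝ) - mm y 0 = _ at h0
  change ((mm x 1 : ℤ) : ℝ) - mm y 1 = _ at h1
  change ((mm x 2 : ℤ) : ℝ) - mm y 2 = _ at h2
  change ((mm x 3 : ℤ) : ℝ) - mm y 3 = _ at h3
  have m0 : (M 0 : ℝ) = 6 := by simp [M]
  have m1 : (M 1 : ℝ) = 6 := by simp [M]
  have m2 : (M 2 : ℝ) = 6 := by simp [M]
  have m3 : (M 3 : ℝ) = 6 := by simp [M]
  have m4 : (M 4 : ℝ) = 15 := by simp [M]
  funext i
  rw [Pi.sub_apply, hx i, hy i]
  fin_cases i
  · change (((mm x 0 : ℤ) : ℝ) + ff x 0) / (M 0 : ℝ) - (((mm y 0 : ℤ) : ℝ) + ff y 0) / (M 0 : ℝ) =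
      (nd x y 0 : ℝ) / 3 + (ff x 0 - ff y 0) / (M 0 : ℝ) + ((0 : ℤ) : ℝ)
    rw [m0]
    push_cast
    linear_combination h0 / 6
  · change (((mm x 1 : ℤ) : ℝ) + ff x 1) / (M 1 : ℝ) - (((mm y 1 : ℤ) : ℝ) + ff y 1) / (M 1 : ℝ) =
      (nd x y 1 : ℝ) / 3 + (ff x 1 - ff y 1) / (M 1 : ℝ) + ((0 : ℤ) : ℝ)
    rw [m1]
    push_cast
    linear_combination h1 / 6
  · change (((mm x 2 : ℤ) : ℝ) + ff x 2) / (M 2 : ℝ) - (((mm y 2 : ℤ) : ℝ) + ff y 2) / (M 2 : ℝ) =
      (nd x y 2 : ℝ) / 3 + (ff x 2 - ff y 2) / (M 2 : ℝ) + ((0 : ℤ) : ℝ)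
    rw [m2]
    push_cast
    linear_combination h2 / 6
  · change (((mm x 3 : ℤ) : ℝ) + ff x 3) / (M 3 : ℝ) - (((mm y 3 : ℤ) : ℝ) + ff y 3) / (M 3 : ℝ) =
      (nd x y 3 : ℝ) / 3 + (ff x 3 - ff y 3) / (M 3 : ℝ) + ((0 : ℤ) : ℝ)
    rw [m3]
    push_cast
    linear_combination h3 / 6
  · change (((mm x 4 : ℤ) : ℝ) + ff x 4) / (M 4 : ℝ) - (((mm y 4 : ℤ) : ℝ) + ff y 4) / (M 4 : ℝ) =
      0 + (ff x 4 - ff y 4) / (M 4 : ℝ) + (((mm x 4 - mm y 4) / 15 : ℤ) : ℝ)
    rw [m4]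
    linear_combination ht / 15

theorem ff_close (K1 K2 : ℕ) (x y : V5) (h : cell K1 K2 x = cell K1 K2 y) (i : Fin 5) :
    |(kk K1 K2 i : ℝ) * (ff x i - ff y i)| < 1 := by
  have h2 : ⌊(kk K1 K2 i : ℝ) * ff x i⌋ = ⌊(kk K1 K2 i : ℝ) * ff y i⌋ :=
    congrFun (congrArg Prod.fst h) i
  rw [mul_sub]
  exact Int.abs_sub_lt_one_of_floor_eq_floor h2

theorem box_factor (K1 K2 : ℕ) (hk : ∀ i, 1 ≤ kk K1 K2 i) (x y : V5)
    (h : cell K1 K2 x = cell K1 K2 y) (i : Fin 5) :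
    ∑ c ∈ Finset.range (kk K1 K2 i), ee ((c : ℝ) * ((M i : ℝ) * (x - y) i)) ≠ 0 := by
  have h1 : ∑ c ∈ Finset.range (kk K1 K2 i), ee ((c : ℝ) * ((M i : ℝ) * (x - y) i)) =
      ∑ c ∈ Finset.range (kk K1 K2 i), ee ((c : ℝ) * (ff x i - ff y i)) := by
    refine Finset.sum_congr rfl fun c _ => ?_
    have : (c : ℝ) * ((M i : ℝ) * (x - y) i) =
        (c : ℝ) * (ff x i - ff y i) + ((c * (mm x i - mm y i) : ℤ) : ℝ) := by
      rw [Pi.sub_apply, mul_sub (M i : ℝ), ← mm_add_ff, ← mm_add_ff]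
      push_cast
      ring
    rw [this, ee_add_int]
  rw [h1]
  exact geom_ne_zero _ (hk i) _ (ff_close K1 K2 x y h i)

/-- the frequencies seen by `S` -/
def gg (K1 K2 : ℕ) (x : V5) : V5 := fun i => 64 * ((kk K1 K2 i : ℝ) * ff x i)

theorem ftS_eq (K1 K2 : ℕ) (x y : V5) :
    ft S (scr (rr (nn K1 K2)) (x - y)) = ft S (gg K1 K2 x - gg K1 K2 y) := by
  have : scr (rr (nn K1 K2)) (x - y) = (gg K1 K2 x - gg K1 K2 y) +
      toR (fun i => 64 * (kk K1 K2 i * (mm x i - mm y i))) := by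
    funext i
    simp only [scr, rr, nn, gg, toR, Pi.sub_apply, Pi.add_apply]
    have hx := mm_add_ff x i
    have hy := mm_add_ff y i
    push_cast
    linear_combination (-(64 * (kk K1 K2 i : ℝ))) * hx + 64 * (kk K1 K2 i : ℝ) * hy
  rw [this, ft_add_int]

theorem ftA_eq (N K1 K2 : ℕ) (x y : V5) (h : cell K1 K2 x = cell K1 K2 y) :
    ft (A N) (x - y) = ft (A N) (third (nd x y) + vv x y) := by
  rw [diff_eq K1 K2 x y h, ft_add_int]

end NS

open NS

theorem p_NONSPEC (hgood : T_GOOD) (hftc : T_FTC) (hftb : T_FTB) (hloc : T_LOC) (hz : T_Z)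
    (hs1 : T_S1) (hs2 : T_S2) (hcnt : T_CNT) (hpack : T_PACK) : T_NONSPEC := by
  obtain ⟨C, δ, hC, hδ, hL⟩ := hloc (10 ^ 6) le_rfl
  obtain ⟨δ', hδ', hZ⟩ := hz (10 ^ 6)
  -- choice of K1
  obtain ⟨K, hK⟩ := exists_nat_ge (1 / min δ δ')
  have hmin : 0 < min δ δ' := lt_min hδ hδ'
  set K1 : ℕ := 27 * 10 ^ 6 + 1 + K with hK1
  have hK1a : 27 * 10 ^ 6 + 1 ≤ K1 := by omega
  have hK1b : (1 : ℝ) / K1 ≤ min δ δ' := by
    have h1 : (K : ℝ) ≤ K1 := by exact_mod_cast (by omega : K ≤ K1)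
    have h2 : 0 < (K1 : ℝ) := by exact_mod_cast (by omega : 0 < K1)
    rw [div_le_iff₀ h2]
    have h3 : 1 / min δ δ' ≤ (K1 : ℝ) := hK.trans h1
    rw [div_le_iff₀ hmin] at h3
    linarith [mul_comm (K1 : ℝ) (min δ δ')]
  -- choice of K2
  obtain ⟨K', hK'⟩ := exists_nat_ge (192 * C * K1 * 2000)
  set K2 : ℕ := K1 + K' with hK2
  have hK1pos : 1 ≤ K1 := by omega
  have hK2pos : 1 ≤ K2 := by omega
  have hK12 : K1 ≤ K2 := by omega
  have hK1R : (1 : ℝ) ≤ K1 := by exact_mod_cast hK1pos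
  have hK2R : (1 : ℝ) ≤ K2 := by exact_mod_cast hK2pos
  have hK12R : (K1 : ℝ) ≤ K2 := by exact_mod_cast hK12
  have hK2a : 192 * C * K1 * 2000 ≤ K2 := by
    have h1 : (K' : ℝ) ≤ K2 := by exact_mod_cast (by omega : K' ≤ K2)
    exact hK'.trans h1
  clear_value K2
  clear_value K1
  refine ⟨10 ^ 6, K1, K2, hK1a, hK2pos, ?_⟩
  intro Λ hΛ
  have hG := hgood (10 ^ 6) K1 K2 hK1a hK2pos
  obtain ⟨hCcard, hftC⟩ := hftc (10 ^ 6) K1 K2 hK1pos hK2pos
  obtain ⟨hBcard, hftB⟩ := hftb (nn K1 K2) (Cs (10 ^ 6) K1 K2) hG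
  by_contra hcon
  push Not at hcon
  have hk : ∀ i, 1 ≤ kk K1 K2 i := by
    intro i
    fin_cases i <;> simp [kk, hK1pos, hK2pos]
  have hprod : 0 < ∏ i, kk K1 K2 i := Finset.prod_pos fun i _ => hk i
  have hpig : (cells K1 K2).card * 78 < Λ.card := by
    rw [card_cells]
    rw [hBcard, hCcard] at hcon
    omega
  classical
  obtain ⟨y0, _, hy0⟩ := Finset.exists_lt_card_fiber_of_mul_lt_card_of_maps_to
    (f := cell K1 K2) (s := Λ) (t := cells K1 K2) (fun x _ => cell_mem K1 K2 hk x) hpig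
  set P := Λ.filter (fun x => cell K1 K2 x = y0) with hP
  have hcell : ∀ x ∈ P, ∀ y ∈ P, cell K1 K2 x = cell K1 K2 y := by
    intro x hx y hy
    rw [hP, Finset.mem_filter] at hx hy
    rw [hx.2, hy.2]
  have hort : ∀ x ∈ P, ∀ y ∈ P, x ≠ y →
      ft (A (10 ^ 6)) (x - y) = 0 ∨ ft S (gg K1 K2 x - gg K1 K2 y) = 0 := by
    intro x hx y hy hxy
    have h1 := hΛ x (Finset.mem_filter.mp hx).1 y (Finset.mem_filter.mp hy).1 hxy
    rw [hftB, ftS_eq, hftC] at h1
    rcases mul_eq_zero.mp h1 with h2 | h2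
    · rcases mul_eq_zero.mp h2 with h3 | h3
      · exact Or.inl h3
      · rw [Finset.prod_eq_zero_iff] at h3
        obtain ⟨i, _, h4⟩ := h3
        exact absurd h4 (box_factor K1 K2 hk x y (hcell x hx y hy) i)
    · exact Or.inr h2
  -- size of the small parts
  have hMi : ∀ i, (6 : ℝ) ≤ M i := by
    intro i
    fin_cases i <;> simp [M]
    norm_num
  have hff : ∀ x ∈ P, ∀ y ∈ P, ∀ i, |ff x i - ff y i| ≤ 1 / (kk K1 K2 i : ℝ) := by
    intro x hx y hy i
    have h1 := ff_close K1 K2 x y (hcell x hx y hy) i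
    have h2 : (0 : ℝ) < kk K1 K2 i := by exact_mod_cast hk i
    rw [abs_mul, Nat.abs_cast] at h1
    rw [le_div_iff₀ h2]
    linarith [mul_comm (kk K1 K2 i : ℝ) |ff x i - ff y i|]
  have hvv : ∀ x ∈ P, ∀ y ∈ P, ∀ i, |vv x y i| ≤ 1 / (6 * (kk K1 K2 i : ℝ)) := by
    intro x hx y hy i
    have h1 := hff x hx y hy i
    have h2 : (0 : ℝ) < kk K1 K2 i := by exact_mod_cast hk i
    unfold vv
    rw [abs_div, Nat.abs_cast, div_le_iff₀ (by linarith [hMi i])]
    calc |ff x i - ff y i| ≤ 1 / (kk K1 K2 i : ℝ) := h1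
      _ = 1 / (6 * (kk K1 K2 i : ℝ)) * 6 := by field_simp
      _ ≤ 1 / (6 * (kk K1 K2 i : ℝ)) * M i := by
          exact mul_le_mul_of_nonneg_left (hMi i)
            (div_pos one_pos (mul_pos (by norm_num) h2)).le
  have hkK : ∀ i, (K1 : ℝ) ≤ kk K1 K2 i := by
    intro i
    fin_cases i <;> simp [kk, hK12]
  have hvs : ∀ x ∈ P, ∀ y ∈ P, ∀ i, |vv x y i| ≤ min δ δ' := by
    intro x hx y hy i
    refine (hvv x hx y hy i).trans (le_trans ?_ hK1b)
    have := hkK i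
    apply div_le_div_of_nonneg_left (by norm_num) (by linarith)
    linarith
  have hrelK : ∀ x ∈ P, ∀ y ∈ P, ft (A (10 ^ 6)) (x - y) = 0 →
      ¬ zero3 (nd x y) ∧ ¬ inK (nd x y) := by
    intro x hx y hy h
    rw [ftA_eq (10 ^ 6) K1 K2 x y (hcell x hx y hy)] at h
    have h2 := fun hm => hZ (nd x y) hm (vv x y)
      (fun i => (hvs x hx y hy i).trans (min_le_right _ _)) h
    exact ⟨fun hc => h2 (Or.inl hc), fun hc => h2 (Or.inr hc)⟩
  have hrelS : ∀ x ∈ P, ∀ y ∈ P, ft (A (10 ^ 6)) (x - y) = 0 →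
      |gg K1 K2 x 0 - gg K1 K2 y 0| ≤ 1 / 2000 ∧ |gg K1 K2 x 1 - gg K1 K2 y 1| ≤ 1 / 2000 := by
    intro x hx y hy h
    have hnz := (hrelK x hx y hy h).1
    rw [ftA_eq (10 ^ 6) K1 K2 x y (hcell x hx y hy)] at h
    obtain ⟨h0, h1⟩ := hL (nd x y) hnz (vv x y)
      (fun i => (hvs x hx y hy i).trans (min_le_left _ _)) h
    have e2 := hvv x hx y hy 2
    have e3 := hvv x hx y hy 3
    have e4 := hvv x hx y hy 4
    have k2 : (kk K1 K2 2 : ℝ) = K2 := by simp [kk]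
    have k3 : (kk K1 K2 3 : ℝ) = K2 := by simp [kk]
    have k4 : (kk K1 K2 4 : ℝ) = K2 := by simp [kk]
    rw [k2] at e2
    rw [k3] at e3
    rw [k4] at e4
    have hsum : C * (|vv x y 2| + |vv x y 3| + |vv x y 4|) ≤ C * (1 / (2 * K2)) := by
      apply mul_le_mul_of_nonneg_left _ hC.le
      have : (1 : ℝ) / (2 * K2) = 1 / (6 * K2) + 1 / (6 * K2) + 1 / (6 * K2) := by
        field_simp
        norm_num
      linarith
    have key : 64 * (K1 * (6 * (C * (1 / (2 * K2))))) ≤ (1 : ℝ) / 2000 := by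
      have hK2p : (0 : ℝ) < K2 := by linarith
      have : 64 * (K1 * (6 * (C * (1 / (2 * K2))))) = (192 * C * K1) / (K2 : ℝ) := by
        field_simp
        norm_num
      rw [this, div_le_div_iff₀ hK2p (by norm_num)]
      linarith
    have m0 : (M 0 : ℝ) = 6 := by simp [M]
    have m1 : (M 1 : ℝ) = 6 := by simp [M]
    have k0 : (kk K1 K2 0 : ℝ) = K1 := by simp [kk]
    have k1 : (kk K1 K2 1 : ℝ) = K1 := by simp [kk]
    constructor
    · have e : gg K1 K2 x 0 - gg K1 K2 y 0 = 64 * (K1 * (6 * vv x y 0)) := by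
        unfold gg vv
        rw [m0, k0]
        ring
      rw [e, abs_mul, abs_mul, abs_mul, Nat.abs_cast, abs_of_pos (by norm_num : (0:ℝ) < 64),
        abs_of_pos (by norm_num : (0:ℝ) < 6)]
      refine le_trans ?_ key
      have := h0.trans hsum
      gcongr
    · have e : gg K1 K2 x 1 - gg K1 K2 y 1 = 64 * (K1 * (6 * vv x y 1)) := by
        unfold gg vv
        rw [m1, k1]
        ring
      rw [e, abs_mul, abs_mul, abs_mul, Nat.abs_cast, abs_of_pos (by norm_num : (0:ℝ) < 64),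
        abs_of_pos (by norm_num : (0:ℝ) < 6)]
      refine le_trans ?_ key
      have := h1.trans hsum
      gcongr
  have hfin : P.card ≤ 78 := by
    apply hcnt V5 P (fun x y => ft (A (10 ^ 6)) (x - y) = 0)
    · intro x hx y hy h
      have : y - x = -(x - y) := by abel
      rw [this, ft_neg, h, map_zero]
    · intro x hx y hy z hz h1 h2 hxz
      rcases hort x hx z hz hxz with h | h
      · exact h
      · exfalso
        obtain ⟨a0, a1⟩ := hrelS x hx y hy h1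
        obtain ⟨b0, b1⟩ := hrelS y hy z hz h2
        refine hs1 (gg K1 K2 x - gg K1 K2 z) ?_ ?_ h
        · rw [Pi.sub_apply]
          calc |gg K1 K2 x 0 - gg K1 K2 z 0| ≤ |gg K1 K2 x 0 - gg K1 K2 y 0| +
                |gg K1 K2 y 0 - gg K1 K2 z 0| := abs_sub_le _ _ _
            _ ≤ 1 / 1000 := by linarith
        · rw [Pi.sub_apply]
          calc |gg K1 K2 x 1 - gg K1 K2 z 1| ≤ |gg K1 K2 x 1 - gg K1 K2 y 1| +
                |gg K1 K2 y 1 - gg K1 K2 z 1| := abs_sub_le _ _ _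
            _ ≤ 1 / 1000 := by linarith
    · intro Q hQ hQr
      apply hpack V5 Q (fun x i => mm x i.castSucc)
      intro x hx y hy hxy
      obtain ⟨h1, h2⟩ := hrelK x (hQ hx) y (hQ hy) (hQr x hx y hy hxy)
      have hnd := nd_spec K1 K2 x y (hcell x (hQ hx) y (hQ hy))
      constructor
      · intro h3
        apply h1
        intro i
        have h4 := h3 i
        rw [Pi.sub_apply] at h4
        have h5 := hnd i
        omega
      · rintro ⟨j, hj⟩
        apply h2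
        refine ⟨j, ?_⟩
        rcases hj with hj | hj
        · right
          intro i
          have h4 := hj i
          rw [Pi.sub_apply] at h4
          have h5 := hnd i
          omega
        · left
          intro i
          have h4 := hj i
          rw [Pi.sub_apply] at h4
          have h5 := hnd i
          omega
    · intro Q hQ hQr
      apply hs2 V5 Q (gg K1 K2)
      intro x hx y hy hxy
      rcases hort x (hQ hx) y (hQ hy) hxy with h | h
      · exact absurd h (hQr x hx y hy hxy)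
      · exact h
  omega

end

end SpM
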