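import Pool.Agent.SpM.Targets

/-!
# SpM J10: the spectrum of the self-affine measure of the complete residue system
-/

namespace SpM.ParsJ

open MeasureTheory Finset Filter Topology

noncomputable section

/-- The normalized mask. -/
def mk (D : Finset Z5) (x : V5) : ℂ := ft D x / (D.card : ℂ)

/-- The finite products of masks. -/
def Mk (r : Fin 5 → ℕ) (D : Finset Z5) : ℕ → V5 → ℂ
  | 0, _ => 1
  | k+1, x => mk D (dvr r x) * Mk r D k (dvr r x)

/-- The frequencies of the first level. -/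
def ell (n : Fin 5 → ℕ) (j : Fin 5 → ℕ) : Z5 :=
  fun i => 64 * ((j i : ℤ) - ((n i / 2 : ℕ) : ℤ))

/-- Index set of the first level. -/
def JJ (n : Fin 5 → ℕ) : Finset (Fin 5 → ℕ) := Fintype.piFinset (fun i => Finset.range (n i))

/-- The frequencies of level `k`. -/
def Lam (n : Fin 5 → ℕ) : ℕ → Finset Z5
  | 0 => {0}
  | k+1 => ((JJ n) ×ˢ (Lam n k)).image (fun p => ell n p.1 + scz (rr n) p.2)

theorem ee_sum {ι : Type} (s : Finset ι) (f : ι → ℝ) : ee (∑ i ∈ s, f i) = ∏ i ∈ s, ee (f i) := by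
  classical
  induction s using Finset.induction_on with
  | empty => simp [ee_zero]
  | insert a s ha ih => rw [Finset.sum_insert ha, Finset.prod_insert ha, ee_add, ih]

theorem geo (n : ℕ) (hn : 1 ≤ n) (b : ℤ) (h : ℝ) (hb : ¬ (n : ℤ) ∣ b) :
    ∑ c ∈ Finset.range n, ee ((b : ℝ) * (((c : ℝ) - h) / n)) = 0 := by
  have hn0 : (n : ℝ) ≠ 0 := by positivity
  have h1 : ∀ c ∈ Finset.range n, ee ((b : ℝ) * (((c : ℝ) - h) / n)) =
      ee (-(b : ℝ) * h / n) * ee ((b : ℝ) / n) ^ c := by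
    intro c _
    rw [← ee_nsmul, ← ee_add]
    congr 1
    field_simp
    ring
  rw [Finset.sum_congr rfl h1, ← Finset.mul_sum]
  have hz : ee ((b : ℝ) / n) ≠ 1 := by
    intro hz
    obtain ⟨m, hm⟩ := (ee_eq_one_iff _).mp hz
    apply hb
    refine ⟨m, ?_⟩
    have : (b : ℝ) = n * m := by
      field_simp at hm
      linarith
    exact_mod_cast this
  have hz2 : ee ((b : ℝ) / n) ^ n = 1 := by
    rw [← ee_nsmul]
    have : (n : ℝ) * ((b : ℝ) / n) = b := by field_simp
    rw [this, ee_int]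
  have h3 := mul_geom_sum (ee ((b : ℝ) / n)) n
  rw [hz2, sub_self] at h3
  rcases mul_eq_zero.mp h3 with h | h
  · exact absurd (sub_eq_zero.mp h) hz
  · rw [h, mul_zero]

theorem sumJ (n : Fin 5 → ℕ) (hn : ∀ i, 1 ≤ n i) (b : Z5) (hb : ∃ i, ¬ (n i : ℤ) ∣ b i) :
    ∑ j ∈ JJ n, ee (dot b (dvr (rr n) (toR (ell n j)))) = 0 := by
  have h1 : ∀ j : Fin 5 → ℕ, ee (dot b (dvr (rr n) (toR (ell n j)))) =
      ∏ i, ee ((b i : ℝ) * (((j i : ℝ) - ((n i / 2 : ℕ) : ℝ)) / n i)) := by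
    intro j
    unfold dot
    rw [ee_sum]
    refine Finset.prod_congr rfl fun i _ => ?_
    congr 2
    have : (n i : ℝ) ≠ 0 := by
      have := hn i
      positivity
    simp only [dvr, rr, toR, ell, Int.cast_mul, Int.cast_sub, Int.cast_natCast, Nat.cast_mul]
    generalize ((n i / 2 : ℕ) : ℝ) = h
    push_cast
    field_simp
  rw [Finset.sum_congr rfl (fun j _ => h1 j)]
  unfold JJ
  rw [← Finset.prod_univ_sum (fun i => Finset.range (n i))
    (fun i c => ee ((b i : ℝ) * (((c : ℝ) - ((n i / 2 : ℕ) : ℝ)) / n i)))]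
  obtain ⟨i, hi⟩ := hb
  exact Finset.prod_eq_zero (Finset.mem_univ i) (geo (n i) (hn i) (b i) _ hi)

theorem card_JJ (n : Fin 5 → ℕ) : (JJ n).card = ∏ i, n i := by
  unfold JJ
  rw [Fintype.card_piFinset]
  simp

theorem sq_ft (D : Finset Z5) (y : V5) :
    ((‖ft D y‖ ^ 2 : ℝ) : ℂ) = ∑ d ∈ D, ∑ d' ∈ D, ee (dot (d - d') y) := by
  have h0 : ((‖ft D y‖ ^ 2 : ℝ) : ℂ) = ft D y * (starRingEnd ℂ) (ft D y) := by
    rw [Complex.mul_conj, Complex.normSq_eq_norm_sq]
  rw [h0]
  unfold ft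
  rw [map_sum, Finset.sum_mul_sum]
  refine Finset.sum_congr rfl fun d _ => Finset.sum_congr rfl fun d' _ => ?_
  rw [← ee_neg, ← ee_add]
  congr 1
  simp only [dot, Pi.sub_apply]
  push_cast
  rw [← sub_eq_add_neg, ← Finset.sum_sub_distrib]
  refine Finset.sum_congr rfl fun i _ => ?_
  ring

theorem had (n : Fin 5 → ℕ) (D : Finset Z5) (hn : ∀ i, 1 ≤ n i) (hc : D.card = ∏ i, n i)
    (hd : ∀ d ∈ D, ∀ d' ∈ D, (∀ i, (n i : ℤ) ∣ d i - d' i) → d = d') (x : V5) :
    ∑ j ∈ JJ n, ‖mk D (x + dvr (rr n) (toR (ell n j)))‖ ^ 2 = 1 := by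
  have hpos : 0 < D.card := by
    rw [hc]
    exact Finset.prod_pos fun i _ => hn i
  have hcne : (D.card : ℂ) ≠ 0 := by
    exact_mod_cast hpos.ne'
  have key : ((∑ j ∈ JJ n, ‖mk D (x + dvr (rr n) (toR (ell n j)))‖ ^ 2 : ℝ) : ℂ) = 1 := by
    have h1 : ∀ j ∈ JJ n, ((‖mk D (x + dvr (rr n) (toR (ell n j)))‖ ^ 2 : ℝ) : ℂ) =
        (∑ d ∈ D, ∑ d' ∈ D, ee (dot (d - d') x) *
          ee (dot (d - d') (dvr (rr n) (toR (ell n j))))) / (D.card : ℂ) ^ 2 := by
      intro j _
      unfold mk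
      rw [norm_div, div_pow, Complex.norm_natCast, Complex.ofReal_div, sq_ft]
      congr 1
      · refine Finset.sum_congr rfl fun d _ => Finset.sum_congr rfl fun d' _ => ?_
        rw [dot_add, ee_add]
      · push_cast
        ring
    rw [Complex.ofReal_sum, Finset.sum_congr rfl h1, ← Finset.sum_div, Finset.sum_comm]
    have h2 : ∀ d ∈ D, ∑ j ∈ JJ n, ∑ d' ∈ D, ee (dot (d - d') x) *
        ee (dot (d - d') (dvr (rr n) (toR (ell n j)))) = (D.card : ℂ) := by
      intro d hdD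
      rw [Finset.sum_comm]
      have h3 : ∀ d' ∈ D, ∑ j ∈ JJ n, ee (dot (d - d') x) *
          ee (dot (d - d') (dvr (rr n) (toR (ell n j)))) = if d' = d then (D.card : ℂ) else 0 := by
        intro d' hd'
        rw [← Finset.mul_sum]
        split_ifs with h
        · subst h
          have hz : ∀ y : V5, dot (d' - d') y = 0 := by
            intro y
            simp [dot]
          simp only [hz, ee_zero, Finset.sum_const, card_JJ, one_mul, nsmul_eq_mul, mul_one, hc]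
        · rw [sumJ n hn (d - d'), mul_zero]
          by_contra hcon
          push Not at hcon
          exact h (hd d hdD d' hd' hcon).symm
      rw [Finset.sum_congr rfl h3, Finset.sum_ite_eq' D d, if_pos hdD]
    rw [Finset.sum_congr rfl h2, Finset.sum_const, nsmul_eq_mul]
    field_simp
  exact_mod_cast key

theorem mem_JJ {n : Fin 5 → ℕ} {j : Fin 5 → ℕ} : j ∈ JJ n ↔ ∀ i, j i < n i := by
  unfold JJ
  simp [Fintype.mem_piFinset]

theorem inj (n : Fin 5 → ℕ) (s : Finset Z5) :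
    Set.InjOn (fun p : (Fin 5 → ℕ) × Z5 => ell n p.1 + scz (rr n) p.2)
      ((JJ n ×ˢ s : Finset ((Fin 5 → ℕ) × Z5)) : Set ((Fin 5 → ℕ) × Z5)) := by
  rintro ⟨j, l⟩ h1 ⟨j', l'⟩ h2 h
  simp only [Finset.coe_product, Set.mem_prod, Finset.mem_coe, mem_JJ] at h1 h2
  have key : ∀ i, j i = j' i ∧ l i = l' i := by
    intro i
    have hi := congrFun h i
    simp only [Pi.add_apply, ell, scz, rr] at hi
    have e1 : ((j i : ℤ) - (j' i : ℤ)) = (n i : ℤ) * (l' i - l i) := by
      push_cast at hi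
      linarith
    have b1 : (j i : ℤ) < n i := by exact_mod_cast h1.1 i
    have b2 : (j' i : ℤ) < n i := by exact_mod_cast h2.1 i
    have b3 : (0 : ℤ) ≤ j i := by positivity
    have b4 : (0 : ℤ) ≤ j' i := by positivity
    have hl : l' i - l i = 0 := by
      by_contra hne
      rcases lt_or_gt_of_ne hne with hlt | hgt
      · have : (n i : ℤ) * (l' i - l i) ≤ (n i : ℤ) * (-1) := by
          apply mul_le_mul_of_nonneg_left _ (by positivity)
          omega
        linarith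
      · have : (n i : ℤ) * 1 ≤ (n i : ℤ) * (l' i - l i) := by
          apply mul_le_mul_of_nonneg_left _ (by positivity)
          omega
        linarith
    rw [hl, mul_zero] at e1
    constructor
    · omega
    · omega
  apply Prod.ext
  · funext i
    exact (key i).1
  · funext i
    exact (key i).2

theorem dvr_add (r : Fin 5 → ℕ) (x y : V5) : dvr r (x + y) = dvr r x + dvr r y := by
  funext i
  simp [dvr, add_div]

theorem dvr_scz (n : Fin 5 → ℕ) (hn : ∀ i, 1 ≤ n i) (l : Z5) :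
    dvr (rr n) (toR (scz (rr n) l)) = toR l := by
  funext i
  have : (n i : ℝ) ≠ 0 := by
    have := hn i
    positivity
  simp only [dvr, toR, scz, rr]
  push_cast
  field_simp

theorem toR_add (a b : Z5) : toR (a + b) = toR a + toR b := by
  funext i
  simp [toR]

theorem mk_add_int (D : Finset Z5) (x : V5) (c : Z5) : mk D (x + toR c) = mk D x := by
  unfold mk
  rw [ft_add_int]

theorem sum_Mk (n : Fin 5 → ℕ) (D : Finset Z5) (hn : ∀ i, 1 ≤ n i) (hc : D.card = ∏ i, n i)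
    (hd : ∀ d ∈ D, ∀ d' ∈ D, (∀ i, (n i : ℤ) ∣ d i - d' i) → d = d') (k : ℕ) :
    ∀ x : V5, ∑ l ∈ Lam n k, ‖Mk (rr n) D k (x + toR l)‖ ^ 2 = 1 := by
  induction k with
  | zero => intro x; simp [Lam, Mk]
  | succ k ih =>
    intro x
    rw [Lam, Finset.sum_image (inj n (Lam n k)), Finset.sum_product]
    have h1 : ∀ j ∈ JJ n, ∑ l ∈ Lam n k,
        ‖Mk (rr n) D (k+1) (x + toR (ell n j + scz (rr n) l))‖ ^ 2 =
        ‖mk D (dvr (rr n) x + dvr (rr n) (toR (ell n j)))‖ ^ 2 := by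
      intro j _
      have h2 : ∀ l ∈ Lam n k, ‖Mk (rr n) D (k+1) (x + toR (ell n j + scz (rr n) l))‖ ^ 2 =
          ‖mk D (dvr (rr n) x + dvr (rr n) (toR (ell n j)))‖ ^ 2 *
            ‖Mk (rr n) D k ((dvr (rr n) x + dvr (rr n) (toR (ell n j))) + toR l)‖ ^ 2 := by
        intro l _
        have h3 : dvr (rr n) (x + toR (ell n j + scz (rr n) l)) =
            (dvr (rr n) x + dvr (rr n) (toR (ell n j))) + toR l := by
          rw [toR_add, dvr_add, dvr_add, dvr_scz n hn]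
          abel
        rw [Mk, h3, mk_add_int, norm_mul, mul_pow]
      rw [Finset.sum_congr rfl h2, ← Finset.mul_sum, ih, mul_one]
    rw [Finset.sum_congr rfl h1]
    exact had n D hn hc hd _

theorem zero_mem (n : Fin 5 → ℕ) (hn : ∀ i, 1 ≤ n i) : (0 : Z5) ∈ Lam n 1 := by
  simp only [Lam, Finset.mem_image, Finset.mem_product, Finset.mem_singleton, Prod.exists]
  refine ⟨fun i => n i / 2, 0, ⟨?_, rfl⟩, ?_⟩
  · rw [mem_JJ]
    intro i
    have := hn i
    omega
  · funext i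
    simp [ell, scz]

theorem Lam_mono_succ (n : Fin 5 → ℕ) (hn : ∀ i, 1 ≤ n i) (k : ℕ) : Lam n k ⊆ Lam n (k+1) := by
  induction k with
  | zero =>
    intro l hl
    simp only [Lam, Finset.mem_singleton] at hl
    subst hl
    exact zero_mem n hn
  | succ k ih =>
    rw [Lam, Lam]
    exact Finset.image_subset_image (Finset.product_subset_product (Finset.Subset.refl _) ih)

theorem Lam_mono (n : Fin 5 → ℕ) (hn : ∀ i, 1 ≤ n i) : Monotone (Lam n) :=
  monotone_nat_of_le_succ (Lam_mono_succ n hn)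

theorem Lam_bound (n : Fin 5 → ℕ) (hn : ∀ i, 1 ≤ n i) (k : ℕ) :
    ∀ l ∈ Lam n k, ∀ i, 126 * |(l i : ℝ)| ≤ 64 * (((rr n i : ℕ) : ℝ) ^ k - 1) := by
  induction k with
  | zero => intro l hl i; simp only [Lam, Finset.mem_singleton] at hl; subst hl; simp
  | succ k ih =>
    intro l hl i
    simp only [Lam, Finset.mem_image, Finset.mem_product, Prod.exists] at hl
    obtain ⟨j, l', ⟨hj, hl'⟩, rfl⟩ := hl
    have hj' := mem_JJ.mp hj i
    have h1 := ih l' hl' i
    have hr : (64 : ℝ) ≤ ((rr n i : ℕ) : ℝ) := by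
      have := hn i
      have h : 64 ≤ rr n i := by
        unfold rr
        omega
      exact_mod_cast h
    have hell : 2 * |((ell n j i : ℤ) : ℝ)| ≤ ((rr n i : ℕ) : ℝ) := by
      have h2 : 2 * |ell n j i| ≤ ((rr n i : ℕ) : ℤ) := by
        unfold ell rr
        rw [abs_mul, abs_of_pos (by norm_num : (0:ℤ) < 64)]
        have : 2 * |(j i : ℤ) - ((n i / 2 : ℕ) : ℤ)| ≤ n i := by
          rcases abs_cases ((j i : ℤ) - ((n i / 2 : ℕ) : ℤ)) with ⟨h, _⟩ | ⟨h, _⟩
          · rw [h]; omega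
          · rw [h]; omega
        push_cast
        push_cast at this
        linarith
      exact_mod_cast h2
    have h3 : |(((ell n j + scz (rr n) l') i : ℤ) : ℝ)| ≤
        |((ell n j i : ℤ) : ℝ)| + ((rr n i : ℕ) : ℝ) * |(l' i : ℝ)| := by
      simp only [Pi.add_apply, scz]
      push_cast
      refine (abs_add_le _ _).trans ?_
      rw [abs_mul, abs_of_nonneg (by positivity : (0:ℝ) ≤ ((rr n i : ℕ) : ℝ))]
    have h4 : ((rr n i : ℕ) : ℝ) * (126 * |(l' i : ℝ)|) ≤
        ((rr n i : ℕ) : ℝ) * (64 * (((rr n i : ℕ) : ℝ) ^ k - 1)) :=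
      mul_le_mul_of_nonneg_left h1 (by positivity)
    rw [pow_succ]
    nlinarith

theorem dvr_iter (r : Fin 5 → ℕ) (k : ℕ) (x : V5) :
    (dvr r)^[k] x = fun i => x i / ((r i : ℕ) : ℝ) ^ k := by
  induction k generalizing x with
  | zero => simp
  | succ k ih =>
    rw [Function.iterate_succ_apply, ih]
    funext i
    simp only [dvr]
    rw [div_div, pow_succ, mul_comm]

theorem mhat_iter (r : Fin 5 → ℕ) (D : Finset Z5) (μ : Measure V5)
    (hf : ∀ ξ : V5, mhat μ ξ = ft D (dvr r ξ) / (D.card : ℂ) * mhat μ (dvr r ξ)) (k : ℕ) :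
    ∀ x : V5, mhat μ x = Mk r D k x * mhat μ ((dvr r)^[k] x) := by
  induction k with
  | zero => intro x; simp [Mk]
  | succ k ih =>
    intro x
    rw [Mk, Function.iterate_succ_apply, hf x, ih (dvr r x)]
    unfold mk
    ring

theorem norm_mhat_le (μ : Measure V5) (hμ : IsProbabilityMeasure μ) (ξ : V5) :
    ‖mhat μ ξ‖ ≤ 1 := by
  unfold mhat
  refine (norm_integral_le_integral_norm _).trans ?_
  simp [norm_ee]

theorem integrable_ee (μ : Measure V5) (hμ : IsProbabilityMeasure μ) (ξ : V5) :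
    Integrable (fun x : V5 => ee (∑ i, ξ i * x i)) μ := by
  refine Integrable.of_bound (C := 1) ?_ ?_
  · apply Continuous.aestronglyMeasurable
    exact continuous_ee.comp (by fun_prop)
  · filter_upwards with x
    rw [norm_ee]

theorem mhat_near (μ : Measure V5) (hμ : IsProbabilityMeasure μ)
    (hs : ∀ᵐ x ∂μ, ∀ i, |x i| ≤ 1 / 31) (ξ : V5) :
    ‖mhat μ ξ - 1‖ ≤ 2 * Real.pi * ((∑ i, |ξ i|) / 31) := by
  have h1 : mhat μ ξ - 1 = ∫ x, (ee (∑ i, ξ i * x i) - 1) ∂μ := by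
    unfold mhat
    rw [integral_sub (integrable_ee μ hμ ξ) (integrable_const _)]
    simp
  rw [h1]
  have h2 := norm_integral_le_of_norm_le_const (μ := μ)
    (f := fun x : V5 => ee (∑ i, ξ i * x i) - 1) (C := 2 * Real.pi * ((∑ i, |ξ i|) / 31)) ?_
  · simpa using h2
  · filter_upwards [hs] with x hx
    refine (norm_ee_sub_one_le _).trans ?_
    apply mul_le_mul_of_nonneg_left _ (by positivity)
    refine (Finset.abs_sum_le_sum_abs _ _).trans ?_
    rw [Finset.sum_div]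
    apply Finset.sum_le_sum
    intro i _
    rw [abs_mul]
    have := mul_le_mul_of_nonneg_left (hx i) (abs_nonneg (ξ i))
    linarith

theorem near_half (n : Fin 5 → ℕ) (hn : ∀ i, 1 ≤ n i) (ξ : V5) :
    ∃ k0 : ℕ, ∀ k ≥ k0, ∀ l ∈ Lam n k, ∀ i,
      |((dvr (rr n))^[k] (ξ + toR l)) i| ≤ 52 / 100 := by
  have hr : ∀ i, (64 : ℝ) ≤ ((rr n i : ℕ) : ℝ) := by
    intro i
    have := hn i
    have h : 64 ≤ rr n i := by
      unfold rr
      omega
    exact_mod_cast h
  obtain ⟨k0, hk0⟩ := exists_nat_ge (100 * ∑ i, |ξ i|)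
  refine ⟨k0, fun k hk l hl i => ?_⟩
  rw [dvr_iter]
  have h1 := Lam_bound n hn k l hl i
  have hpos : (0 : ℝ) < ((rr n i : ℕ) : ℝ) ^ k := by
    have := hr i
    positivity
  have h2 : (k : ℝ) ≤ ((rr n i : ℕ) : ℝ) ^ k := by
    have h3 : (k : ℝ) < (2 : ℝ) ^ k := by exact_mod_cast Nat.lt_two_pow_self
    have h4 : (2 : ℝ) ^ k ≤ ((rr n i : ℕ) : ℝ) ^ k :=
      pow_le_pow_left₀ (by norm_num) (by linarith [hr i]) k
    linarith
  have h5 : |ξ i| ≤ ∑ j, |ξ j| :=
    Finset.single_le_sum (f := fun j => |ξ j|) (fun j _ => abs_nonneg _) (Finset.mem_univ i)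
  have hk' : (k0 : ℝ) ≤ k := by exact_mod_cast hk
  simp only [Pi.add_apply, toR]
  rw [abs_div, abs_of_pos hpos, div_le_iff₀ hpos]
  refine (abs_add_le _ _).trans ?_
  linarith

theorem mhat_half (μ : Measure V5) (hμ : IsProbabilityMeasure μ)
    (hs : ∀ᵐ x ∂μ, ∀ i, |x i| ≤ 1 / 31) (ζ : V5) (hζ : ∀ i, |ζ i| ≤ 52 / 100) :
    (45 / 100 : ℝ) ≤ ‖mhat μ ζ‖ := by
  have h1 := mhat_near μ hμ hs ζ
  have h2 : ∑ i, |ζ i| ≤ ∑ _i : Fin 5, (52 / 100 : ℝ) := Finset.sum_le_sum fun i _ => hζ i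
  simp only [Finset.sum_const, Finset.card_univ, Fintype.card_fin, nsmul_eq_mul] at h2
  have h3 : 2 * Real.pi * ((∑ i, |ζ i|) / 31) ≤ 55 / 100 := by
    have hp : Real.pi < 3.15 := Real.pi_lt_d2
    have hp0 := Real.pi_pos
    have h4 : 2 * Real.pi * ((∑ i, |ζ i|) / 31) ≤ 2 * Real.pi * ((5 * (52 / 100)) / 31) := by
      apply mul_le_mul_of_nonneg_left _ (by positivity)
      push_cast at h2
      linarith
    refine h4.trans ?_
    nlinarith
  have h5 : (1 : ℝ) ≤ ‖mhat μ ζ‖ + ‖mhat μ ζ - 1‖ := by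
    have h6 : (1 : ℂ) = mhat μ ζ - (mhat μ ζ - 1) := by ring
    calc (1 : ℝ) = ‖(1 : ℂ)‖ := by simp
      _ = ‖mhat μ ζ - (mhat μ ζ - 1)‖ := by rw [← h6]
      _ ≤ _ := norm_sub_le _ _
  linarith

theorem tendsto_mhat (n : Fin 5 → ℕ) (hn : ∀ i, 1 ≤ n i) (μ : Measure V5)
    (hμ : IsProbabilityMeasure μ) (hs : ∀ᵐ x ∂μ, ∀ i, |x i| ≤ 1 / 31) (x : V5) :
    Tendsto (fun k => mhat μ ((dvr (rr n))^[k] x)) atTop (𝓝 1) := by
  rw [tendsto_iff_norm_sub_tendsto_zero]
  have h1 : Tendsto (fun k : ℕ => 2 * Real.pi * ((∑ i, |((dvr (rr n))^[k] x) i|) / 31)) atTop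
      (𝓝 (2 * Real.pi * ((∑ _i : Fin 5, (0:ℝ)) / 31))) := by
    apply Tendsto.const_mul
    apply Tendsto.div_const
    apply tendsto_finsetSum
    intro i _
    have h2 : (fun k : ℕ => |((dvr (rr n))^[k] x) i|) =
        fun k : ℕ => |x i| * ((((rr n i : ℕ) : ℝ))⁻¹) ^ k := by
      funext k
      rw [dvr_iter]
      simp only
      rw [abs_div, abs_of_nonneg (by positivity : (0:ℝ) ≤ ((rr n i : ℕ) : ℝ) ^ k), inv_pow]
      rfl
    rw [h2]
    have hr : (64 : ℝ) ≤ ((rr n i : ℕ) : ℝ) := by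
      have := hn i
      have h : 64 ≤ rr n i := by
        unfold rr
        omega
      exact_mod_cast h
    have h3 := (tendsto_pow_atTop_nhds_zero_of_lt_one (r := (((rr n i : ℕ) : ℝ))⁻¹)
      (by positivity) (inv_lt_one_of_one_lt₀ (by linarith))).const_mul |x i|
    simpa using h3
  simp only [Finset.sum_const_zero, zero_div, mul_zero] at h1
  exact squeeze_zero (fun _ => norm_nonneg _) (fun k => mhat_near μ hμ hs _) h1

/-- The spectrum. -/
def LL (n : Fin 5 → ℕ) : Set Z5 := {l | ∃ k, l ∈ Lam n k}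

end

end SpM.ParsJ

namespace SpM

open SpM.ParsJ MeasureTheory Finset Filter Topology

theorem p_PARS : T_PARS := by
  classical
  intro n D hn hc hd μ hμ hs hf
  refine ⟨LL n, fun ξ => ?_⟩
  set f : Z5 → ℝ := fun l => ‖mhat μ (ξ + toR l)‖ ^ 2 with hfdef
  have hsum : ∀ k, ∑ l ∈ Lam n k, ‖Mk (rr n) D k (ξ + toR l)‖ ^ 2 = 1 :=
    fun k => sum_Mk n D hn hc hd k ξ
  have hfac : ∀ k, ∀ x : V5, ‖mhat μ x‖ = ‖Mk (rr n) D k x‖ * ‖mhat μ ((dvr (rr n))^[k] x)‖ := by
    intro k x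
    rw [mhat_iter (rr n) D μ hf k x, norm_mul]
  have hle : ∀ k, ∑ l ∈ Lam n k, f l ≤ 1 := by
    intro k
    rw [← hsum k]
    apply Finset.sum_le_sum
    intro l _
    simp only [hfdef]
    rw [hfac k]
    apply pow_le_pow_left₀ (by positivity)
    exact mul_le_of_le_one_right (norm_nonneg _) (norm_mhat_le μ hμ _)
  -- the indicator function
  set F : Z5 → ℝ := Set.indicator (LL n) f with hF
  have hF0 : ∀ l, 0 ≤ F l := by
    intro l
    apply Set.indicator_nonneg
    intro x _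
    simp only [hfdef]
    positivity
  have hFs : Summable F := by
    refine summable_of_sum_le hF0 (c := 1) ?_
    intro u
    have h1 : ∃ k, ∀ x ∈ u, x ∈ LL n → x ∈ Lam n k := by
      have h2 : ∀ x : Z5, ∃ k, x ∈ LL n → x ∈ Lam n k := by
        intro x
        by_cases hx : x ∈ LL n
        · obtain ⟨k, hk⟩ := hx
          exact ⟨k, fun _ => hk⟩
        · exact ⟨0, fun h => absurd h hx⟩
      choose K hK using h2
      refine ⟨u.sup K, fun x hx hxL => ?_⟩
      exact Lam_mono n hn (Finset.le_sup hx) (hK x hxL)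
    obtain ⟨k, hk⟩ := h1
    calc ∑ x ∈ u, F x = ∑ x ∈ u.filter (fun x => x ∈ Lam n k), F x := by
          rw [Finset.sum_filter]
          refine Finset.sum_congr rfl fun x hx => ?_
          split_ifs with h
          · rfl
          · rw [hF, Set.indicator_of_notMem]
            intro hxL
            exact h (hk x hx hxL)
      _ ≤ ∑ x ∈ Lam n k, F x := by
          apply Finset.sum_le_sum_of_subset_of_nonneg
          · intro x hx
            exact (Finset.mem_filter.mp hx).2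
          · intro x _ _
            exact hF0 x
      _ = ∑ x ∈ Lam n k, f x := by
          refine Finset.sum_congr rfl fun x hx => ?_
          rw [hF, Set.indicator_of_mem]
          exact ⟨k, hx⟩
      _ ≤ 1 := hle k
  set g : ℕ → Z5 → ℝ := fun k l => if l ∈ Lam n k then ‖Mk (rr n) D k (ξ + toR l)‖ ^ 2 else 0
    with hg
  have hgt : ∀ k, ∑' l, g k l = 1 := by
    intro k
    rw [tsum_eq_sum (s := Lam n k)]
    · rw [← hsum k]
      refine Finset.sum_congr rfl fun l hl => ?_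
      simp only [hg, if_pos hl]
    · intro l hl
      simp only [hg, if_neg hl]
  obtain ⟨k0, hk0⟩ := near_half n hn ξ
  have hlim : ∀ l, Tendsto (fun k => g k l) atTop (𝓝 (F l)) := by
    intro l
    by_cases hl : l ∈ LL n
    · obtain ⟨k1, hk1⟩ := hl
      have h1 : Tendsto (fun k => (‖mhat μ (ξ + toR l)‖ /
          ‖mhat μ ((dvr (rr n))^[k] (ξ + toR l))‖) ^ 2) atTop
          (𝓝 ((‖mhat μ (ξ + toR l)‖ / ‖(1:ℂ)‖) ^ 2)) := by
        apply Tendsto.pow
        apply Tendsto.div tendsto_const_nhds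
        · exact (tendsto_mhat n hn μ hμ hs _).norm
        · simp
      have h2 : F l = (‖mhat μ (ξ + toR l)‖ / ‖(1:ℂ)‖) ^ 2 := by
        rw [hF, Set.indicator_of_mem (show l ∈ LL n from ⟨k1, hk1⟩)]
        simp [hfdef]
      rw [h2]
      refine Tendsto.congr' ?_ h1
      filter_upwards [eventually_ge_atTop (max k0 k1)] with k hk
      have hmem : l ∈ Lam n k := Lam_mono n hn ((le_max_right k0 k1).trans hk) hk1
      simp only [hg, if_pos hmem]
      have hne : ‖mhat μ ((dvr (rr n))^[k] (ξ + toR l))‖ ≠ 0 := by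
        have := mhat_half μ hμ hs _ (hk0 k ((le_max_left k0 k1).trans hk) l hmem)
        linarith
      rw [hfac k (ξ + toR l), mul_div_assoc, div_self hne, mul_one]
    · have h1 : F l = 0 := by
        rw [hF, Set.indicator_of_notMem hl]
      rw [h1]
      refine Tendsto.congr (fun k => ?_) tendsto_const_nhds
      simp only [hg]
      rw [if_neg]
      intro h
      exact hl ⟨k, h⟩
  have hbd : ∀ᶠ k in atTop, ∀ l, ‖g k l‖ ≤ 5 * F l := by
    filter_upwards [eventually_ge_atTop k0] with k hk l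
    by_cases hl : l ∈ Lam n k
    · have h1 : F l = ‖mhat μ (ξ + toR l)‖ ^ 2 := by
        rw [hF, Set.indicator_of_mem (show l ∈ LL n from ⟨k, hl⟩)]
      simp only [hg, if_pos hl]
      rw [h1, hfac k (ξ + toR l), Real.norm_of_nonneg (by positivity)]
      have h2 := mhat_half μ hμ hs _ (hk0 k hk l hl)
      rw [mul_pow]
      have h3 : (1 / 5 : ℝ) ≤ ‖mhat μ ((dvr (rr n))^[k] (ξ + toR l))‖ ^ 2 := by
        nlinarith
      have h4 : (0 : ℝ) ≤ ‖Mk (rr n) D k (ξ + toR l)‖ ^ 2 := by positivity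
      nlinarith
    · simp only [hg, if_neg hl, norm_zero]
      have := hF0 l
      linarith
  have hfinal := tendsto_tsum_of_dominated_convergence (hFs.mul_left 5) hlim hbd
  have h1 : ∑' l, F l = 1 := by
    refine tendsto_nhds_unique hfinal ?_
    simp only [hgt]
    exact tendsto_const_nhds
  have h2 : HasSum F 1 := h1 ▸ hFs.hasSum
  rw [hF] at h2
  exact (hasSum_subtype_iff_indicator (f := f) (s := LL n)).mpr h2

end SpM
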