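import Pool.Agent.SpM.Targets

/-!
# SpM, job J9: self-affine measures and the functional equation of the Fourier transform
-/

namespace SpM

open MeasureTheory Finset

noncomputable section

namespace SAaux

theorem measurable_tauD (r : Fin 5 → ℕ) (b : Z5) : Measurable (tauD r b) := by
  have : Continuous (tauD r b) := by
    unfold tauD
    fun_prop
  exact this.measurable

theorem continuous_char (ξ : V5) : Continuous fun x : V5 => ee (∑ i, ξ i * x i) := by
  have h := continuous_ee
  fun_prop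

theorem mhat_map (r : Fin 5 → ℕ) (b : Z5) (μ : Measure V5) (ξ : V5) :
    mhat (μ.map (tauD r b)) ξ = ee (dot b (dvr r ξ)) * mhat μ (dvr r ξ) := by
  unfold mhat
  rw [integral_map (measurable_tauD r b).aemeasurable
    (continuous_char ξ).aestronglyMeasurable, ← integral_const_mul]
  congr 1
  funext x
  rw [← ee_add]
  congr 1
  unfold dot
  rw [← Finset.sum_add_distrib]
  refine Finset.sum_congr rfl fun i _ => ?_
  unfold tauD dvr
  ring

/-- The averaged image measure. -/
def avg (r : Fin 5 → ℕ) (B : Finset Z5) (μ : Measure V5) : Measure V5 :=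
  ((B.card : ENNReal))⁻¹ • ∑ b ∈ B, μ.map (tauD r b)

theorem integrable_char (μ : Measure V5) [IsFiniteMeasure μ] (ξ : V5) :
    Integrable (fun x : V5 => ee (∑ i, ξ i * x i)) μ := by
  refine Integrable.mono' (g := fun _ => (1 : ℝ)) (integrable_const _)
    (continuous_char ξ).aestronglyMeasurable ?_
  filter_upwards with x
  rw [norm_ee]

theorem mhat_avg (r : Fin 5 → ℕ) (B : Finset Z5) (μ : Measure V5) [IsFiniteMeasure μ] (ξ : V5) :
    mhat (avg r B μ) ξ = ft B (dvr r ξ) / (B.card : ℂ) * mhat μ (dvr r ξ) := by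
  have h1 : mhat (avg r B μ) ξ
      = ((B.card : ENNReal)⁻¹).toReal • ∑ b ∈ B, mhat (μ.map (tauD r b)) ξ := by
    unfold mhat avg
    rw [integral_smul_measure, integral_finsetSum_measure]
    intro b _
    have : IsFiniteMeasure (μ.map (tauD r b)) := inferInstance
    exact integrable_char _ ξ
  rw [h1]
  simp_rw [mhat_map]
  rw [← Finset.sum_mul]
  unfold ft
  rw [Complex.real_smul, ENNReal.toReal_inv, ENNReal.toReal_natCast]
  push_cast
  ring

theorem prob_avg (r : Fin 5 → ℕ) (B : Finset Z5) (hB : B.Nonempty) (μ : Measure V5)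
    [IsProbabilityMeasure μ] : IsProbabilityMeasure (avg r B μ) := by
  constructor
  unfold avg
  rw [Measure.smul_apply, Measure.finsetSum_apply]
  have h : ∀ b ∈ B, (μ.map (tauD r b)) Set.univ = 1 := by
    intro b _
    have : IsProbabilityMeasure (μ.map (tauD r b)) :=
      Measure.isProbabilityMeasure_map (measurable_tauD r b).aemeasurable
    exact measure_univ
  rw [Finset.sum_congr rfl h, Finset.sum_const, nsmul_eq_mul, mul_one, smul_eq_mul]
  exact ENNReal.inv_mul_cancel (by simpa using hB.ne_empty) (by simp)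

theorem mhat_zero (μ : Measure V5) [IsProbabilityMeasure μ] : mhat μ 0 = 1 := by
  unfold mhat
  simp [ee_zero]

theorem continuous_mhat (μ : Measure V5) [IsFiniteMeasure μ] : Continuous (mhat μ) := by
  unfold mhat
  refine continuous_of_dominated (bound := fun _ => (1 : ℝ)) ?_ ?_ (integrable_const _) ?_
  · intro ξ
    exact (continuous_char ξ).aestronglyMeasurable
  · intro ξ
    filter_upwards with x
    rw [norm_ee]
  · filter_upwards with x
    have h := continuous_ee
    fun_prop

theorem norm_mask_le (B : Finset Z5) (x : V5) : ‖ft B x / (B.card : ℂ)‖ ≤ 1 := by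
  rw [norm_div, Complex.norm_natCast]
  refine div_le_one_of_le₀ ?_ (Nat.cast_nonneg _)
  unfold ft
  refine (norm_sum_le _ _).trans ?_
  simp [norm_ee]

theorem iter_dvr (r : Fin 5 → ℕ) (ξ : V5) (n : ℕ) (i : Fin 5) :
    (dvr r)^[n] ξ i = ξ i / (r i : ℝ) ^ n := by
  induction n with
  | zero => simp
  | succ n ih =>
    rw [Function.iterate_succ_apply']
    unfold dvr at ih ⊢
    rw [ih, pow_succ, div_div]

theorem tendsto_iter (r : Fin 5 → ℕ) (hr : ∀ i, 2 ≤ r i) (ξ : V5) :
    Filter.Tendsto (fun n : ℕ => (dvr r)^[n] ξ) Filter.atTop (nhds 0) := by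
  rw [tendsto_pi_nhds]
  intro i
  have h2 : (1 : ℝ) < (r i : ℝ) := by
    have := hr i
    have : (2 : ℝ) ≤ (r i : ℝ) := by exact_mod_cast this
    linarith
  have h := (tendsto_pow_atTop_atTop_of_one_lt h2)
  have h3 : Filter.Tendsto (fun n : ℕ => ξ i / (r i : ℝ) ^ n) Filter.atTop (nhds 0) :=
    Filter.Tendsto.const_div_atTop h _
  refine h3.congr fun n => ?_
  rw [iter_dvr]

end SAaux

open SAaux

/-- Self-affinity is the functional equation of the Fourier transform. -/
theorem p_SA (h : T_EXT) : T_SA := by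
  intro r B _hr hB μ hμ
  have hav : IsProbabilityMeasure (avg r B μ) := prob_avg r B hB μ
  constructor
  · rintro ⟨_, hs⟩ ξ
    have h1 := mhat_avg r B μ ξ
    have h2 : avg r B μ = μ := hs.symm
    rw [h2] at h1
    exact h1
  · intro hf
    refine ⟨hμ, ?_⟩
    refine h 5 μ (avg r B μ) inferInstance inferInstance fun ξ => ?_
    rw [mhat_avg, hf]

/-- Uniqueness of the self-affine measure. -/
theorem p_UNIQ (h : T_EXT) (h2 : T_SA) : T_UNIQ := by
  intro r B hr hB μ ν hμ hν
  have iμ : IsProbabilityMeasure μ := hμ.1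
  have iν : IsProbabilityMeasure ν := hν.1
  have fμ := (h2 r B hr hB μ iμ).mp hμ
  have fν := (h2 r B hr hB ν iν).mp hν
  refine h 5 μ ν inferInstance inferInstance fun ξ => ?_
  have step : ∀ ζ : V5, ‖mhat μ ζ - mhat ν ζ‖ ≤ ‖mhat μ (dvr r ζ) - mhat ν (dvr r ζ)‖ := by
    intro ζ
    rw [fμ ζ, fν ζ, ← mul_sub, norm_mul]
    have := norm_mask_le B (dvr r ζ)
    calc _ ≤ 1 * ‖mhat μ (dvr r ζ) - mhat ν (dvr r ζ)‖ := by gcongr
      _ = _ := one_mul _
  have iter : ∀ n : ℕ, ‖mhat μ ξ - mhat ν ξ‖
      ≤ ‖mhat μ ((dvr r)^[n] ξ) - mhat ν ((dvr r)^[n] ξ)‖ := by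
    intro n
    induction n with
    | zero => simp
    | succ n ih =>
      refine ih.trans ?_
      rw [Function.iterate_succ_apply']
      exact step _
  have lim : Filter.Tendsto
      (fun n : ℕ => ‖mhat μ ((dvr r)^[n] ξ) - mhat ν ((dvr r)^[n] ξ)‖) Filter.atTop (nhds 0) := by
    have hc : Continuous fun ζ : V5 => ‖mhat μ ζ - mhat ν ζ‖ :=
      ((continuous_mhat μ).sub (continuous_mhat ν)).norm
    have h3 := (hc.tendsto 0).comp (tendsto_iter r hr ξ)
    simpa [mhat_zero, Function.comp_def] using h3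
  have h4 : ‖mhat μ ξ - mhat ν ξ‖ ≤ 0 := ge_of_tendsto' lim iter
  have h5 : mhat μ ξ - mhat ν ξ = 0 := norm_le_zero_iff.mp h4
  exact sub_eq_zero.mp h5

/-- Convolution with the uniform measure on `S`. -/
theorem p_TRANS : T_TRANS := by
  intro μ hμ
  have hcard : S.card = 6 := by decide
  have hS : S.Nonempty := by
    rw [← Finset.card_pos, hcard]
    norm_num
  refine ⟨avg (fun _ => 1) S μ, prob_avg _ _ hS μ, fun ξ => ?_⟩
  have h1 : dvr (fun _ => 1) ξ = ξ := by
    funext i
    simp [dvr]
  rw [mhat_avg, hcard, h1]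
  norm_num

end

end SpM
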