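import Pool.Agent.SpM.Targets

/-!
# SpM, job J11: the spectrum of `δ_S * μ_D`, existence of attractors
-/

namespace SpM

open MeasureTheory Finset

noncomputable section

namespace SBaux

/-- The point `l + k φ_0/6`. -/
def fpt (Λ : Set Z5) (p : Σ _ : Fin 6, Λ) : V5 := toR (p.2 : Z5) + lS p.1

theorem fpt_injective (Λ : Set Z5) : Function.Injective (fpt Λ) := by
  rintro ⟨k, l⟩ ⟨k', l'⟩ h
  have h1 := congrFun h 1
  simp only [fpt, toR, lS, Pi.add_apply, Matrix.cons_val_one, Matrix.cons_val_zero] at h1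
  have h2 : (6 * (l : Z5) 1 + ((k : ℕ) : ℤ) : ℤ) = 6 * (l' : Z5) 1 + ((k' : ℕ) : ℤ) := by
    have : ((6 * (l : Z5) 1 + ((k : ℕ) : ℤ) : ℤ) : ℝ) = ((6 * (l' : Z5) 1 + ((k' : ℕ) : ℤ) : ℤ) : ℝ) := by
      push_cast
      linarith
    exact_mod_cast this
  have hk : k = k' := by
    have e1 := k.2
    have e2 := k'.2
    apply Fin.ext
    omega
  subst hk
  have h3 : (l : Z5) = l' := by
    funext i
    have h4 := congrFun h i
    simp only [fpt, Pi.add_apply, toR] at h4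
    have h5 : (((l : Z5) i : ℤ) : ℝ) = ((l' : Z5) i : ℤ) := by linarith
    exact_mod_cast h5
  have h6 : l = l' := Subtype.ext h3
  rw [h6]

/-- The point of the attractor with a given sequence of digits. -/
def Phi (r : Fin 5 → ℕ) (B : Finset Z5) (w : ℕ → B) : V5 :=
  fun i => ∑' k : ℕ, (((w k : Z5) i : ℤ) : ℝ) / (r i : ℝ) ^ (k + 1)

/-- A bound for the digits. -/
def bd (B : Finset Z5) (i : Fin 5) : ℝ := ∑ b ∈ B, |((b i : ℤ) : ℝ)|

theorem term_bound (r : Fin 5 → ℕ) (hr : ∀ i, 2 ≤ r i) (B : Finset Z5) (i : Fin 5) (k : ℕ)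
    (w : ℕ → B) :
    ‖(((w k : Z5) i : ℤ) : ℝ) / (r i : ℝ) ^ (k + 1)‖ ≤ bd B i * (1 / 2) ^ k := by
  have h2 : (2 : ℝ) ≤ (r i : ℝ) := by exact_mod_cast hr i
  rw [norm_div, Real.norm_eq_abs, norm_pow, Real.norm_of_nonneg (by linarith : (0:ℝ) ≤ r i)]
  have h3 : |(((w k : Z5) i : ℤ) : ℝ)| ≤ bd B i :=
    Finset.single_le_sum (f := fun b : Z5 => |((b i : ℤ) : ℝ)|) (fun b _ => abs_nonneg _) (w k).2
  have h0 : 0 ≤ bd B i := (abs_nonneg _).trans h3
  have h4 : (2 : ℝ) ^ k ≤ (r i : ℝ) ^ (k + 1) := by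
    calc (2 : ℝ) ^ k ≤ 2 ^ (k + 1) := pow_le_pow_right₀ (by norm_num) (by omega)
      _ ≤ (r i : ℝ) ^ (k + 1) := pow_le_pow_left₀ (by norm_num) h2 _
  calc |(((w k : Z5) i : ℤ) : ℝ)| / (r i : ℝ) ^ (k + 1)
      ≤ bd B i / 2 ^ k := div_le_div₀ h0 h3 (by positivity) h4
    _ = bd B i * (1 / 2) ^ k := by
      rw [one_div, inv_pow]
      rfl

theorem summable_bound (B : Finset Z5) (i : Fin 5) :
    Summable fun k : ℕ => bd B i * (1 / 2 : ℝ) ^ k :=
  (summable_geometric_of_lt_one (by norm_num) (by norm_num)).mul_left _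

theorem summable_term (r : Fin 5 → ℕ) (hr : ∀ i, 2 ≤ r i) (B : Finset Z5) (i : Fin 5)
    (w : ℕ → B) : Summable fun k : ℕ => (((w k : Z5) i : ℤ) : ℝ) / (r i : ℝ) ^ (k + 1) :=
  Summable.of_norm_bounded (summable_bound B i) fun k => term_bound r hr B i k w

theorem continuous_Phi (r : Fin 5 → ℕ) (hr : ∀ i, 2 ≤ r i) (B : Finset Z5) :
    Continuous (Phi r B) := by
  refine continuous_pi fun i => ?_
  refine continuous_tsum (u := fun k : ℕ => bd B i * (1 / 2 : ℝ) ^ k) (fun k => ?_)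
    (summable_bound B i) fun k w => term_bound r hr B i k w
  have h1 : Continuous fun w : ℕ → B => w k := continuous_apply k
  have h2 : Continuous fun b : B => (((b : Z5) i : ℤ) : ℝ) := continuous_of_discreteTopology
  exact (h2.comp h1).div_const _

theorem Phi_eq (r : Fin 5 → ℕ) (hr : ∀ i, 2 ≤ r i) (B : Finset Z5) (w : ℕ → B) :
    Phi r B w = tauD r (w 0) (Phi r B fun k => w (k + 1)) := by
  funext i
  have h2 : (2 : ℝ) ≤ (r i : ℝ) := by exact_mod_cast hr i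
  have h0 : (r i : ℝ) ≠ 0 := by positivity
  unfold Phi tauD
  rw [(summable_term r hr B i w).tsum_eq_zero_add]
  rw [add_div, ← tsum_div_const, add_comm]
  congr 1
  · congr 1
    funext k
    rw [div_div, ← pow_succ]
  · simp

end SBaux

open SBaux

/-- Passing from `μ_D` to `μ_B = δ_S * μ_D`. -/
theorem p_SB (h : T_S3) : T_SB := by
  intro Λ g hg
  refine ⟨Set.range (fpt Λ), Set.countable_range _, fun ξ => ?_⟩
  rw [← (Equiv.ofInjective (fpt Λ) (fpt_injective Λ)).hasSum_iff]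
  have hfib : ∀ k : Fin 6, HasSum (fun l : Λ =>
      ((fun l : Set.range (fpt Λ) => ‖ft S (ξ + l) / 6 * g (ξ + l)‖ ^ 2) ∘
        (Equiv.ofInjective (fpt Λ) (fpt_injective Λ))) ⟨k, l⟩)
      (‖ft S (ξ + lS k) / 6‖ ^ 2) := by
    intro k
    have h1 := (hg (ξ + lS k)).mul_left (‖ft S (ξ + lS k) / 6‖ ^ 2)
    rw [mul_one] at h1
    have h2 : (fun l : Λ =>
      ((fun l : Set.range (fpt Λ) => ‖ft S (ξ + l) / 6 * g (ξ + l)‖ ^ 2) ∘
        (Equiv.ofInjective (fpt Λ) (fpt_injective Λ))) ⟨k, l⟩)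
        = fun l : Λ => ‖ft S (ξ + lS k) / 6‖ ^ 2 * ‖g (ξ + lS k + toR (l : Z5))‖ ^ 2 := by
      funext l
      simp only [Function.comp_apply, Equiv.ofInjective_apply]
      have h3 : ξ + fpt Λ ⟨k, l⟩ = ξ + lS k + toR (l : Z5) := by
        unfold fpt
        abel
      rw [h3, ft_add_int, norm_mul, mul_pow]
    rw [h2]
    exact h1
  refine HasSum.sigma_of_hasSum (g := fun k : Fin 6 => ‖ft S (ξ + lS k) / 6‖ ^ 2) ?_ hfib ?_
  · have h3 := hasSum_fintype (fun k : Fin 6 => ‖ft S (ξ + lS k) / 6‖ ^ 2)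
    rw [h ξ] at h3
    exact h3
  · rw [summable_sigma_of_nonneg (fun p => by
      simp only [Function.comp_apply]
      exact sq_nonneg _)]
    refine ⟨fun k => (hfib k).summable, ?_⟩
    exact (hasSum_fintype _).summable

theorem p_ATT : T_ATT := by
  intro r B hr hB
  have hne : Nonempty B := hB.to_subtype
  refine ⟨Set.range (Phi r B), ?_, Set.range_nonempty _, ?_⟩
  · exact isCompact_range (continuous_Phi r hr B)
  · ext x
    simp only [Set.mem_range, Set.mem_iUnion, Set.mem_image, exists_prop]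
    constructor
    · rintro ⟨w, rfl⟩
      exact ⟨w 0, (w 0).2, Phi r B fun k => w (k + 1), ⟨_, rfl⟩, (Phi_eq r hr B w).symm⟩
    · rintro ⟨b, hb, y, ⟨w, rfl⟩, rfl⟩
      refine ⟨fun k => Nat.casesOn k ⟨b, hb⟩ w, ?_⟩
      rw [Phi_eq r hr B]
      rfl

end

end SpM
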