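import Pool.Agent.SpM.Targets

/-! J12: strong separation. -/

namespace SpM

namespace Sep_

open Finset

theorem mem_BB {n : Fin 5 → ℕ} {C : Finset Z5} {b : Z5} (hb : b ∈ BB n C) :
    ∃ c ∈ C, ∃ s ∈ S, b = c + scz (rr n) s := by
  unfold BB at hb
  rw [mem_image] at hb
  obtain ⟨⟨c, s⟩, h1, h2⟩ := hb
  rw [mem_product] at h1
  exact ⟨c, h1.1, s, h1.2, h2.symm⟩

theorem near {n : Fin 5 → ℕ} {C : Finset Z5} (G : Good n C) {T : Set V5}
    (hT : Attr (rr n) (BB n C) T) {K : ℝ} (hK0 : 0 ≤ K) (hK : ∀ t ∈ T, ∀ i, |t i| ≤ K) (m : ℕ) :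
    ∀ t ∈ T, ∃ s ∈ S, ∀ i, |t i - (s i : ℝ)| ≤ 2 / 63 + K / 64 ^ m := by
  induction m with
  | zero =>
    intro t ht
    refine ⟨![0,0,0,0,0], by simp [S], fun i => ?_⟩
    have h := hK t ht i
    have e : ((![0,0,0,0,0] : Z5) i : ℝ) = 0 := by fin_cases i <;> simp
    rw [e, sub_zero, pow_zero, div_one]
    linarith
  | succ m ih =>
    intro t ht
    rw [hT.2.2] at ht
    simp only [Set.mem_iUnion, Set.mem_image, exists_prop] at ht
    obtain ⟨b, hb, t', ht', rfl⟩ := ht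
    obtain ⟨c, hc, s, hs, rfl⟩ := mem_BB hb
    obtain ⟨s', hs', h'⟩ := ih t' ht'
    refine ⟨s, hs, fun i => ?_⟩
    have hn : (1 : ℝ) ≤ n i := by exact_mod_cast G.pos i
    have hb' : |(c i : ℝ) + (s' i : ℝ)| ≤ 2 * (n i : ℝ) := by
      have := G.bound c hc s' hs' i
      exact_mod_cast this
    have e : tauD (rr n) (c + scz (rr n) s) t' i - (s i : ℝ) =
        (((c i : ℝ) + (s' i : ℝ)) + (t' i - (s' i : ℝ))) / (64 * (n i : ℝ)) := by
      unfold tauD scz rr
      have : (n i : ℝ) ≠ 0 := by linarith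
      simp only [Pi.add_apply]
      push_cast
      field_simp
      ring
    rw [e, abs_div, abs_of_pos (by linarith : (0 : ℝ) < 64 * (n i : ℝ)),
      div_le_iff₀ (by linarith)]
    have h1 := abs_add_le ((c i : ℝ) + (s' i : ℝ)) (t' i - (s' i : ℝ))
    have h2 := h' i
    have h3 : K / 64 ^ m = 64 * (K / 64 ^ (m + 1)) := by
      rw [pow_succ]; field_simp
    have h4 : 0 ≤ K / 64 ^ (m + 1) := by positivity
    have h5 : (2 / 63 + K / 64 ^ (m + 1)) * (64 * (n i : ℝ)) =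
        2 * (64 / 63) * (n i : ℝ) + 64 * (K / 64 ^ (m + 1)) * (n i : ℝ) := by ring
    rw [h5]
    have h6 : 64 * (K / 64 ^ (m + 1)) ≤ 64 * (K / 64 ^ (m + 1)) * (n i : ℝ) :=
      le_mul_of_one_le_right (by positivity) hn
    linarith

end Sep_

open Sep_ Finset in
theorem p_SEP : T_SEP := by
  intro n C G T hT b hb b' hb' hne
  obtain ⟨K, hK⟩ := hT.1.isBounded.exists_norm_le
  have hK' : ∀ t ∈ T, ∀ i, |t i| ≤ max K 0 := fun t ht i =>
    ((norm_le_pi_norm t i).trans (hK t ht)).trans (le_max_left _ _)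
  have hK0 : 0 ≤ max K 0 := le_max_right _ _
  obtain ⟨m, hm⟩ := exists_pow_lt_of_lt_one (x := 1 / (4 * (max K 0 + 1))) (y := (1 / 64 : ℝ))
    (by positivity) (by norm_num)
  have hsm : max K 0 / 64 ^ m ≤ 1 / 4 := by
    rw [div_eq_mul_inv, ← inv_pow, inv_eq_one_div]
    have h1 : max K 0 * (1 / 64) ^ m ≤ max K 0 * (1 / (4 * (max K 0 + 1))) :=
      mul_le_mul_of_nonneg_left hm.le hK0
    refine h1.trans ?_
    rw [mul_one_div, div_le_div_iff₀ (by positivity) (by norm_num)]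
    linarith
  rw [Set.disjoint_left]
  rintro x ⟨t, ht, hx⟩ ⟨t', ht', hx'⟩
  obtain ⟨c, hc, s, hs, rfl⟩ := mem_BB hb
  obtain ⟨c', hc', s', hs', rfl⟩ := mem_BB hb'
  obtain ⟨u, hu, hu'⟩ := near G hT hK0 hK' m t ht
  obtain ⟨v, hv, hv'⟩ := near G hT hK0 hK' m t' ht'
  have key : ∀ i, c i + (64 * (n i : ℤ)) * s i + u i = c' i + (64 * (n i : ℤ)) * s' i + v i := by
    intro i
    have hn : (1 : ℝ) ≤ n i := by exact_mod_cast G.pos i
    have h1 := congrFun (hx.trans hx'.symm) i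
    unfold tauD scz rr at h1
    simp only [Pi.add_apply] at h1
    push_cast at h1
    have h2 : t i + ((c i : ℝ) + 64 * (n i : ℝ) * s i) =
        t' i + ((c' i : ℝ) + 64 * (n i : ℝ) * s' i) := by
      have h0 : (64 * (n i : ℝ)) ≠ 0 := by positivity
      field_simp at h1
      linarith
    have h3 := abs_le.1 (hu' i)
    have h4 := abs_le.1 (hv' i)
    have h5 : (((c i + (64 * (n i : ℤ)) * s i + u i) -
        (c' i + (64 * (n i : ℤ)) * s' i + v i) : ℤ) : ℝ) =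
        (t' i - (v i : ℝ)) - (t i - (u i : ℝ)) := by
      push_cast
      linarith
    have h6 : |(((c i + (64 * (n i : ℤ)) * s i + u i) -
        (c' i + (64 * (n i : ℤ)) * s' i + v i) : ℤ) : ℝ)| < 1 := by
      rw [h5, abs_lt]
      constructor <;> linarith [h3.1, h3.2, h4.1, h4.2]
    have h7 : |(c i + (64 * (n i : ℤ)) * s i + u i) -
        (c' i + (64 * (n i : ℤ)) * s' i + v i)| < 1 := by exact_mod_cast h6
    have h8 := Int.abs_lt_one_iff.1 h7
    linarith
  have hdiv : ∀ i, (n i : ℤ) ∣ (c i + u i) - (c' i + v i) := by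
    intro i
    refine ⟨64 * (s' i - s i), ?_⟩
    have := key i
    linear_combination this
  obtain ⟨h1, h2⟩ := G.inj c hc c' hc' u hu v hv hdiv
  subst h1 h2
  apply hne
  congr 1
  funext i
  have h3 := key i
  unfold scz rr
  push_cast
  linarith

end SpM
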