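import Pool.Agent.SpM.Targets

/-! J5: the six-point set `S`. -/

namespace SpM

open Finset

namespace Six

theorem ft_S (u : V5) : ft S u = 1 + ee (u 0) + ee (u 1) + ee (u 2) + ee (u 3) +
    ee (-u 0 - u 1 + 2 * u 2 + 2 * u 3) := by
  unfold ft S
  rw [Finset.sum_insert (by decide), Finset.sum_insert (by decide), Finset.sum_insert (by decide),
    Finset.sum_insert (by decide), Finset.sum_insert (by decide), Finset.sum_singleton]
  have h0 : dot ![0,0,0,0,0] u = 0 := by simp [dot, Fin.sum_univ_five]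
  have h1 : dot ![1,0,0,0,0] u = u 0 := by simp [dot, Fin.sum_univ_five]
  have h2 : dot ![0,1,0,0,0] u = u 1 := by simp [dot, Fin.sum_univ_five]
  have h3 : dot ![0,0,1,0,0] u = u 2 := by simp [dot, Fin.sum_univ_five]
  have h4 : dot ![0,0,0,1,0] u = u 3 := by simp [dot, Fin.sum_univ_five]
  have h5 : dot ![-1,-1,2,2,0] u = -u 0 - u 1 + 2 * u 2 + 2 * u 3 := by
    simp [dot, Fin.sum_univ_five]
    ring
  rw [h0, h1, h2, h3, h4, h5, ee_zero]
  ring

theorem norm_one_add_sq (z : ℂ) (hz : ‖z‖ = 1) : ‖1 + z‖ ^ 2 = 2 * (1 + z.re) := by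
  have h1 : z.re ^ 2 + z.im ^ 2 = 1 := by
    have := Complex.sq_norm z
    rw [hz, Complex.normSq_apply] at this
    nlinarith
  rw [Complex.sq_norm, Complex.normSq_apply]
  simp only [Complex.add_re, Complex.one_re, Complex.add_im, Complex.one_im, zero_add]
  nlinarith

theorem re_ge (z : ℂ) (hz : ‖z‖ = 1) : -1 ≤ z.re := by
  have := Complex.abs_re_le_norm z
  rw [hz] at this
  exact (abs_le.1 this).1

theorem main_bound (a b : ℂ) (ha : ‖a‖ = 1) (hb : ‖b‖ = 1) :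
    3 / 100 ≤ ‖3 + a + b + (a * b) ^ 2‖ := by
  by_contra hcon
  push Not at hcon
  have hz : ‖(a * b) ^ 2‖ = 1 := by rw [norm_pow, norm_mul, ha, hb]; norm_num
  have hre : (3 + a + b + (a * b) ^ 2).re ≤ ‖3 + a + b + (a * b) ^ 2‖ := Complex.re_le_norm _
  have hre2 : (3 + a + b + (a * b) ^ 2).re = 3 + a.re + b.re + ((a * b) ^ 2).re := by
    simp
  have ra := re_ge a ha
  have rb := re_ge b hb
  have rz := re_ge _ hz
  have na := norm_one_add_sq a ha
  have nb := norm_one_add_sq b hb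
  have nz := norm_one_add_sq _ hz
  have pa := norm_nonneg (1 + a)
  have pb := norm_nonneg (1 + b)
  have pz := norm_nonneg (1 + (a * b) ^ 2)
  have la : ‖1 + a‖ ≤ 1 / 4 := by nlinarith
  have lb : ‖1 + b‖ ≤ 1 / 4 := by nlinarith
  have lz : ‖1 + (a * b) ^ 2‖ ≤ 1 / 4 := by nlinarith
  have h1 : ‖a * b - 1‖ ≤ 1 / 2 := by
    have e : a * b - 1 = a * (1 + b) - (1 + a) := by ring
    rw [e]
    calc ‖a * (1 + b) - (1 + a)‖ ≤ ‖a * (1 + b)‖ + ‖1 + a‖ := norm_sub_le _ _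
      _ ≤ 1 / 4 + 1 / 4 := by
          rw [norm_mul, ha, one_mul]
          linarith
      _ = 1 / 2 := by norm_num
  have h2 : ‖(a * b) ^ 2 - 1‖ ≤ 1 := by
    have e : (a * b) ^ 2 - 1 = (a * b - 1) * (a * b + 1) := by ring
    rw [e, norm_mul]
    have h3 : ‖a * b + 1‖ ≤ 2 := by
      calc ‖a * b + 1‖ ≤ ‖a * b‖ + ‖(1 : ℂ)‖ := norm_add_le _ _
        _ = 2 := by rw [norm_mul, ha, hb]; norm_num
    calc ‖a * b - 1‖ * ‖a * b + 1‖ ≤ 1 / 2 * 2 :=
          mul_le_mul h1 h3 (norm_nonneg _) (by norm_num)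
      _ = 1 := by norm_num
  have h4 : ‖(2 : ℂ)‖ ≤ ‖1 + (a * b) ^ 2‖ + ‖(a * b) ^ 2 - 1‖ := by
    have e : (2 : ℂ) = (1 + (a * b) ^ 2) - ((a * b) ^ 2 - 1) := by ring
    calc ‖(2 : ℂ)‖ = ‖(1 + (a * b) ^ 2) - ((a * b) ^ 2 - 1)‖ := by rw [← e]
      _ ≤ _ := norm_sub_le _ _
  have h5 : ‖(2 : ℂ)‖ = 2 := by norm_num
  rw [h5] at h4
  linarith

end Six

theorem p_S1 : T_S1 := by
  intro u h0 h1 hz
  rw [Six.ft_S] at hz
  have e : ee (-u 0 - u 1 + 2 * u 2 + 2 * u 3) = ee (-u 0 - u 1) * (ee (u 2) * ee (u 3)) ^ 2 := by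
    have : -u 0 - u 1 + 2 * u 2 + 2 * u 3 = (-u 0 - u 1) + ((u 2 + u 3) + (u 2 + u 3)) := by ring
    rw [this, ee_add, ee_add, ee_add]
    ring
  rw [e] at hz
  have hb := Six.main_bound (ee (u 2)) (ee (u 3)) (norm_ee _) (norm_ee _)
  have hid : 3 + ee (u 2) + ee (u 3) + (ee (u 2) * ee (u 3)) ^ 2 =
      (1 - ee (u 0)) + (1 - ee (u 1)) + (1 - ee (-u 0 - u 1)) * (ee (u 2) * ee (u 3)) ^ 2 := by
    linear_combination hz
  rw [hid] at hb
  have hpi := Real.pi_lt_d2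
  have hpi0 := Real.pi_pos
  have b0 : ‖1 - ee (u 0)‖ ≤ 7 / 1000 := by
    rw [norm_sub_rev]
    refine (norm_ee_sub_one_le _).trans ?_
    have := abs_nonneg (u 0)
    nlinarith
  have b1 : ‖1 - ee (u 1)‖ ≤ 7 / 1000 := by
    rw [norm_sub_rev]
    refine (norm_ee_sub_one_le _).trans ?_
    have := abs_nonneg (u 1)
    nlinarith
  have b2 : ‖1 - ee (-u 0 - u 1)‖ ≤ 14 / 1000 := by
    rw [norm_sub_rev]
    refine (norm_ee_sub_one_le _).trans ?_
    have h3 : |-u 0 - u 1| ≤ 2 / 1000 := by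
      rw [abs_le] at h0 h1 ⊢
      constructor <;> linarith [h0.1, h0.2, h1.1, h1.2]
    have := abs_nonneg (-u 0 - u 1)
    nlinarith
  have n2 : ‖(ee (u 2) * ee (u 3)) ^ 2‖ = 1 := by
    rw [norm_pow, norm_mul, norm_ee, norm_ee]
    norm_num
  have : ‖(1 - ee (u 0)) + (1 - ee (u 1)) + (1 - ee (-u 0 - u 1)) * (ee (u 2) * ee (u 3)) ^ 2‖ ≤
      7 / 1000 + 7 / 1000 + 14 / 1000 := by
    refine (norm_add₃_le).trans ?_
    rw [norm_mul, n2, mul_one]
    linarith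
  linarith

theorem p_S2 : T_S2 := by
  intro α P g h
  classical
  let v : P → EuclideanSpace ℂ {s // s ∈ S} := fun x =>
    WithLp.toLp 2 (fun s => ee (dot s.1 (g x.1)))
  have hin : ∀ x y : P, inner ℂ (v y) (v x) = ft S (g x.1 - g y.1) := by
    intro x y
    rw [PiLp.inner_apply]
    unfold ft
    rw [← Finset.sum_coe_sort S]
    refine Finset.sum_congr rfl fun s _ => ?_
    show inner ℂ (ee (dot s.1 (g y.1))) (ee (dot s.1 (g x.1))) = _
    rw [RCLike.inner_apply, dot_sub, sub_eq_add_neg, ee_add, ee_neg]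
  have hne : ∀ x : P, v x ≠ 0 := by
    intro x hx
    have h1 := hin x x
    rw [hx, inner_zero_left, sub_self, ft_zero] at h1
    have h2 : (S.card : ℂ) ≠ 0 := by
      have : S.card = 6 := by decide
      rw [this]
      norm_num
    exact h2 h1.symm
  have hli : LinearIndependent ℂ v := by
    apply linearIndependent_of_ne_zero_of_inner_eq_zero hne
    intro x y hxy
    rw [hin]
    exact h _ y.2 _ x.2 (fun h' => hxy (Subtype.ext h'.symm))
  have h3 := hli.fintype_card_le_finrank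
  rw [finrank_euclideanSpace, Fintype.card_coe, Fintype.card_coe] at h3
  have : S.card = 6 := by decide
  omega

namespace Six

/-- the homomorphism which is bijective mod 6 on `S` -/
def ph (s : Z5) : ℤ := 3 * s 0 + s 1 + 4 * s 2 + 5 * s 3

theorem ph_ne : ∀ s ∈ S, ∀ s' ∈ S, s ≠ s' → ¬ (6 : ℤ) ∣ ph s - ph s' := by
  unfold ph S
  decide

theorem dot_lS (s : Z5) (k : Fin 6) : dot s (lS k) = (k : ℕ) * ((ph s : ℝ) / 6) := by
  unfold dot lS ph
  rw [Fin.sum_univ_five]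
  simp only [Matrix.cons_val_zero, Matrix.cons_val_one, Matrix.cons_val, Int.cast_add,
    Int.cast_mul, Int.cast_ofNat]
  ring

theorem geom (m : ℤ) : ∑ k : Fin 6, ee ((k : ℕ) * ((m : ℝ) / 6)) = if (6 : ℤ) ∣ m then 6 else 0 := by
  have h1 : ∑ k : Fin 6, ee ((k : ℕ) * ((m : ℝ) / 6)) = ∑ k ∈ range 6, ee ((m : ℝ) / 6) ^ k := by
    rw [Finset.sum_range]
    refine Finset.sum_congr rfl fun k _ => ?_
    rw [ee_nsmul]
  rw [h1]
  split_ifs with h
  · obtain ⟨n, rfl⟩ := h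
    have : (((6 * n : ℤ) : ℝ) / 6) = (n : ℝ) := by push_cast; ring
    rw [this, ee_int]
    simp
  · have hz6 : ee ((m : ℝ) / 6) ^ 6 = 1 := by
      rw [← ee_nsmul]
      have : ((6 : ℕ) : ℝ) * ((m : ℝ) / 6) = (m : ℝ) := by push_cast; ring
      rw [this, ee_int]
    have hz1 : ee ((m : ℝ) / 6) ≠ 1 := by
      intro hz
      obtain ⟨n, hn⟩ := (ee_eq_one_iff _).1 hz
      apply h
      refine ⟨n, ?_⟩
      have : (m : ℝ) = 6 * n := by linarith
      exact_mod_cast this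
    rw [geom_sum_eq hz1, hz6, sub_self, zero_div]

end Six

theorem p_S3 : T_S3 := by
  intro ξ
  have h1 : ∑ k : Fin 6, ft S (ξ + lS k) * (starRingEnd ℂ) (ft S (ξ + lS k)) = 36 := by
    have h2 : ∀ k : Fin 6, ft S (ξ + lS k) * (starRingEnd ℂ) (ft S (ξ + lS k)) =
        ∑ s ∈ S, ∑ s' ∈ S, ee (dot s ξ - dot s' ξ) *
          ee ((k : ℕ) * (((Six.ph s - Six.ph s' : ℤ) : ℝ) / 6)) := by
      intro k
      unfold ft
      rw [map_sum, Finset.sum_mul_sum]
      refine Finset.sum_congr rfl fun s _ => Finset.sum_congr rfl fun s' _ => ?_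
      rw [← ee_neg, ← ee_add, ← ee_add, dot_add, dot_add, Six.dot_lS, Six.dot_lS]
      congr 1
      push_cast
      ring
    rw [Finset.sum_congr rfl fun k _ => h2 k, Finset.sum_comm]
    have h3 : ∀ s ∈ S, ∑ k : Fin 6, ∑ s' ∈ S, ee (dot s ξ - dot s' ξ) *
        ee ((k : ℕ) * (((Six.ph s - Six.ph s' : ℤ) : ℝ) / 6)) = 6 := by
      intro s hs
      rw [Finset.sum_comm, Finset.sum_eq_single_of_mem s hs]
      · rw [← Finset.mul_sum, Six.geom, sub_self, sub_self, ee_zero]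
        simp
      · intro s' hs' hne
        rw [← Finset.mul_sum, Six.geom, if_neg (Six.ph_ne s hs s' hs' hne.symm), mul_zero]
    rw [Finset.sum_congr rfl h3, Finset.sum_const]
    have : S.card = 6 := by decide
    rw [this]
    norm_num
  have h4 : (((∑ k : Fin 6, ‖ft S (ξ + lS k) / 6‖ ^ 2 : ℝ)) : ℂ) = ((1 : ℝ) : ℂ) := by
    have h5 : ∀ k : Fin 6, (((‖ft S (ξ + lS k) / 6‖ ^ 2 : ℝ)) : ℂ) =
        ft S (ξ + lS k) * (starRingEnd ℂ) (ft S (ξ + lS k)) / 36 := by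
      intro k
      rw [norm_div, div_pow, Complex.mul_conj, Complex.normSq_eq_norm_sq]
      have : ‖(6 : ℂ)‖ = 6 := by norm_num
      rw [this]
      push_cast
      ring
    rw [Complex.ofReal_sum, Finset.sum_congr rfl fun k _ => h5 k, ← Finset.sum_div, h1]
    norm_num
  exact Complex.ofReal_injective h4

end SpM
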