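import Pool.Agent.SpM.Targets

/-!
# SpM, J4: `ft (A N)` does not vanish near `(m/3, 0)` for `m = 0` and `m ∈ K` modulo `3`
-/

set_option autoImplicit false

namespace SpM

open Finset

noncomputable section

namespace ZZ

/-- the linear form `c` on `(Fin 6)^4` -/
def lf (c : Fin 4 → ℤ) (x : Fin 4 → Fin 6) : ℤ := ∑ i, c i * (((x i : Fin 6) : ℕ) : ℤ)

theorem lf_add (c : Fin 4 → ℤ) (x y : Fin 4 → Fin 6) :
    ∃ k : ℤ, lf c (x + y) = lf c x + lf c y + 6 * k := by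
  have h : ∀ a b : Fin 6, ∃ k : ℤ, (((a + b : Fin 6) : ℕ) : ℤ) = (a : ℕ) + (b : ℕ) + 6 * k := by
    intro a b
    refine ⟨-((((a : ℕ) + (b : ℕ)) / 6 : ℕ) : ℤ), ?_⟩
    rw [Fin.val_add]
    have := Nat.mod_add_div ((a : ℕ) + (b : ℕ)) 6
    have h2 : ((((a : ℕ) + (b : ℕ)) % 6 + 6 * (((a : ℕ) + (b : ℕ)) / 6) : ℕ) : ℤ) =
      (((a : ℕ) + (b : ℕ) : ℕ) : ℤ) := by rw [this]
    push_cast at h2 ⊢
    linarith
  choose k hk using h
  refine ⟨∑ i, c i * k (x i) (y i), ?_⟩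
  unfold lf
  rw [Finset.mul_sum, ← Finset.sum_add_distrib, ← Finset.sum_add_distrib]
  refine Finset.sum_congr rfl fun i _ => ?_
  rw [Pi.add_apply, hk]
  ring

theorem lf_zero (c : Fin 4 → ℤ) : lf c 0 = 0 := by simp [lf]

/-- the character of `m` -/
def chi (m : Fin 4 → ℤ) (x : Fin 4 → Fin 6) : ℂ := ee ((lf m x : ℝ) / 3)

theorem chi_add (m : Fin 4 → ℤ) (x y : Fin 4 → Fin 6) :
    chi m (x + y) = chi m x * chi m y := by
  obtain ⟨k, hk⟩ := lf_add m x y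
  unfold chi
  rw [hk, ← ee_add]
  have : (((lf m x + lf m y + 6 * k : ℤ)) : ℝ) / 3 =
      ((lf m x : ℝ) / 3 + (lf m y : ℝ) / 3) + ((2 * k : ℤ) : ℝ) := by
    push_cast; ring
  rw [this, ee_add_int]

/-- the subgroup of `φ_j` -/
def Cj (j : Fin 15) : Finset (Fin 4 → Fin 6) :=
  Finset.univ.filter (fun x => (6 : ℤ) ∣ lf (phi j) x)

theorem mem_Cj (j : Fin 15) (x : Fin 4 → Fin 6) : x ∈ Cj j ↔ (6 : ℤ) ∣ lf (phi j) x := by
  simp [Cj]

theorem zero_mem (j : Fin 15) : (0 : Fin 4 → Fin 6) ∈ Cj j := by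
  rw [mem_Cj, lf_zero]
  exact dvd_zero _

theorem add_mem (j : Fin 15) (x y : Fin 4 → Fin 6) (hy : y ∈ Cj j) : x + y ∈ Cj j ↔ x ∈ Cj j := by
  rw [mem_Cj] at hy ⊢
  rw [mem_Cj]
  obtain ⟨k, hk⟩ := lf_add (phi j) x y
  rw [hk]
  omega

theorem sum_mul (m : Fin 4 → ℤ) (j : Fin 15) (y : Fin 4 → Fin 6) (hy : y ∈ Cj j) :
    (∑ x ∈ Cj j, chi m x) * chi m y = ∑ x ∈ Cj j, chi m x := by
  rw [Finset.sum_mul]
  refine Finset.sum_equiv (Equiv.addRight y) (fun x => ?_) (fun x _ => ?_)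
  · exact (add_mem j x y hy).symm
  · exact (chi_add m x y).symm

theorem sum_all (m : Fin 4 → ℤ) (j : Fin 15) (h : ∀ y ∈ Cj j, chi m y = 1) :
    ∑ x ∈ Cj j, chi m x = (Cj j).card := by
  rw [Finset.sum_congr rfl h]
  simp

theorem sum_re_nonneg (m : Fin 4 → ℤ) (j : Fin 15) : 0 ≤ (∑ x ∈ Cj j, chi m x).re := by
  by_cases h : ∀ y ∈ Cj j, chi m y = 1
  · rw [sum_all m j h]
    simp
  · push Not at h
    obtain ⟨y, hy, hne⟩ := h
    have h1 := sum_mul m j y hy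
    have h2 : (∑ x ∈ Cj j, chi m x) * (chi m y - 1) = 0 := by
      rw [mul_sub, h1, mul_one, sub_self]
    rcases mul_eq_zero.1 h2 with h3 | h3
    · rw [h3]; simp
    · exact absurd (sub_eq_zero.1 h3) hne

theorem sum_re_one (m : Fin 4 → ℤ) (j : Fin 15) (h : ∀ y ∈ Cj j, chi m y = 1) :
    1 ≤ (∑ x ∈ Cj j, chi m x).re := by
  rw [sum_all m j h]
  have : 0 < (Cj j).card := Finset.card_pos.2 ⟨0, zero_mem j⟩
  simp only [Complex.natCast_re]
  exact_mod_cast this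

theorem chi_one_of_dvd (m : Fin 4 → ℤ) (x : Fin 4 → Fin 6) (h : (3 : ℤ) ∣ lf m x) :
    chi m x = 1 := by
  obtain ⟨k, hk⟩ := h
  unfold chi
  rw [hk]
  have : ((3 * k : ℤ) : ℝ) / 3 = (k : ℝ) := by push_cast; ring
  rw [this, ee_int]

theorem exists_j (m : Fin 4 → ℤ) (hm : zero3 m ∨ inK m) :
    ∃ j : Fin 15, ∀ y ∈ Cj j, chi m y = 1 := by
  rcases hm with hm | ⟨j, hm⟩
  · refine ⟨0, fun y _ => chi_one_of_dvd m y ?_⟩
    exact Finset.dvd_sum fun i _ => Dvd.dvd.mul_right (hm i) _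
  · refine ⟨j, fun y hy => chi_one_of_dvd m y ?_⟩
    rw [mem_Cj] at hy
    have h3 : (3 : ℤ) ∣ lf (phi j) y := Dvd.dvd.trans (by norm_num) hy
    rcases hm with hm | hm
    · have h : (3 : ℤ) ∣ lf m y - lf (phi j) y := by
        unfold lf
        rw [← Finset.sum_sub_distrib]
        refine Finset.dvd_sum fun i _ => ?_
        rw [← sub_mul]
        exact Dvd.dvd.mul_right (hm i) _
      omega
    · have h : (3 : ℤ) ∣ lf m y + lf (phi j) y := by
        unfold lf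
        rw [← Finset.sum_add_distrib]
        refine Finset.dvd_sum fun i _ => ?_
        rw [← add_mul]
        exact Dvd.dvd.mul_right (hm i) _
      omega

theorem pt_inj (N : ℕ) (p q : Idx) (h : pt N p = pt N q) : p = q := by
  have h0 := congrFun h 0
  have h1 := congrFun h 1
  have h2 := congrFun h 2
  have h3 := congrFun h 3
  have h4 := congrFun h 4
  simp only [pt, Matrix.cons_val] at h0 h1 h2 h3 h4
  have e0 := (p.1 0).2
  have e0' := (q.1 0).2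
  have e1 := (p.1 1).2
  have e1' := (q.1 1).2
  have key : ∀ (a b : ℕ) (x y : ℤ), a < 6 → b < 6 → (a : ℤ) + 6 * N * x = b + 6 * N * y →
      a = b := by
    intro a b x y ha hb h
    have : (a : ℤ) - b = 6 * (N * y - N * x) := by linarith
    omega
  have f0 := key _ _ _ _ e0 e0' h0
  have f1 := key _ _ _ _ e1 e1' h1
  have f2 : ((p.1 2 : ℕ)) = (q.1 2 : ℕ) := by exact_mod_cast h2
  have f3 : ((p.1 3 : ℕ)) = (q.1 3 : ℕ) := by exact_mod_cast h3
  have f4 : ((p.2 : ℕ)) = (q.2 : ℕ) := by exact_mod_cast h4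
  apply Prod.ext
  · funext i
    fin_cases i
    · exact Fin.ext f0
    · exact Fin.ext f1
    · exact Fin.ext f2
    · exact Fin.ext f3
  · exact Fin.ext f4

theorem ee_pt (N : ℕ) (m : Fin 4 → ℤ) (p : Idx) : ee (dot (pt N p) (third m)) = chi m p.1 := by
  have h : dot (pt N p) (third m) = (lf m p.1 : ℝ) / 3 +
      ((2 * N * lift0 p * m 0 + 2 * N * lift1 p * m 1 : ℤ) : ℝ) := by
    simp only [dot, pt, third, lf, Fin.sum_univ_succ, Fin.sum_univ_zero,
      Matrix.cons_val_succ, Matrix.cons_val_zero]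
    push_cast
    simp
    ring
  rw [h, ee_add_int]
  rfl

theorem ft_third (N : ℕ) (m : Fin 4 → ℤ) :
    ft (A N) (third m) = ∑ j : Fin 15, ∑ x ∈ Cj j, chi m x := by
  unfold ft A
  rw [Finset.sum_image (fun p _ q _ h => pt_inj N p q h)]
  simp only [ee_pt]
  unfold IA Cj
  rw [Finset.sum_filter, Fintype.sum_prod_type_right]
  refine Finset.sum_congr rfl fun j _ => ?_
  rw [Finset.sum_filter]
  rfl

theorem re_ft_third (N : ℕ) (m : Fin 4 → ℤ) (hm : zero3 m ∨ inK m) :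
    1 ≤ (ft (A N) (third m)).re := by
  obtain ⟨j, hj⟩ := exists_j m hm
  rw [ft_third, Complex.re_sum]
  refine (sum_re_one m j hj).trans ?_
  exact Finset.single_le_sum (f := fun j => (∑ x ∈ Cj j, chi m x).re)
    (fun i _ => sum_re_nonneg m i) (Finset.mem_univ j)

theorem ft_lip (B : Finset Z5) (x v : V5) (δ : ℝ) (hv : ∀ i, |v i| ≤ δ) :
    ‖ft B (x + v) - ft B x‖ ≤ (2 * Real.pi * ∑ b ∈ B, ∑ i, |(b i : ℝ)|) * δ := by
  unfold ft
  rw [← Finset.sum_sub_distrib]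
  refine (norm_sum_le _ _).trans ?_
  rw [Finset.mul_sum, Finset.sum_mul]
  refine Finset.sum_le_sum fun b _ => ?_
  rw [dot_add, ee_add]
  have h1 : ee (dot b x) * ee (dot b v) - ee (dot b x) = ee (dot b x) * (ee (dot b v) - 1) := by
    ring
  rw [h1, norm_mul, norm_ee, one_mul]
  refine (norm_ee_sub_one_le _).trans ?_
  rw [mul_assoc (2 * Real.pi)]
  refine mul_le_mul_of_nonneg_left (a := 2 * Real.pi) ?_ (by positivity)
  unfold dot
  refine (Finset.abs_sum_le_sum_abs _ _).trans ?_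
  rw [Finset.sum_mul]
  refine Finset.sum_le_sum fun i _ => ?_
  rw [abs_mul]
  exact mul_le_mul_of_nonneg_left (hv i) (abs_nonneg _)

theorem aux (K : ℝ) (hK : 0 ≤ K) : K * (1 / (2 * (K + 1))) < 1 := by
  rw [mul_one_div, div_lt_one (by positivity)]
  linarith

end ZZ

theorem p_Z : T_Z := by
  intro N
  obtain ⟨K, hK⟩ : ∃ K : ℝ, K = 2 * Real.pi * ∑ b ∈ A N, ∑ i, |(b i : ℝ)| := ⟨_, rfl⟩
  have hK0 : 0 ≤ K := by
    rw [hK]
    exact mul_nonneg (by positivity)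
      (Finset.sum_nonneg fun b _ => Finset.sum_nonneg fun i _ => abs_nonneg _)
  refine ⟨1 / (2 * (K + 1)), by positivity, ?_⟩
  intro m hm v hv h0
  have h1 := ZZ.re_ft_third N m hm
  have h2 := ZZ.ft_lip (A N) (third m) v _ hv
  rw [h0, zero_sub, norm_neg, ← hK] at h2
  have h3 := ZZ.aux K hK0
  have h4 := Complex.re_le_norm (ft (A N) (third m))
  exact absurd (h1.trans (h4.trans h2)) (not_le.2 h3)

end

end SpM
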