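import Pool.Agent.SpM.Targets

namespace SpM

open MeasureTheory Finset

noncomputable section

theorem scr_dvr (r : Fin 5 → ℕ) (hr : ∀ i, 2 ≤ r i) (x : V5) : scr r (dvr r x) = x := by
  funext i
  have : (r i : ℝ) ≠ 0 := by
    have := hr i
    exact_mod_cast (by omega : r i ≠ 0)
  simp only [scr, dvr]
  field_simp

/-- Everything about the measure `μ(R,B)`. -/
theorem main_measure (hhb : T_HB) (hmeas : T_MEAS) (hsa : T_SA) (huniq : T_UNIQ)
    (htrans : T_TRANS) (hpars : T_PARS) (hsb : T_SB) (hftb : T_FTB) (hftd : T_FTD)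
    (n : Fin 5 → ℕ) (C : Finset Z5) (hG : Good n C) :
    ∃ ν : Measure V5, SA (rr n) (BB n C) ν ∧ (∀ ν', SA (rr n) (BB n C) ν' → ν' = ν) ∧
      ∃ Λ : Set V5, Λ.Countable ∧ ∃ b : HilbertBasis Λ ℂ (Lp ℂ 2 ν),
        ∀ l : Λ, (b l : V5 → ℂ) =ᵐ[ν] fun x => ee (∑ i, (l : V5) i * x i) := by
  have hn : ∀ i, 1 ≤ n i := hG.pos
  have hr : ∀ i, 2 ≤ rr n i := fun i => by
    have := hn i
    simp only [rr]
    omega
  have hprod : 0 < ∏ i, n i := Finset.prod_pos fun i _ => hn i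
  have hCpos : 0 < C.card := by
    have := hG.card
    omega
  obtain ⟨hDc, hDf, hDi, hDb⟩ := hftd n C hG
  obtain ⟨hBc, hBf⟩ := hftb n C hG
  have hDne : (DD C).Nonempty := by
    rw [← Finset.card_pos]
    omega
  have hBne : (BB n C).Nonempty := by
    rw [← Finset.card_pos]
    omega
  obtain ⟨μ, hμ, hbox, hfe⟩ := hmeas (rr n) (DD C) (1 / 31) hr hDne (by norm_num) (by
    intro d hd i
    have h1 := hDb d hd i
    have h2 : |(d i : ℝ)| ≤ 2 * (n i : ℝ) := by exact_mod_cast h1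
    have h3 : (1 : ℝ) ≤ n i := by exact_mod_cast hn i
    simp only [rr]
    push_cast
    linarith)
  obtain ⟨Λ, hΛ⟩ := hpars n (DD C) hn (by rw [hDc, hG.card]) hDi μ hμ hbox hfe
  obtain ⟨ν, hν, hνf⟩ := htrans μ hμ
  have hSA : SA (rr n) (BB n C) ν := by
    rw [hsa (rr n) (BB n C) hr hBne ν hν]
    intro ξ
    rw [hνf, hνf (dvr (rr n) ξ), hBf, scr_dvr _ hr, hfe ξ, hDf, hBc, hDc]
    have hc : (C.card : ℂ) ≠ 0 := by exact_mod_cast hCpos.ne'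
    push_cast
    field_simp
  refine ⟨ν, hSA, fun ν' h' => huniq _ _ hr hBne ν' ν h' hSA, ?_⟩
  obtain ⟨Λ', hc', hΛ'⟩ := hsb Λ (mhat μ) hΛ
  refine ⟨Λ', hc', hhb 5 ν hν Λ' ?_⟩
  intro ξ
  have h := hΛ' ξ
  have e : (fun l : Λ' => ‖mhat ν (ξ + l)‖ ^ 2) =
      fun l : Λ' => ‖ft S (ξ + l) / 6 * mhat μ (ξ + l)‖ ^ 2 := by
    funext l
    rw [hνf]
  rw [e]
  exact h

end

end SpM
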