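import Mathlib

/-!
# SpM: a spectral self-affine measure without overlap whose digit set has no real spectrum

Definitions shared by all the files of the folder `SpM` (problem MP_a3bfa4_an).
-/

namespace SpM

open MeasureTheory Finset

noncomputable section

/-- Integer vectors of `ℤ^5`. -/
abbrev Z5 := Fin 5 → ℤ
/-- Real vectors of `ℝ^5`. -/
abbrev V5 := Fin 5 → ℝ

/-- The exponential `e(t) = exp(2πit)`. -/
def ee (t : ℝ) : ℂ := Complex.exp ((2 * Real.pi * t : ℝ) * Complex.I)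

/-- The pairing of an integer vector with a real vector. -/
def dot {d : ℕ} (b : Fin d → ℤ) (x : Fin d → ℝ) : ℝ := ∑ i, (b i : ℝ) * x i

/-- The exponential sum `∑_{b ∈ B} e(b·x)` of a finite set of integer vectors. -/
def ft {d : ℕ} (B : Finset (Fin d → ℤ)) (x : Fin d → ℝ) : ℂ := ∑ b ∈ B, ee (dot b x)

/-- The Fourier transform `∫ e(ξ·x) dμ(x)` of a measure on `ℝ^d`. -/
def mhat {d : ℕ} (μ : Measure (Fin d → ℝ)) (ξ : Fin d → ℝ) : ℂ :=
  ∫ x, ee (∑ i, ξ i * x i) ∂μ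

/-- An integer vector as a real vector. -/
def toR {d : ℕ} (b : Fin d → ℤ) : Fin d → ℝ := fun i => (b i : ℝ)

/-! ### Elementary facts about `ee` -/

theorem ee_zero : ee 0 = 1 := by simp [ee]

theorem ee_add (s t : ℝ) : ee (s + t) = ee s * ee t := by
  unfold ee
  rw [← Complex.exp_add]
  congr 1
  push_cast
  ring

theorem ee_int (n : ℤ) : ee (n : ℝ) = 1 := by
  unfold ee
  rw [Complex.exp_eq_one_iff]
  exact ⟨n, by push_cast; ring⟩

theorem ee_nat (n : ℕ) : ee (n : ℝ) = 1 := by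
  have := ee_int (n : ℤ)
  simpa using this

theorem ee_add_int (t : ℝ) (n : ℤ) : ee (t + n) = ee t := by
  rw [ee_add, ee_int, mul_one]

theorem ee_neg (t : ℝ) : ee (-t) = (starRingEnd ℂ) (ee t) := by
  unfold ee
  rw [← Complex.exp_conj]
  congr 1
  rw [map_mul, Complex.conj_ofReal, Complex.conj_I]
  push_cast
  ring

theorem norm_ee (t : ℝ) : ‖ee t‖ = 1 := by
  unfold ee
  exact Complex.norm_exp_ofReal_mul_I _

theorem ee_ne_zero (t : ℝ) : ee t ≠ 0 := by
  intro h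
  have := norm_ee t
  rw [h] at this
  simp at this

theorem ee_nsmul (n : ℕ) (t : ℝ) : ee (n * t) = ee t ^ n := by
  unfold ee
  rw [← Complex.exp_nat_mul]
  congr 1
  push_cast
  ring

theorem ee_re (t : ℝ) : (ee t).re = Real.cos (2 * Real.pi * t) := by
  unfold ee
  exact Complex.exp_ofReal_mul_I_re _

theorem ee_im (t : ℝ) : (ee t).im = Real.sin (2 * Real.pi * t) := by
  unfold ee
  exact Complex.exp_ofReal_mul_I_im _

theorem ee_eq_one_iff (t : ℝ) : ee t = 1 ↔ ∃ n : ℤ, t = n := by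
  unfold ee
  rw [Complex.exp_eq_one_iff]
  constructor
  · rintro ⟨n, hn⟩
    refine ⟨n, ?_⟩
    have h2 : (2 * Real.pi * Complex.I : ℂ) ≠ 0 := by
      simp [Real.pi_ne_zero]
    have h3 : ((t : ℂ) - n) * (2 * Real.pi * Complex.I) = 0 := by
      push_cast at hn
      linear_combination hn
    rcases mul_eq_zero.mp h3 with h | h
    · have : (t : ℂ) = n := by linear_combination h
      exact_mod_cast this
    · exact absurd h h2
  · rintro ⟨n, rfl⟩
    exact ⟨n, by push_cast; ring⟩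

theorem norm_ee_sub_one_le (t : ℝ) : ‖ee t - 1‖ ≤ 2 * Real.pi * |t| := by
  have h := Real.norm_exp_I_mul_ofReal_sub_one_le (x := 2 * Real.pi * t)
  have h2 : ee t = Complex.exp (Complex.I * ((2 * Real.pi * t : ℝ) : ℂ)) := by
    unfold ee
    rw [mul_comm]
  rw [h2]
  refine h.trans ?_
  rw [Real.norm_eq_abs, abs_mul, abs_mul, abs_of_pos Real.pi_pos, abs_of_pos (by norm_num : (0:ℝ) < 2)]

theorem continuous_ee : Continuous ee := by
  unfold ee
  fun_prop

theorem dot_add {d : ℕ} (b : Fin d → ℤ) (x y : Fin d → ℝ) :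
    dot b (x + y) = dot b x + dot b y := by
  simp [dot, mul_add, Finset.sum_add_distrib]

theorem dot_sub {d : ℕ} (b : Fin d → ℤ) (x y : Fin d → ℝ) :
    dot b (x - y) = dot b x - dot b y := by
  simp [dot, mul_sub, Finset.sum_sub_distrib]

theorem add_dot {d : ℕ} (b c : Fin d → ℤ) (x : Fin d → ℝ) :
    dot (b + c) x = dot b x + dot c x := by
  simp [dot, add_mul, Finset.sum_add_distrib]

theorem dot_toR {d : ℕ} (b c : Fin d → ℤ) : dot b (toR c) = ((∑ i, b i * c i : ℤ) : ℝ) := by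
  simp [dot, toR]

theorem ft_add_int {d : ℕ} (B : Finset (Fin d → ℤ)) (x : Fin d → ℝ) (c : Fin d → ℤ) :
    ft B (x + toR c) = ft B x := by
  unfold ft
  refine Finset.sum_congr rfl fun b _ => ?_
  rw [dot_add, dot_toR, ee_add_int]

theorem ft_zero {d : ℕ} (B : Finset (Fin d → ℤ)) : ft B 0 = B.card := by
  simp [ft, dot, ee_zero]

/-! ### The combinatorial data -/

/-- Fifteen homomorphisms `ℤ^4 → ℤ/6`, bijective on `S`; up to sign they give, mod `3`, all the
vectors of `F_3^4` that take each value twice on `S`. -/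
def phi : Fin 15 → Fin 4 → ℤ :=
  ![![3,1,4,5], ![3,1,5,4], ![3,1,2,5], ![1,3,4,5], ![1,3,5,4], ![1,3,2,5], ![1,4,3,2],
    ![1,4,2,3], ![1,4,2,5], ![1,2,3,4], ![1,5,3,2], ![1,2,4,3], ![1,2,4,5], ![1,5,2,3],
    ![1,2,5,4]]

/-- The six-point set `S` (a set of Tao type, without spectral complement). -/
def S : Finset Z5 :=
  {![0,0,0,0,0], ![1,0,0,0,0], ![0,1,0,0,0], ![0,0,1,0,0], ![0,0,0,1,0], ![-1,-1,2,2,0]}

/-- The periods. -/
def M : Fin 5 → ℕ := ![6,6,6,6,15]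

/-- Index type of the set `A`. -/
abbrev Idx := (Fin 4 → Fin 6) × Fin 15

/-- The index set of `A`: pairs `(x, j)` with `6 ∣ φ_j · x`. -/
def IA : Finset Idx :=
  Finset.univ.filter (fun p => (6 : ℤ) ∣ ∑ i, phi p.2 i * (((p.1 i : Fin 6) : ℕ) : ℤ))

/-- Lift of the first coordinate. -/
def lift0 (p : Idx) : ℤ := if p = (![0,0,0,0], 0) then 1 else 0

/-- Lift of the second coordinate. -/
def lift1 (p : Idx) : ℤ :=
  if p = (![2,0,0,0], 0) then 1 else if p = (![0,2,0,2], 0) then 3 else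
  if p = (![0,0,2,2], 0) then 9 else if p = (![0,2,2,0], 1) then 27 else 0

/-- The point of `A` with index `p`. -/
def pt (N : ℕ) (p : Idx) : Z5 :=
  ![((p.1 0 : ℕ) : ℤ) + 6 * N * lift0 p, ((p.1 1 : ℕ) : ℤ) + 6 * N * lift1 p,
    ((p.1 2 : ℕ) : ℤ), ((p.1 3 : ℕ) : ℤ), ((p.2 : ℕ) : ℤ)]

/-- The set `A` (a lift of a complement of `S` modulo the periods). -/
def A (N : ℕ) : Finset Z5 := IA.image (pt N)

/-- Box sizes. -/
def kk (K1 K2 : ℕ) : Fin 5 → ℕ := ![K1, K1, K2, K2, K2]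

/-- The periods of the digit set `D`. -/
def nn (K1 K2 : ℕ) (i : Fin 5) : ℕ := M i * kk K1 K2 i

/-- The box `∏ M_i {0, ..., k_i - 1}`. -/
def Box (K1 K2 : ℕ) : Finset Z5 :=
  Fintype.piFinset (fun i => (Finset.range (kk K1 K2 i)).image (fun c : ℕ => (M i : ℤ) * c))

/-- The set `C = A + Box`. -/
def Cs (N K1 K2 : ℕ) : Finset Z5 := (A N ×ˢ Box K1 K2).image (fun p => p.1 + p.2)

/-- Componentwise product of natural numbers with an integer vector. -/
def scz (r : Fin 5 → ℕ) (s : Z5) : Z5 := fun i => (r i : ℤ) * s i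

/-- Componentwise product of natural numbers with a real vector. -/
def scr (r : Fin 5 → ℕ) (x : V5) : V5 := fun i => (r i : ℝ) * x i

/-- Componentwise quotient of a real vector by natural numbers. -/
def dvr (r : Fin 5 → ℕ) (x : V5) : V5 := fun i => x i / (r i : ℝ)

/-- The scaling `r = 64 n`. -/
def rr (n : Fin 5 → ℕ) : Fin 5 → ℕ := fun i => 64 * n i

/-- The digit set `D = C + S`. -/
def DD (C : Finset Z5) : Finset Z5 := (C ×ˢ S).image (fun p => p.1 + p.2)

/-- The digit set `B = C + R S` with `R = diag(64 n)`. -/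
def BB (n : Fin 5 → ℕ) (C : Finset Z5) : Finset Z5 :=
  (C ×ˢ S).image (fun p => p.1 + scz (rr n) p.2)

/-- `C + S` is a complete residue system modulo `n` (with unique representation), of small
size. -/
structure Good (n : Fin 5 → ℕ) (C : Finset Z5) : Prop where
  pos : ∀ i, 1 ≤ n i
  inj : ∀ c ∈ C, ∀ c' ∈ C, ∀ s ∈ S, ∀ s' ∈ S,
    (∀ i, (n i : ℤ) ∣ (c i + s i) - (c' i + s' i)) → c = c' ∧ s = s'
  card : C.card * 6 = ∏ i, n i
  bound : ∀ c ∈ C, ∀ s ∈ S, ∀ i, |c i + s i| ≤ 2 * n i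

/-- The point `(m/3, 0)` of `ℝ^5`. -/
def third (m : Fin 4 → ℤ) : V5 := ![(m 0 : ℝ)/3, (m 1 : ℝ)/3, (m 2 : ℝ)/3, (m 3 : ℝ)/3, 0]

/-- `m` is divisible by `3`. -/
def zero3 (m : Fin 4 → ℤ) : Prop := ∀ i, (3 : ℤ) ∣ m i

/-- `m` is, modulo `3`, one of the vectors `±φ_j`. -/
def inK (m : Fin 4 → ℤ) : Prop :=
  ∃ j : Fin 15, (∀ i, (3 : ℤ) ∣ m i - phi j i) ∨ (∀ i, (3 : ℤ) ∣ m i + phi j i)

/-! ### Self-affine measures and attractors for diagonal matrices -/

/-- `τ_b(x) = R^{-1}(x + b)`, `R = diag(r)`. -/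
def tauD (r : Fin 5 → ℕ) (b : Z5) (x : V5) : V5 := fun i => (x i + b i) / (r i : ℝ)

/-- `μ` is the self-affine measure of `(diag r, B)`: a probability measure with
`μ = (1/|B|) ∑_b μ ∘ τ_b^{-1}`. -/
def SA (r : Fin 5 → ℕ) (B : Finset Z5) (μ : Measure V5) : Prop :=
  IsProbabilityMeasure μ ∧ μ = ((B.card : ENNReal))⁻¹ • ∑ b ∈ B, μ.map (tauD r b)

/-- `T` is an attractor of `(diag r, B)`. -/
def Attr (r : Fin 5 → ℕ) (B : Finset Z5) (T : Set V5) : Prop :=
  IsCompact T ∧ T.Nonempty ∧ T = ⋃ b ∈ B, tauD r b '' T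

end

end SpM
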