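import Pool.Agent.SpM.Assembly

/-!
# SpM: the objects of the problem, for an arbitrary integer matrix, and the bridge to the diagonal
case
-/

namespace SpM

open MeasureTheory Matrix

noncomputable section

/-- All the eigenvalues of the integer matrix `R` have modulus `> 1`. -/
def Expanding {d : ℕ} (R : Matrix (Fin d) (Fin d) ℤ) : Prop :=
  ∀ z ∈ spectrum ℂ (R.map (Int.cast : ℤ → ℂ)), 1 < ‖z‖

/-- `τ_b(x) = R⁻¹(x + b)` on `ℝ^d`. -/
def tau {d : ℕ} (R : Matrix (Fin d) (Fin d) ℤ) (b : Fin d → ℤ) (x : Fin d → ℝ) : Fin d → ℝ :=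
  (R.map (Int.cast : ℤ → ℝ))⁻¹ *ᵥ (x + fun i => (b i : ℝ))

/-- `μ` is a self-affine measure of `(R, B)`: a Borel probability measure on `ℝ^d` with
`μ = (1/#B) ∑_{b ∈ B} μ ∘ τ_b⁻¹`. -/
def IsSelfAffine {d : ℕ} (R : Matrix (Fin d) (Fin d) ℤ) (B : Finset (Fin d → ℤ))
    (μ : Measure (Fin d → ℝ)) : Prop :=
  IsProbabilityMeasure μ ∧ μ = ((B.card : ENNReal))⁻¹ • ∑ b ∈ B, μ.map (tau R b)

/-- `T` is an attractor of `(R, B)`: nonempty, compact, `T = ⋃_{b ∈ B} τ_b(T)`. -/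
def IsAttractor {d : ℕ} (R : Matrix (Fin d) (Fin d) ℤ) (B : Finset (Fin d → ℤ))
    (T : Set (Fin d → ℝ)) : Prop :=
  IsCompact T ∧ T.Nonempty ∧ T = ⋃ b ∈ B, tau R b '' T

/-- `μ` is spectral: for some countable `Λ ⊂ ℝ^d` the exponentials `e^{2πi⟨λ,x⟩}`, `λ ∈ Λ`, form
an orthonormal basis of `L²(μ)`. -/
def IsSpectral {d : ℕ} (μ : Measure (Fin d → ℝ)) : Prop :=
  ∃ Λ : Set (Fin d → ℝ), Λ.Countable ∧ ∃ b : HilbertBasis Λ ℂ (Lp ℂ 2 μ),
    ∀ l : Λ, (b l : (Fin d → ℝ) → ℂ) =ᵐ[μ]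
      fun x => Complex.exp (2 * Real.pi * Complex.I * (((l : Fin d → ℝ) ⬝ᵥ x : ℝ) : ℂ))

/-- The matrix `(1/√#B) (e^{2πi⟨Q⁻¹b, l⟩})_{l ∈ L, b ∈ B}` of a real matrix `Q`, a finite digit
set `B ⊂ ℤ^d` and a finite set `L ⊂ ℝ^d` of real frequencies. -/
def expMatrix {d : ℕ} (Q : Matrix (Fin d) (Fin d) ℝ) (B : Finset (Fin d → ℤ))
    (L : Finset (Fin d → ℝ)) : Matrix L B ℂ :=
  fun l b => (1 / Real.sqrt B.card : ℝ) *
    Complex.exp (2 * Real.pi * Complex.I *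
      (((Q⁻¹ *ᵥ (fun i => ((b : Fin d → ℤ) i : ℝ))) ⬝ᵥ (l : Fin d → ℝ) : ℝ) : ℂ))

/-- `(Q, B, L)` is a (real) Hadamard triple: `#L = #B` and the matrix
`(1/√#B) (e^{2πi⟨Q⁻¹b, l⟩})` is unitary. -/
def IsHadamardTriple {d : ℕ} (Q : Matrix (Fin d) (Fin d) ℝ) (B : Finset (Fin d → ℤ))
    (L : Finset (Fin d → ℝ)) : Prop :=
  L.card = B.card ∧ expMatrix Q B L * (expMatrix Q B L)ᴴ = 1 ∧
    (expMatrix Q B L)ᴴ * expMatrix Q B L = 1

/-- The diagonal integer matrix with entries `r`. -/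
def dg (r : Fin 5 → ℕ) : Matrix (Fin 5) (Fin 5) ℤ := Matrix.diagonal (fun i => (r i : ℤ))

theorem tau_dg (r : Fin 5 → ℕ) (hr : ∀ i, 2 ≤ r i) (b : Z5) : tau (dg r) b = tauD r b := by
  have h0 : ∀ i, (r i : ℝ) ≠ 0 := fun i => by
    have := hr i
    exact_mod_cast (by omega : r i ≠ 0)
  have hmap : (dg r).map (Int.cast : ℤ → ℝ) = Matrix.diagonal (fun i => (r i : ℝ)) := by
    unfold dg
    rw [Matrix.diagonal_map (by simp)]
    congr 1
  have hinv : (Matrix.diagonal (fun i => (r i : ℝ)) : Matrix (Fin 5) (Fin 5) ℝ)⁻¹ =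
      Matrix.diagonal (fun i => (r i : ℝ)⁻¹) := by
    apply Matrix.inv_eq_right_inv
    rw [Matrix.diagonal_mul_diagonal]
    have : (fun i => (r i : ℝ) * (r i : ℝ)⁻¹) = fun _ => (1 : ℝ) := by
      funext i
      exact mul_inv_cancel₀ (h0 i)
    rw [this]
    exact Matrix.diagonal_one
  funext x i
  unfold tau tauD
  rw [hmap, hinv, Matrix.mulVec_diagonal]
  simp only [Pi.add_apply]
  field_simp

theorem expanding_dg (r : Fin 5 → ℕ) (hr : ∀ i, 2 ≤ r i) : Expanding (dg r) := by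
  have hmap : (dg r).map (Int.cast : ℤ → ℂ) = Matrix.diagonal (fun i => (r i : ℂ)) := by
    unfold dg
    rw [Matrix.diagonal_map (by simp)]
    congr 1
  intro z hz
  rw [hmap, spectrum_diagonal] at hz
  obtain ⟨i, rfl⟩ := hz
  rw [Complex.norm_natCast]
  have := hr i
  exact_mod_cast (by omega : 1 < r i)

theorem isSelfAffine_dg (r : Fin 5 → ℕ) (hr : ∀ i, 2 ≤ r i) (B : Finset Z5) (μ : Measure V5) :
    IsSelfAffine (dg r) B μ ↔ SA r B μ := by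
  unfold IsSelfAffine SA
  simp only [tau_dg r hr]

theorem isAttractor_dg (r : Fin 5 → ℕ) (hr : ∀ i, 2 ≤ r i) (B : Finset Z5) (T : Set V5) :
    IsAttractor (dg r) B T ↔ Attr r B T := by
  unfold IsAttractor Attr
  simp only [tau_dg r hr]

theorem ee_eq (t : ℝ) : ee t = Complex.exp (2 * Real.pi * Complex.I * (t : ℂ)) := by
  unfold ee
  congr 1
  push_cast
  ring

/-- A real Hadamard triple gives mutually orthogonal frequencies of `B`, as many as `#B`. -/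
theorem hadamard_orth {d : ℕ} (Q : Matrix (Fin d) (Fin d) ℝ) (B : Finset (Fin d → ℤ))
    (hB : B.Nonempty) (L : Finset (Fin d → ℝ)) (h : IsHadamardTriple Q B L) :
    ∃ Λ : Finset (Fin d → ℝ), Λ.card = B.card ∧
      ∀ x ∈ Λ, ∀ y ∈ Λ, x ≠ y → ft B (x - y) = 0 := by
  classical
  obtain ⟨hc, hu, -⟩ := h
  have hN : (0 : ℝ) < B.card := by exact_mod_cast hB.card_pos
  have key : ∀ l ∈ L, ∀ l' ∈ L, l ≠ l' → ft B (Q⁻¹ᵀ *ᵥ l - Q⁻¹ᵀ *ᵥ l') = 0 := by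
    intro l hl l' hl' hne
    have h1 := congrFun (congrFun hu ⟨l, hl⟩) ⟨l', hl'⟩
    rw [Matrix.one_apply_ne (by
      intro he
      exact hne (congrArg Subtype.val he)), Matrix.mul_apply] at h1
    have h2 : ∀ b : B, expMatrix Q B L ⟨l, hl⟩ b * (expMatrix Q B L)ᴴ b ⟨l', hl'⟩ =
        ((1 / (B.card : ℝ) : ℝ) : ℂ) * ee (dot (b : Fin d → ℤ) (Q⁻¹ᵀ *ᵥ l - Q⁻¹ᵀ *ᵥ l')) := by
      intro b
      have hs : (1 / Real.sqrt B.card) * (1 / Real.sqrt B.card) = 1 / (B.card : ℝ) := by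
        rw [div_mul_div_comm, Real.mul_self_sqrt hN.le, one_mul]
      have hd : ∀ w : Fin d → ℝ, (Q⁻¹ *ᵥ (fun i => ((b : Fin d → ℤ) i : ℝ))) ⬝ᵥ w =
          dot (b : Fin d → ℤ) (Q⁻¹ᵀ *ᵥ w) := by
        intro w
        rw [dotProduct_comm, Matrix.dotProduct_mulVec, ← Matrix.mulVec_transpose]
        simp [dot, dotProduct, mul_comm]
      rw [Matrix.conjTranspose_apply]
      unfold expMatrix
      rw [← ee_eq, ← ee_eq, hd, hd, dot_sub, sub_eq_add_neg, ee_add, ee_neg]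
      rw [← hs]
      simp only [RCLike.star_def, map_mul, Complex.conj_ofReal]
      push_cast
      ring
    rw [Finset.sum_congr rfl (fun b _ => h2 b), ← Finset.mul_sum] at h1
    rcases mul_eq_zero.mp h1 with h3 | h3
    · exfalso
      rw [Complex.ofReal_eq_zero] at h3
      have : (0 : ℝ) < 1 / (B.card : ℝ) := by positivity
      exact this.ne' h3
    · unfold ft
      rw [← Finset.sum_coe_sort]
      exact h3
  have hinj : Set.InjOn (fun l => Q⁻¹ᵀ *ᵥ l) (L : Set (Fin d → ℝ)) := by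
    intro l hl l' hl' he
    by_contra hne
    have h1 := key l hl l' hl' hne
    have he' : Q⁻¹ᵀ *ᵥ l = Q⁻¹ᵀ *ᵥ l' := he
    rw [he', sub_self, ft_zero] at h1
    have : (B.card : ℂ) ≠ 0 := by exact_mod_cast hB.card_pos.ne'
    exact this h1
  refine ⟨L.image (fun l => Q⁻¹ᵀ *ᵥ l), ?_, ?_⟩
  · rw [Finset.card_image_of_injOn hinj, hc]
  · intro x hx y hy hxy
    rw [Finset.mem_image] at hx hy
    obtain ⟨l, hl, rfl⟩ := hx
    obtain ⟨l', hl', rfl⟩ := hy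
    exact key l hl l' hl' (fun he => hxy (by rw [he]))

end

end SpM
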