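import Pool.Agent.SpM.Defs

/-!
# SpM: the exact statements to be proved (one job each, or a few per job)

Paper proof: `Pool/Agent/SpM/Blueprint.lean.txt`.
-/

namespace SpM

open MeasureTheory Finset

noncomputable section

/-! ### Combinatorics of the finite data (J1) -/

def T_CARD : Prop := IA.card = 3240

def T_MODS : Prop := ∀ N : ℕ, ∀ p ∈ IA, ∀ q ∈ IA, ∀ s ∈ S, ∀ t ∈ S,
  (∀ i, (M i : ℤ) ∣ (pt N p i + s i) - (pt N q i + t i)) → p = q ∧ s = t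

def T_PACK : Prop := ∀ (α : Type) (P : Finset α) (f : α → Fin 4 → ℤ),
  (∀ x ∈ P, ∀ y ∈ P, x ≠ y → ¬ zero3 (f x - f y) ∧ ¬ inK (f x - f y)) → P.card ≤ 13

/-! ### The digit sets (J2) -/

def T_GOOD : Prop := ∀ N K1 K2 : ℕ, 27 * N + 1 ≤ K1 → 1 ≤ K2 → Good (nn K1 K2) (Cs N K1 K2)

def T_FTC : Prop := ∀ N K1 K2 : ℕ, 1 ≤ K1 → 1 ≤ K2 →
  ((Cs N K1 K2).card = 3240 * ∏ i, kk K1 K2 i) ∧
  ∀ x : V5, ft (Cs N K1 K2) x =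
    ft (A N) x * ∏ i, ∑ c ∈ Finset.range (kk K1 K2 i), ee ((c : ℝ) * ((M i : ℝ) * x i))

def T_FTB : Prop := ∀ (n : Fin 5 → ℕ) (C : Finset Z5), Good n C →
  (BB n C).card = C.card * 6 ∧ ∀ x : V5, ft (BB n C) x = ft C x * ft S (scr (rr n) x)

def T_FTD : Prop := ∀ (n : Fin 5 → ℕ) (C : Finset Z5), Good n C →
  (DD C).card = C.card * 6 ∧ (∀ x : V5, ft (DD C) x = ft C x * ft S x) ∧
  (∀ d ∈ DD C, ∀ d' ∈ DD C, (∀ i, (n i : ℤ) ∣ d i - d' i) → d = d') ∧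
  (∀ d ∈ DD C, ∀ i, |d i| ≤ 2 * n i)

/-! ### Local analysis of `ft (A N)` near the points `(m/3, 0)` (J3, J4) -/

def T_LOC : Prop := ∀ N : ℕ, 10 ^ 6 ≤ N → ∃ C δ : ℝ, 0 < C ∧ 0 < δ ∧
  ∀ m : Fin 4 → ℤ, ¬ zero3 m → ∀ v : V5, (∀ i, |v i| ≤ δ) → ft (A N) (third m + v) = 0 →
    |v 0| ≤ C * (|v 2| + |v 3| + |v 4|) ∧ |v 1| ≤ C * (|v 2| + |v 3| + |v 4|)

def T_Z : Prop := ∀ N : ℕ, ∃ δ : ℝ, 0 < δ ∧
  ∀ m : Fin 4 → ℤ, (zero3 m ∨ inK m) → ∀ v : V5, (∀ i, |v i| ≤ δ) →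
    ft (A N) (third m + v) ≠ 0

/-! ### The six-point set `S` (J5) -/

def T_S1 : Prop := ∀ u : V5, |u 0| ≤ 1 / 1000 → |u 1| ≤ 1 / 1000 → ft S u ≠ 0

def T_S2 : Prop := ∀ (α : Type) (P : Finset α) (g : α → V5),
  (∀ x ∈ P, ∀ y ∈ P, x ≠ y → ft S (g x - g y) = 0) → P.card ≤ 6

/-- The vectors `k φ_0 / 6`, a spectrum of `S`. -/
def lS (k : Fin 6) : V5 :=
  ![(3 * (k : ℕ) : ℝ) / 6, (1 * (k : ℕ) : ℝ) / 6, (4 * (k : ℕ) : ℝ) / 6, (5 * (k : ℕ) : ℝ) / 6, 0]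

def T_S3 : Prop := ∀ ξ : V5, ∑ k : Fin 6, ‖ft S (ξ + lS k) / 6‖ ^ 2 = 1

/-! ### Counting and the absence of a real spectrum (J6) -/

def T_CNT : Prop := ∀ (α : Type) (P : Finset α) (rel : α → α → Prop),
  (∀ x ∈ P, ∀ y ∈ P, rel x y → rel y x) →
  (∀ x ∈ P, ∀ y ∈ P, ∀ z ∈ P, rel x y → rel y z → x ≠ z → rel x z) →
  (∀ Q ⊆ P, (∀ x ∈ Q, ∀ y ∈ Q, x ≠ y → rel x y) → Q.card ≤ 13) →
  (∀ Q ⊆ P, (∀ x ∈ Q, ∀ y ∈ Q, x ≠ y → ¬ rel x y) → Q.card ≤ 6) → P.card ≤ 78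

def T_NONSPEC : Prop := ∃ N K1 K2 : ℕ, 27 * N + 1 ≤ K1 ∧ 1 ≤ K2 ∧
  ∀ Λ : Finset V5,
    (∀ x ∈ Λ, ∀ y ∈ Λ, x ≠ y → ft (BB (nn K1 K2) (Cs N K1 K2)) (x - y) = 0) →
    Λ.card < (BB (nn K1 K2) (Cs N K1 K2)).card

/-! ### Measures (J7, J8, J9) -/

/-- A probability measure with `∑_{λ ∈ Λ} |μ^(ξ+λ)|² = 1` for all `ξ` is spectral. -/
def T_HB : Prop := ∀ (d : ℕ) (μ : Measure (Fin d → ℝ)), IsProbabilityMeasure μ →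
  ∀ Λ : Set (Fin d → ℝ), (∀ ξ, HasSum (fun l : Λ => ‖mhat μ (ξ + l)‖ ^ 2) 1) →
  ∃ b : HilbertBasis Λ ℂ (Lp ℂ 2 μ),
    ∀ l : Λ, (b l : (Fin d → ℝ) → ℂ) =ᵐ[μ] fun x => ee (∑ i, (l : Fin d → ℝ) i * x i)

/-- The Fourier transform determines a finite measure. -/
def T_EXT : Prop := ∀ (d : ℕ) (μ ν : Measure (Fin d → ℝ)), IsFiniteMeasure μ →
  IsFiniteMeasure ν → (∀ ξ, mhat μ ξ = mhat ν ξ) → μ = ν

/-- Existence of the self-affine measure, in terms of the functional equation. -/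
def T_MEAS : Prop := ∀ (r : Fin 5 → ℕ) (D : Finset Z5) (c : ℝ), (∀ i, 2 ≤ r i) →
  D.Nonempty → 0 ≤ c → (∀ d ∈ D, ∀ i, |(d i : ℝ)| ≤ c * ((r i : ℝ) - 1)) →
  ∃ μ : Measure V5, IsProbabilityMeasure μ ∧ (∀ᵐ x ∂μ, ∀ i, |x i| ≤ c) ∧
    ∀ ξ : V5, mhat μ ξ = ft D (dvr r ξ) / (D.card : ℂ) * mhat μ (dvr r ξ)

/-- Self-affinity is the functional equation of the Fourier transform. -/
def T_SA : Prop := ∀ (r : Fin 5 → ℕ) (B : Finset Z5), (∀ i, 2 ≤ r i) → B.Nonempty →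
  ∀ μ : Measure V5, IsProbabilityMeasure μ →
    (SA r B μ ↔ ∀ ξ : V5, mhat μ ξ = ft B (dvr r ξ) / (B.card : ℂ) * mhat μ (dvr r ξ))

/-- Uniqueness of the self-affine measure. -/
def T_UNIQ : Prop := ∀ (r : Fin 5 → ℕ) (B : Finset Z5), (∀ i, 2 ≤ r i) → B.Nonempty →
  ∀ μ ν : Measure V5, SA r B μ → SA r B ν → μ = ν

/-- Convolution with the uniform measure on `S`. -/
def T_TRANS : Prop := ∀ μ : Measure V5, IsProbabilityMeasure μ →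
  ∃ ν : Measure V5, IsProbabilityMeasure ν ∧ ∀ ξ : V5, mhat ν ξ = ft S ξ / 6 * mhat μ ξ

/-! ### The spectrum (J10, J11) -/

/-- The spectrum of `μ_D`. -/
def T_PARS : Prop := ∀ (n : Fin 5 → ℕ) (D : Finset Z5), (∀ i, 1 ≤ n i) →
  D.card = ∏ i, n i → (∀ d ∈ D, ∀ d' ∈ D, (∀ i, (n i : ℤ) ∣ d i - d' i) → d = d') →
  ∀ μ : Measure V5, IsProbabilityMeasure μ → (∀ᵐ x ∂μ, ∀ i, |x i| ≤ 1 / 31) →
  (∀ ξ : V5, mhat μ ξ = ft D (dvr (rr n) ξ) / (D.card : ℂ) * mhat μ (dvr (rr n) ξ)) →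
  ∃ Λ : Set Z5, ∀ ξ : V5, HasSum (fun l : Λ => ‖mhat μ (ξ + toR (l : Z5))‖ ^ 2) 1

/-- Passing from `μ_D` to `μ_B = δ_S * μ_D`. -/
def T_SB : Prop := ∀ (Λ : Set Z5) (g : V5 → ℂ),
  (∀ ξ : V5, HasSum (fun l : Λ => ‖g (ξ + toR (l : Z5))‖ ^ 2) 1) →
  ∃ Λ' : Set V5, Λ'.Countable ∧
    ∀ ξ : V5, HasSum (fun l : Λ' => ‖ft S (ξ + l) / 6 * g (ξ + l)‖ ^ 2) 1

/-! ### Attractors (J11, J12) -/

def T_ATT : Prop := ∀ (r : Fin 5 → ℕ) (B : Finset Z5), (∀ i, 2 ≤ r i) → B.Nonempty →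
  ∃ T : Set V5, Attr r B T

def T_SEP : Prop := ∀ (n : Fin 5 → ℕ) (C : Finset Z5), Good n C →
  ∀ T : Set V5, Attr (rr n) (BB n C) T → ∀ b ∈ BB n C, ∀ b' ∈ BB n C, b ≠ b' →
    Disjoint (tauD (rr n) b '' T) (tauD (rr n) b' '' T)

end

end SpM
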